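import Mathlib

/-!
# Divisor bound and pairs with given product
-/

set_option autoImplicit false

namespace Pool.Agent.Helper89.SLE

open Finset

/-- `τ(n) ≤ C n^ε`. -/
theorem divisor_bound (ε : ℝ) (hε : 0 < ε) :
    ∃ C : ℝ, 1 ≤ C ∧ ∀ n : ℕ, 0 < n → ((n.divisors.card : ℕ) : ℝ) ≤ C * (n : ℝ) ^ ε := by
  classical
  -- `(v + 1) ≤ K * 2 ^ (ε v)`
  obtain ⟨K, hK1, hK⟩ : ∃ K : ℝ, 1 ≤ K ∧ ∀ v : ℕ, ((v : ℝ) + 1) ≤ K * ((2 : ℝ) ^ ε) ^ v := by
    have h2 : 1 < (2 : ℝ) ^ ε := Real.one_lt_rpow (by norm_num) hε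
    set δ := (2 : ℝ) ^ ε - 1 with hδ
    have hδ0 : 0 < δ := by linarith
    refine ⟨max 1 (1 / δ), le_max_left _ _, fun v => ?_⟩
    have h3 : 1 + (v : ℝ) * δ ≤ ((2 : ℝ) ^ ε) ^ v := by
      have := one_add_mul_le_pow (a := δ) (by linarith) v
      have h4 : 1 + δ = (2 : ℝ) ^ ε := by rw [hδ]; ring
      rw [h4] at this
      exact this
    have hm : 0 < max 1 (1 / δ) := lt_of_lt_of_le one_pos (le_max_left _ _)
    have h5 : max 1 (1 / δ) * (1 + v * δ) ≤ max 1 (1 / δ) * ((2 : ℝ) ^ ε) ^ v :=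
      mul_le_mul_of_nonneg_left h3 hm.le
    refine le_trans ?_ h5
    have h6 : (1 : ℝ) ≤ max 1 (1 / δ) * 1 := by rw [mul_one]; exact le_max_left _ _
    have h7 : (v : ℝ) ≤ max 1 (1 / δ) * (v * δ) := by
      have : (1 / δ) * (v * δ) ≤ max 1 (1 / δ) * (v * δ) :=
        mul_le_mul_of_nonneg_right (le_max_right _ _) (by positivity)
      have h8 : (1 / δ) * (v * δ) = v := by field_simp
      linarith
    linarith
  obtain ⟨P, hP⟩ : ∃ P : ℕ, ∀ p : ℕ, P ≤ p → (2 : ℝ) ≤ (p : ℝ) ^ ε := by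
    have := (tendsto_rpow_atTop hε).comp tendsto_natCast_atTop_atTop
    obtain ⟨P, hP⟩ := Filter.eventually_atTop.mp (this.eventually_ge_atTop 2)
    exact ⟨P, fun p hp => hP p hp⟩
  refine ⟨K ^ P, one_le_pow₀ hK1, fun n hn => ?_⟩
  rw [Nat.card_divisors hn.ne']
  push_cast
  have h1 : (n : ℝ) ^ ε = ∏ p ∈ n.primeFactors, ((p : ℝ) ^ ε) ^ (n.factorization p) := by
    conv_lhs => rw [← Nat.prod_factorization_pow_eq_self hn.ne']
    rw [Finsupp.prod, Nat.support_factorization]
    push_cast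
    rw [← Real.finset_prod_rpow _ _ (fun i _ => by positivity)]
    refine Finset.prod_congr rfl fun p hp => ?_
    rw [← Real.rpow_natCast, ← Real.rpow_natCast, ← Real.rpow_mul (by positivity),
      ← Real.rpow_mul (by positivity), mul_comm]
  rw [h1]
  have h2 : ∏ p ∈ n.primeFactors, ((n.factorization p : ℝ) + 1) ≤
      ∏ p ∈ n.primeFactors, ((if p < P then K else 1) * ((p : ℝ) ^ ε) ^ (n.factorization p)) := by
    refine Finset.prod_le_prod (fun p _ => by positivity) fun p hp => ?_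
    have hpp : p.Prime := Nat.prime_of_mem_primeFactors hp
    split_ifs with h
    · refine (hK _).trans ?_
      refine mul_le_mul_of_nonneg_left ?_ (by linarith)
      refine pow_le_pow_left₀ (by positivity) ?_ _
      exact Real.rpow_le_rpow (by norm_num) (by exact_mod_cast hpp.two_le) hε.le
    · rw [one_mul]
      have h3 : (2 : ℝ) ≤ (p : ℝ) ^ ε := hP p (by omega)
      have h4 : (2 : ℝ) ^ (n.factorization p) ≤ ((p : ℝ) ^ ε) ^ (n.factorization p) :=
        pow_le_pow_left₀ (by norm_num) h3 _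
      refine le_trans ?_ h4
      have := Nat.lt_two_pow_self (n := n.factorization p)
      exact_mod_cast this
  refine h2.trans ?_
  rw [Finset.prod_mul_distrib]
  refine mul_le_mul_of_nonneg_right ?_ (Finset.prod_nonneg fun p _ => by positivity)
  rw [Finset.prod_ite, Finset.prod_const_one, mul_one, Finset.prod_const]
  refine pow_le_pow_right₀ hK1 ?_
  calc (filter (fun p => p < P) n.primeFactors).card ≤ (Finset.range P).card :=
        Finset.card_le_card (fun p hp => Finset.mem_range.mpr (Finset.mem_filter.mp hp).2)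
    _ = P := Finset.card_range P

/-- Number of pairs with product `n ≠ 0`. -/
theorem card_pairs_le {τ Z : ℕ} (hτ : ∀ n : ℕ, 0 < n → n ≤ Z → n.divisors.card ≤ τ) {n : ℤ}
    (hn : n ≠ 0) (hnZ : n.natAbs ≤ Z) (F : Finset (ℤ × ℤ)) (hF : ∀ u ∈ F, u.1 * u.2 = n) :
    F.card ≤ 2 * τ := by
  classical
  have hinj : Set.InjOn Prod.fst (F : Set (ℤ × ℤ)) := by
    intro u hu v hv huv
    have h1 := hF u hu
    have h2 := hF v hv
    have h3 : u.1 ≠ 0 := by
      intro h
      rw [h, zero_mul] at h1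
      exact hn h1.symm
    refine Prod.ext huv ?_
    rw [← huv] at h2
    exact mul_left_cancel₀ h3 (h1.trans h2.symm)
  rw [← Finset.card_image_of_injOn hinj]
  have hsub : F.image Prod.fst ⊆
      (n.natAbs.divisors.image (fun d : ℕ => (d : ℤ))) ∪
      (n.natAbs.divisors.image (fun d : ℕ => -(d : ℤ))) := by
    intro a ha
    obtain ⟨u, hu, rfl⟩ := Finset.mem_image.mp ha
    have h1 := hF u hu
    have h2 : u.1.natAbs ∈ n.natAbs.divisors := by
      rw [Nat.mem_divisors]
      refine ⟨Int.natAbs_dvd_natAbs.mpr ⟨u.2, h1.symm⟩, by simpa using hn⟩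
    rw [Finset.mem_union, Finset.mem_image, Finset.mem_image]
    rcases Int.natAbs_eq u.1 with h | h
    · left; exact ⟨_, h2, h.symm⟩
    · right; exact ⟨_, h2, h.symm⟩
  refine (Finset.card_le_card hsub).trans ((Finset.card_union_le _ _).trans ?_)
  have h1 := Finset.card_image_le (s := n.natAbs.divisors) (f := fun d : ℕ => (d : ℤ))
  have h2 := Finset.card_image_le (s := n.natAbs.divisors) (f := fun d : ℕ => -(d : ℤ))
  have h3 := hτ n.natAbs (Int.natAbs_pos.mpr hn) hnZ
  omega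

/-- A fibre bound. -/
theorem card_le_fiber {α β : Type*} [DecidableEq β] (F : Finset α) (f : α → β) (T : Finset β)
    (hT : ∀ a ∈ F, f a ∈ T) (k : ℕ)
    (hk : ∀ b ∈ T, (F.filter (fun a => f a = b)).card ≤ k) : F.card ≤ k * T.card := by
  rw [Finset.card_eq_sum_card_fiberwise (f := f) (t := T) (fun a ha => hT a ha)]
  calc ∑ b ∈ T, (F.filter (fun a => f a = b)).card ≤ ∑ b ∈ T, k := Finset.sum_le_sum hk
    _ = k * T.card := by rw [Finset.sum_const, smul_eq_mul, mul_comm]

end Pool.Agent.Helper89.SLE
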