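import Pool.Agent.Helper89.SLE.Inter

/-!
# Counting frames
-/

set_option autoImplicit false

namespace Pool.Agent.Helper89.SLE

open Finset Matrix

theorem class_count_aux {τ Z : ℕ} (hτ1 : 1 ≤ τ)
    (hτ : ∀ n : ℕ, 0 < n → n ≤ Z → n.divisors.card ≤ τ)
    {A H C D n b l1 l2 : ℤ} (hA : 0 < A) (hΔ : 0 < A * C - H ^ 2) (hD : D ≠ 0) (hn : 0 < n)
    (hnD : n ∣ D) (hl : IsCoprime l1 l2) (hb : 0 ≤ b) (hZ : 3 * b ≤ Z) (F : Finset M2)
    (hdet : ∀ a ∈ F, a.det = D)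
    (hk : ∀ a ∈ F, n ∣ a 0 0 * l1 + a 0 1 * l2 ∧ n ∣ a 1 0 * l1 + a 1 1 * l2)
    (hq : ∀ a ∈ F, qf A H C (a 0 0) (a 0 1) ≤ b ∧ qf A H C (a 1 0) (a 1 1) ≤ b) :
    (F.card : ℝ) * ((n : ℝ) * Real.sqrt ((A * C - H ^ 2 : ℤ) : ℝ)) ≤ 60 * τ * b := by
  classical
  obtain ⟨α, β, hαβ⟩ := hl
  set A' : ℤ := n ^ 2 * (A * α ^ 2 + 2 * H * α * β + C * β ^ 2) with hA'
  set H' : ℤ := n * (-A * α * l2 + H * (α * l1 - β * l2) + C * β * l1) with hH'
  set C' : ℤ := A * l2 ^ 2 - 2 * H * l1 * l2 + C * l1 ^ 2 with hC'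
  have hΔ' : A' * C' - H' ^ 2 = n ^ 2 * (A * C - H ^ 2) := by
    have h2 : (α * l1 + β * l2) ^ 2 = 1 := by rw [hαβ]; norm_num
    rw [hA', hH', hC']
    linear_combination (n ^ 2 * (A * C - H ^ 2)) * h2
  have hpos : 0 < A * α ^ 2 + 2 * H * α * β + C * β ^ 2 := by
    have h1 : 0 < A * (A * α ^ 2 + 2 * H * α * β + C * β ^ 2) := by
      have h2 : A * (A * α ^ 2 + 2 * H * α * β + C * β ^ 2) =
        (A * α + H * β) ^ 2 + (A * C - H ^ 2) * β ^ 2 := by ring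
      rw [h2]
      by_cases hβ : β = 0
      · subst hβ
        have hα : α ≠ 0 := by
          rintro rfl
          simp at hαβ
        have : 0 < (A * α + H * 0) ^ 2 := by
          rw [mul_zero, add_zero]
          positivity
        linarith [mul_nonneg hΔ.le (sq_nonneg (0 : ℤ))]
      · have : 0 < (A * C - H ^ 2) * β ^ 2 := by positivity
        linarith [sq_nonneg (A * α + H * β)]
    exact (mul_pos_iff_of_pos_left hA).mp h1
  have hA'pos : 0 < A' := by rw [hA']; positivity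
  obtain ⟨q, hqD⟩ := hnD
  have hq0 : q ≠ 0 := by
    rintro rfl
    rw [mul_zero] at hqD
    exact hD hqD
  let φ : M2 → ℤ × ℤ × ℤ × ℤ := fun a =>
    ((a 0 0 * l1 + a 0 1 * l2) / n, -β * a 0 0 + α * a 0 1,
      (a 1 0 * l1 + a 1 1 * l2) / n, -β * a 1 0 + α * a 1 1)
  have hback : ∀ x y m1 m2 : ℤ, x * l1 + y * l2 = n * m1 → -β * x + α * y = m2 →
      x = n * m1 * α - m2 * l2 ∧ y = n * m1 * β + m2 * l1 := by
    intro x y m1 m2 h1 h2
    constructor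
    · rw [← h1, ← h2]; linear_combination -x * hαβ
    · rw [← h1, ← h2]; linear_combination -y * hαβ
  have hφ : Set.InjOn φ (F : Set M2) := by
    intro a ha a' ha' h
    simp only [φ, Prod.mk.injEq] at h
    obtain ⟨h1, h2, h3, h4⟩ := h
    obtain ⟨k1, k2⟩ := hk a ha
    obtain ⟨k1', k2'⟩ := hk a' ha'
    obtain ⟨m1, e1⟩ := k1
    obtain ⟨m3, e3⟩ := k2
    obtain ⟨m1', e1'⟩ := k1'
    obtain ⟨m3', e3'⟩ := k2'
    rw [e1, e1', Int.mul_ediv_cancel_left _ hn.ne', Int.mul_ediv_cancel_left _ hn.ne'] at h1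
    rw [e3, e3', Int.mul_ediv_cancel_left _ hn.ne', Int.mul_ediv_cancel_left _ hn.ne'] at h3
    have b1 := hback _ _ m1 _ e1 rfl
    have b1' := hback _ _ m1' _ e1' rfl
    have b3 := hback _ _ m3 _ e3 rfl
    have b3' := hback _ _ m3' _ e3' rfl
    apply M2_ext
    · rw [b1.1, b1'.1, h1, h2]
    · rw [b1.2, b1'.2, h1, h2]
    · rw [b3.1, b3'.1, h3, h4]
    · rw [b3.2, b3'.2, h3, h4]
  have hsol : ∀ m ∈ F.image φ, Sol A' H' C' q b m := by
    intro m hm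
    obtain ⟨a, ha, rfl⟩ := Finset.mem_image.mp hm
    obtain ⟨k1, k2⟩ := hk a ha
    obtain ⟨m1, e1⟩ := k1
    obtain ⟨m3, e3⟩ := k2
    have d := hdet a ha
    rw [Matrix.det_fin_two] at d
    have b1 := hback _ _ m1 _ e1 rfl
    have b3 := hback _ _ m3 _ e3 rfl
    have hqf : ∀ x y u v : ℤ, x = n * u * α - v * l2 → y = n * u * β + v * l1 →
        qf A' H' C' u v = qf A H C x y := by
      intro x y u v hx hy
      rw [hx, hy, hA', hH', hC']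
      unfold qf
      ring
    obtain ⟨q1, q2⟩ := hq a ha
    refine ⟨?_, ?_, ?_⟩
    · change (a 0 0 * l1 + a 0 1 * l2) / n * (-β * a 1 0 + α * a 1 1) -
        (-β * a 0 0 + α * a 0 1) * ((a 1 0 * l1 + a 1 1 * l2) / n) = q
      rw [e1, e3, Int.mul_ediv_cancel_left _ hn.ne', Int.mul_ediv_cancel_left _ hn.ne']
      apply mul_left_cancel₀ hn.ne'
      rw [← hqD, ← d]
      have e1' : n * m1 = a 0 0 * l1 + a 0 1 * l2 := e1.symm
      have e3' : n * m3 = a 1 0 * l1 + a 1 1 * l2 := e3.symm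
      linear_combination (-β * a 1 0 + α * a 1 1) * e1' - (-β * a 0 0 + α * a 0 1) * e3'
        + (a 0 0 * a 1 1 - a 0 1 * a 1 0) * hαβ
    · change qf A' H' C' ((a 0 0 * l1 + a 0 1 * l2) / n) (-β * a 0 0 + α * a 0 1) ≤ b
      rw [e1, Int.mul_ediv_cancel_left _ hn.ne', hqf _ _ _ _ b1.1 b1.2]
      exact q1
    · change qf A' H' C' ((a 1 0 * l1 + a 1 1 * l2) / n) (-β * a 1 0 + α * a 1 1) ≤ b
      rw [e3, Int.mul_ediv_cancel_left _ hn.ne', hqf _ _ _ _ b3.1 b3.2]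
      exact q2
  have hmain := sol_card hτ1 hτ hq0 hb hZ A'.natAbs A' H' C' hA'pos le_rfl
    (by rw [hΔ']; positivity) _ hsol
  rw [Finset.card_image_of_injOn hφ, hΔ'] at hmain
  have hs : Real.sqrt ((n ^ 2 * (A * C - H ^ 2) : ℤ) : ℝ) =
      (n : ℝ) * Real.sqrt ((A * C - H ^ 2 : ℤ) : ℝ) := by
    rw [Int.cast_mul, Int.cast_pow, Real.sqrt_mul (by positivity), Real.sqrt_sq (by positivity)]
  rw [hs] at hmain
  exact hmain

theorem class_count {τ Z : ℕ} (hτ1 : 1 ≤ τ)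
    (hτ : ∀ n : ℕ, 0 < n → n ≤ Z → n.divisors.card ≤ τ)
    {A H C ν n b l1 l2 : ℤ} (hA : 0 < A) (hΔ : 0 < A * C - H ^ 2) (hν : ν ≠ 0) (hn : 0 < n)
    (hnν : n ∣ ν) (hl : IsCoprime l1 l2) (hb : 0 ≤ b) (hZ : 3 * b ≤ Z) (F : Finset M2)
    (hdet : ∀ a ∈ F, a.det = ν ∨ a.det = -ν)
    (hk : ∀ a ∈ F, n ∣ a 0 0 * l1 + a 0 1 * l2 ∧ n ∣ a 1 0 * l1 + a 1 1 * l2)
    (hq : ∀ a ∈ F, qf A H C (a 0 0) (a 0 1) ≤ b ∧ qf A H C (a 1 0) (a 1 1) ≤ b) :
    (F.card : ℝ) * ((n : ℝ) * Real.sqrt ((A * C - H ^ 2 : ℤ) : ℝ)) ≤ 120 * τ * b := by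
  classical
  have h1 := class_count_aux hτ1 hτ hA hΔ hν hn hnν hl hb hZ (F.filter (fun a => a.det = ν))
    (fun a ha => (Finset.mem_filter.mp ha).2) (fun a ha => hk a (Finset.mem_filter.mp ha).1)
    (fun a ha => hq a (Finset.mem_filter.mp ha).1)
  have h2 := class_count_aux hτ1 hτ hA hΔ (neg_ne_zero.mpr hν) hn (dvd_neg.mpr hnν) hl hb hZ
    (F.filter (fun a => ¬ a.det = ν))
    (fun a ha => by
      have := Finset.mem_filter.mp ha
      exact (hdet a this.1).resolve_left this.2)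
    (fun a ha => hk a (Finset.mem_filter.mp ha).1)
    (fun a ha => hq a (Finset.mem_filter.mp ha).1)
  have h3 : (F.card : ℝ) = ((F.filter (fun a => a.det = ν)).card : ℝ) +
      ((F.filter (fun a => ¬ a.det = ν)).card : ℝ) := by
    rw [← Nat.cast_add, Finset.card_filter_add_card_filter_not]
  rw [h3, add_mul]
  linarith

/-- Values of the definite form on the rows of an intertwiner. -/
theorem rows_of_inter {a E0 E : M2} (h : a * E0 = E * a) (tE0 : E0 0 0 + E0 1 1 = 0) :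
    qf (-E0 0 1) (E0 0 0) (E0 1 0) (a 0 0) (a 0 1) = a.det * (-E 0 1) ∧
    qf (-E0 0 1) (E0 0 0) (E0 1 0) (a 1 0) (a 1 1) = a.det * (E 1 0) := by
  obtain ⟨h1, h2, h3, h4⟩ := entries_of_eq h
  have e : E0 1 1 = -E0 0 0 := by linarith
  rw [e] at h2 h4
  rw [Matrix.det_fin_two]
  unfold qf
  constructor
  · linear_combination a 0 1 * h1 - a 0 0 * h2
  · linear_combination a 1 1 * h3 - a 1 0 * h4

end Pool.Agent.Helper89.SLE
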