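import Pool.Agent.Helper89.SLE.NonDeg

/-!
# Counting degenerate configurations
-/

set_option autoImplicit false

namespace Pool.Agent.Helper89.SLE

open Finset Matrix

theorem card_le_Icc {α : Type*} (F : Finset α) (f : α → ℤ) (K : ℕ) (h : ∀ x ∈ F, |f x| ≤ K)
    (k : ℕ) (hk : ∀ b : ℤ, |b| ≤ K → (F.filter (fun x => f x = b)).card ≤ k) :
    F.card ≤ k * (2 * K + 1) := by
  classical
  have := card_le_fiber F f (Finset.Icc (-(K : ℤ)) K)
    (fun x hx => Finset.mem_Icc.mpr (abs_le.mp (h x hx))) k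
    (fun b hb => hk b (abs_le.mpr (Finset.mem_Icc.mp hb)))
  refine this.trans (le_of_eq ?_)
  rw [Int.card_Icc]
  congr 1; omega

theorem card_le_pairs {α : Type*} {τ Z : ℕ}
    (hτ : ∀ n : ℕ, 0 < n → n ≤ Z → n.divisors.card ≤ τ) {n : ℤ}
    (hn : n ≠ 0) (hnZ : n.natAbs ≤ Z) (F : Finset α) (u v : α → ℤ)
    (h : ∀ x ∈ F, u x * v x = n)
    (hinj : ∀ x ∈ F, ∀ y ∈ F, u x = u y → v x = v y → x = y) : F.card ≤ 2 * τ := by
  classical
  have hi : Set.InjOn (fun x => (u x, v x)) (F : Set α) := by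
    intro x hx y hy hxy
    exact hinj x hx y hy (congrArg Prod.fst hxy) (congrArg Prod.snd hxy)
  rw [← Finset.card_image_of_injOn hi]
  apply card_pairs_le hτ hn hnZ
  intro w hw
  obtain ⟨x, hx, rfl⟩ := Finset.mem_image.mp hw
  exact h x hx

theorem key_id {g w : M2} (hg : g.det = 1) (hw : w.det = 0) (h : BB g w = 0) :
    (g 0 0 * w 0 1 - g 0 1 * w 0 0) * (g 1 1 * w 0 1 - g 0 1 * w 1 1) = w 0 1 ^ 2 := by
  rw [Matrix.det_fin_two] at hg hw
  unfold BB at h
  linear_combination (w 0 1) ^ 2 * hg + (g 0 1) ^ 2 * hw - (g 0 1 * w 0 1) * h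

theorem natAbs_sq_le {b : ℤ} {K : ℕ} (h : |b| ≤ K) : (b ^ 2).natAbs ≤ K ^ 2 := by
  have h1 : b ^ 2 ≤ (K : ℤ) ^ 2 := by
    rw [← sq_abs b]
    exact pow_le_pow_left₀ (abs_nonneg _) h 2
  have h2 : ((b ^ 2).natAbs : ℤ) = b ^ 2 := Int.natAbs_of_nonneg (sq_nonneg b)
  have h3 : ((b ^ 2).natAbs : ℤ) ≤ ((K ^ 2 : ℕ) : ℤ) := by rw [h2]; push_cast; exact h1
  exact_mod_cast h3

theorem omega_count_b {τ Z : ℕ} (hτ1 : 1 ≤ τ)
    (hτ : ∀ n : ℕ, 0 < n → n ≤ Z → n.divisors.card ≤ τ)
    {L : ℕ} (hL : 1 ≤ L) (hZ : (2 * L) ^ 2 ≤ Z) (g : M2) (hg : g.det = 1) (hb : g 0 1 ≠ 0)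
    (F : Finset M2)
    (hF : ∀ w ∈ F, w.det = 0 ∧ BB g w = 0 ∧ ∀ i j, |w i j| ≤ ((2 * L : ℕ) : ℤ)) :
    F.card ≤ 20 * L * τ := by
  classical
  set F1 := F.filter (fun w => w 0 1 ≠ 0) with hF1
  set F2 := F.filter (fun w => w 0 1 = 0 ∧ w 0 0 = 0) with hF2
  set F3 := F.filter (fun w => w 0 1 = 0 ∧ w 1 1 = 0) with hF3
  have hcover : F ⊆ F1 ∪ F2 ∪ F3 := by
    intro w hw
    rw [Finset.mem_union, Finset.mem_union, hF1, hF2, hF3, Finset.mem_filter, Finset.mem_filter,
      Finset.mem_filter]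
    by_cases h1 : w 0 1 = 0
    · have h2 := (hF w hw).1
      rw [Matrix.det_fin_two, h1, zero_mul, sub_zero] at h2
      rcases mul_eq_zero.mp h2 with h3 | h3
      · exact Or.inl (Or.inr ⟨hw, h1, h3⟩)
      · exact Or.inr ⟨hw, h1, h3⟩
    · exact Or.inl (Or.inl ⟨hw, h1⟩)
  have c1 : F1.card ≤ 2 * τ * (2 * (2 * L) + 1) := by
    apply card_le_Icc F1 (fun w => w 0 1)
    · intro w hw
      exact (hF w (Finset.mem_filter.mp hw).1).2.2 0 1
    · intro b hbL
      rcases eq_or_ne b 0 with rfl | hb0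
      · have : F1.filter (fun w => w 0 1 = 0) = ∅ := by
          apply Finset.filter_eq_empty_iff.mpr
          intro w hw
          exact (Finset.mem_filter.mp hw).2
        rw [this]; simp
      · apply card_le_pairs hτ (pow_ne_zero 2 hb0) ((natAbs_sq_le hbL).trans hZ) _
          (fun w => g 0 0 * w 0 1 - g 0 1 * w 0 0) (fun w => g 1 1 * w 0 1 - g 0 1 * w 1 1)
        · intro w hw
          obtain ⟨hw1, hw2⟩ := Finset.mem_filter.mp hw
          obtain ⟨h1, h2, -⟩ := hF w (Finset.mem_filter.mp hw1).1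
          rw [← hw2]
          exact key_id hg h1 h2
        · intro w hw y hy h1 h2
          obtain ⟨hw1, hw2⟩ := Finset.mem_filter.mp hw
          obtain ⟨hy1, hy2⟩ := Finset.mem_filter.mp hy
          obtain ⟨kw1, kw2, -⟩ := hF w (Finset.mem_filter.mp hw1).1
          obtain ⟨ky1, ky2, -⟩ := hF y (Finset.mem_filter.mp hy1).1
          rw [hw2, hy2] at h1 h2
          have e0 : w 0 0 = y 0 0 := by
            apply mul_left_cancel₀ hb; linarith
          have e1 : w 1 1 = y 1 1 := by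
            apply mul_left_cancel₀ hb; linarith
          have e2 : w 0 1 = y 0 1 := hw2.trans hy2.symm
          have e3 : w 1 0 = y 1 0 := by
            apply mul_left_cancel₀ hb0
            rw [Matrix.det_fin_two] at kw1 ky1
            rw [hw2] at kw1
            rw [hy2, ← e0, ← e1] at ky1
            linarith
          exact M2_ext e0 e2 e3 e1
  have c2 : F2.card ≤ 1 * (2 * (2 * L) + 1) := by
    apply card_le_Icc F2 (fun w => w 1 1)
    · intro w hw
      exact (hF w (Finset.mem_filter.mp hw).1).2.2 1 1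
    · intro b _
      rw [Finset.card_le_one]
      intro w hw y hy
      obtain ⟨hw1, hw2⟩ := Finset.mem_filter.mp hw
      obtain ⟨hy1, hy2⟩ := Finset.mem_filter.mp hy
      obtain ⟨hw3, hw4, hw5⟩ := Finset.mem_filter.mp hw1
      obtain ⟨hy3, hy4, hy5⟩ := Finset.mem_filter.mp hy1
      have kw := (hF w hw3).2.1
      have ky := (hF y hy3).2.1
      unfold BB at kw ky
      rw [hw4, hw5] at kw
      rw [hy4, hy5] at ky
      have e1 : w 1 1 = y 1 1 := hw2.trans hy2.symm
      have e3 : w 1 0 = y 1 0 := by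
        apply mul_left_cancel₀ hb
        rw [e1] at kw
        linarith
      exact M2_ext (hw5.trans hy5.symm) (hw4.trans hy4.symm) e3 e1
  have c3 : F3.card ≤ 1 * (2 * (2 * L) + 1) := by
    apply card_le_Icc F3 (fun w => w 0 0)
    · intro w hw
      exact (hF w (Finset.mem_filter.mp hw).1).2.2 0 0
    · intro b _
      rw [Finset.card_le_one]
      intro w hw y hy
      obtain ⟨hw1, hw2⟩ := Finset.mem_filter.mp hw
      obtain ⟨hy1, hy2⟩ := Finset.mem_filter.mp hy
      obtain ⟨hw3, hw4, hw5⟩ := Finset.mem_filter.mp hw1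
      obtain ⟨hy3, hy4, hy5⟩ := Finset.mem_filter.mp hy1
      have kw := (hF w hw3).2.1
      have ky := (hF y hy3).2.1
      unfold BB at kw ky
      rw [hw4, hw5] at kw
      rw [hy4, hy5] at ky
      have e0 : w 0 0 = y 0 0 := hw2.trans hy2.symm
      have e3 : w 1 0 = y 1 0 := by
        apply mul_left_cancel₀ hb
        rw [e0] at kw
        linarith
      exact M2_ext e0 (hw4.trans hy4.symm) e3 (hw5.trans hy5.symm)
  have h4 : F.card ≤ F1.card + F2.card + F3.card :=
    (Finset.card_le_card hcover).trans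
      ((Finset.card_union_le _ _).trans (Nat.add_le_add_right (Finset.card_union_le _ _) _))
  nlinarith

theorem BB_transpose (g w : M2) : BB gᵀ wᵀ = BB g w := by
  unfold BB
  simp only [Matrix.transpose_apply]
  ring

/-- Number of singular directions orthogonal to a unimodular matrix. -/
theorem omega_count {τ Z : ℕ} (hτ1 : 1 ≤ τ)
    (hτ : ∀ n : ℕ, 0 < n → n ≤ Z → n.divisors.card ≤ τ)
    {L : ℕ} (hL : 1 ≤ L) (hZ : (2 * L) ^ 2 ≤ Z) (g : M2) (hg : g.det = 1)
    (F : Finset M2)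
    (hF : ∀ w ∈ F, w.det = 0 ∧ BB g w = 0 ∧ ∀ i j, |w i j| ≤ ((2 * L : ℕ) : ℤ)) :
    F.card ≤ 20 * L * τ := by
  classical
  by_cases hb : g 0 1 = 0
  swap
  · exact omega_count_b hτ1 hτ hL hZ g hg hb F hF
  by_cases hc : g 1 0 = 0
  swap
  · have hinj : Function.Injective (fun w : M2 => wᵀ) := fun x y h => by
      have := congrArg Matrix.transpose h
      simpa using this
    rw [← Finset.card_image_of_injective F hinj]
    apply omega_count_b hτ1 hτ hL hZ gᵀ (by rw [Matrix.det_transpose]; exact hg) hc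
    intro w hw
    obtain ⟨x, hx, rfl⟩ := Finset.mem_image.mp hw
    obtain ⟨h1, h2, h3⟩ := hF x hx
    exact ⟨by rw [Matrix.det_transpose]; exact h1, by rw [BB_transpose]; exact h2,
      fun i j => h3 j i⟩
  -- `g = ± 1`
  have hg' : g 0 0 * g 1 1 = 1 := by
    rw [Matrix.det_fin_two, hb, zero_mul, sub_zero] at hg; exact hg
  have hga : g 0 0 = g 1 1 := by
    rcases Int.eq_one_or_neg_one_of_mul_eq_one' hg' with ⟨h1, h2⟩ | ⟨h1, h2⟩ <;> rw [h1, h2]
  have hg0 : g 0 0 ≠ 0 := by
    intro h; rw [h, zero_mul] at hg'; exact zero_ne_one hg'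
  have hw4 : ∀ w ∈ F, w 1 1 = - w 0 0 := by
    intro w hw
    have h1 := (hF w hw).2.1
    unfold BB at h1
    rw [hb, hc, ← hga] at h1
    apply mul_left_cancel₀ hg0
    linarith
  have hw5 : ∀ w ∈ F, w 0 1 * w 1 0 = -(w 0 0 ^ 2) := by
    intro w hw
    have h1 := (hF w hw).1
    rw [Matrix.det_fin_two, hw4 w hw] at h1
    linarith
  set F1 := F.filter (fun w => w 0 0 ≠ 0) with hF1
  set F2 := F.filter (fun w => w 0 0 = 0 ∧ w 0 1 = 0) with hF2
  set F3 := F.filter (fun w => w 0 0 = 0 ∧ w 1 0 = 0) with hF3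
  have hcover : F ⊆ F1 ∪ F2 ∪ F3 := by
    intro w hw
    rw [Finset.mem_union, Finset.mem_union, hF1, hF2, hF3, Finset.mem_filter, Finset.mem_filter,
      Finset.mem_filter]
    by_cases h1 : w 0 0 = 0
    · have h2 := hw5 w hw
      rw [h1] at h2
      rcases mul_eq_zero.mp (h2.trans (by norm_num)) with h3 | h3
      · exact Or.inl (Or.inr ⟨hw, h1, h3⟩)
      · exact Or.inr ⟨hw, h1, h3⟩
    · exact Or.inl (Or.inl ⟨hw, h1⟩)
  have c1 : F1.card ≤ 2 * τ * (2 * (2 * L) + 1) := by
    apply card_le_Icc F1 (fun w => w 0 0)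
    · intro w hw
      exact (hF w (Finset.mem_filter.mp hw).1).2.2 0 0
    · intro b hbL
      rcases eq_or_ne b 0 with rfl | hb0
      · have : F1.filter (fun w => w 0 0 = 0) = ∅ := by
          apply Finset.filter_eq_empty_iff.mpr
          intro w hw
          exact (Finset.mem_filter.mp hw).2
        rw [this]; simp
      · apply card_le_pairs hτ (neg_ne_zero.mpr (pow_ne_zero 2 hb0))
          (by rw [Int.natAbs_neg]; exact (natAbs_sq_le hbL).trans hZ) _
          (fun w => w 0 1) (fun w => w 1 0)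
        · intro w hw
          obtain ⟨hw1, hw2⟩ := Finset.mem_filter.mp hw
          rw [← hw2]
          exact hw5 w (Finset.mem_filter.mp hw1).1
        · intro w hw y hy h1 h2
          obtain ⟨hw1, hw2⟩ := Finset.mem_filter.mp hw
          obtain ⟨hy1, hy2⟩ := Finset.mem_filter.mp hy
          refine M2_ext (hw2.trans hy2.symm) h1 h2 ?_
          rw [hw4 w (Finset.mem_filter.mp hw1).1, hw4 y (Finset.mem_filter.mp hy1).1, hw2, hy2]
  have c2 : F2.card ≤ 1 * (2 * (2 * L) + 1) := by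
    apply card_le_Icc F2 (fun w => w 1 0)
    · intro w hw
      exact (hF w (Finset.mem_filter.mp hw).1).2.2 1 0
    · intro b _
      rw [Finset.card_le_one]
      intro w hw y hy
      obtain ⟨hw1, hw2⟩ := Finset.mem_filter.mp hw
      obtain ⟨hy1, hy2⟩ := Finset.mem_filter.mp hy
      obtain ⟨hw3, hw4', hw5'⟩ := Finset.mem_filter.mp hw1
      obtain ⟨hy3, hy4', hy5'⟩ := Finset.mem_filter.mp hy1
      refine M2_ext (hw4'.trans hy4'.symm) (hw5'.trans hy5'.symm) (hw2.trans hy2.symm) ?_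
      rw [hw4 w hw3, hw4 y hy3, hw4', hy4']
  have c3 : F3.card ≤ 1 * (2 * (2 * L) + 1) := by
    apply card_le_Icc F3 (fun w => w 0 1)
    · intro w hw
      exact (hF w (Finset.mem_filter.mp hw).1).2.2 0 1
    · intro b _
      rw [Finset.card_le_one]
      intro w hw y hy
      obtain ⟨hw1, hw2⟩ := Finset.mem_filter.mp hw
      obtain ⟨hy1, hy2⟩ := Finset.mem_filter.mp hy
      obtain ⟨hw3, hw4', hw5'⟩ := Finset.mem_filter.mp hw1
      obtain ⟨hy3, hy4', hy5'⟩ := Finset.mem_filter.mp hy1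
      refine M2_ext (hw4'.trans hy4'.symm) (hw2.trans hy2.symm) (hw5'.trans hy5'.symm) ?_
      rw [hw4 w hw3, hw4 y hy3, hw4', hy4']
  have h4 : F.card ≤ F1.card + F2.card + F3.card :=
    (Finset.card_le_card hcover).trans
      ((Finset.card_union_le _ _).trans (Nat.add_le_add_right (Finset.card_union_le _ _) _))
  nlinarith

theorem g_count_b {τ Z : ℕ} (hτ1 : 1 ≤ τ)
    (hτ : ∀ n : ℕ, 0 < n → n ≤ Z → n.divisors.card ≤ τ)
    {L : ℕ} (hL : 1 ≤ L) (hZ : (2 * L) ^ 2 ≤ Z) (w : M2) (hw : w.det = 0) (hb : w 0 1 ≠ 0)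
    (hwL : |w 0 1| ≤ ((2 * L : ℕ) : ℤ))
    (F : Finset M2)
    (hF : ∀ g ∈ F, g.det = 1 ∧ BB g w = 0 ∧ ∀ i j, |g i j| ≤ (L : ℤ)) :
    F.card ≤ 6 * L * τ := by
  classical
  have c1 : F.card ≤ 2 * τ * (2 * L + 1) := by
    apply card_le_Icc F (fun g => g 0 1)
    · intro g hg
      exact (hF g hg).2.2 0 1
    · intro b hbL
      apply card_le_pairs hτ (pow_ne_zero 2 hb) ((natAbs_sq_le hwL).trans hZ) _
          (fun g => g 0 0 * w 0 1 - g 0 1 * w 0 0) (fun g => g 1 1 * w 0 1 - g 0 1 * w 1 1)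
      · intro g hg
        obtain ⟨hg1, hg2⟩ := Finset.mem_filter.mp hg
        obtain ⟨h1, h2, -⟩ := hF g hg1
        exact key_id h1 hw h2
      · intro g hg y hy h1 h2
        obtain ⟨hg1, hg2⟩ := Finset.mem_filter.mp hg
        obtain ⟨hy1, hy2⟩ := Finset.mem_filter.mp hy
        obtain ⟨kg1, kg2, -⟩ := hF g hg1
        obtain ⟨ky1, ky2, -⟩ := hF y hy1
        rw [hg2, hy2] at h1 h2
        have e0 : g 0 0 = y 0 0 := by
          apply mul_right_cancel₀ hb; linarith
        have e1 : g 1 1 = y 1 1 := by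
          apply mul_right_cancel₀ hb; linarith
        have e2 : g 0 1 = y 0 1 := hg2.trans hy2.symm
        have e3 : g 1 0 = y 1 0 := by
          apply mul_right_cancel₀ hb
          unfold BB at kg2 ky2
          rw [e0, e1, e2] at kg2
          linarith
        exact M2_ext e0 e2 e3 e1
  nlinarith

/-- Number of unimodular matrices orthogonal to a singular direction. -/
theorem g_count {τ Z : ℕ} (hτ1 : 1 ≤ τ)
    (hτ : ∀ n : ℕ, 0 < n → n ≤ Z → n.divisors.card ≤ τ)
    {L : ℕ} (hL : 1 ≤ L) (hZ : (2 * L) ^ 2 ≤ Z) (w : M2) (hw : w.det = 0) (hw0 : w ≠ 0)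
    (hwL : ∀ i j, |w i j| ≤ ((2 * L : ℕ) : ℤ))
    (F : Finset M2)
    (hF : ∀ g ∈ F, g.det = 1 ∧ BB g w = 0 ∧ ∀ i j, |g i j| ≤ (L : ℤ)) :
    F.card ≤ 6 * L * τ := by
  classical
  by_cases hb : w 0 1 = 0
  swap
  · exact g_count_b hτ1 hτ hL hZ w hw hb (hwL _ _) F hF
  by_cases hc : w 1 0 = 0
  swap
  · have hinj : Function.Injective (fun w : M2 => wᵀ) := fun x y h => by
      have := congrArg Matrix.transpose h
      simpa using this
    rw [← Finset.card_image_of_injective F hinj]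
    apply g_count_b hτ1 hτ hL hZ wᵀ (by rw [Matrix.det_transpose]; exact hw) hc (hwL _ _)
    intro g hg
    obtain ⟨x, hx, rfl⟩ := Finset.mem_image.mp hg
    obtain ⟨h1, h2, h3⟩ := hF x hx
    exact ⟨by rw [Matrix.det_transpose]; exact h1, by rw [BB_transpose]; exact h2,
      fun i j => h3 j i⟩
  have hw' : w 0 0 * w 1 1 = 0 := by
    rw [Matrix.det_fin_two, hb, zero_mul, sub_zero] at hw; exact hw
  have hτ' : 2 * (2 * L + 1) ≤ 6 * L * τ := by nlinarith
  by_cases h00 : w 0 0 = 0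
  · -- then `w 1 1 ≠ 0`, `g 0 0 = 0`
    have h11 : w 1 1 ≠ 0 := by
      intro h
      exact hw0 (M2_ext h00 hb hc h)
    have hg0 : ∀ g ∈ F, g 0 0 = 0 ∧ g 0 1 * g 1 0 = -1 := by
      intro g hg
      obtain ⟨h1, h2, -⟩ := hF g hg
      unfold BB at h2
      rw [h00, hb, hc, mul_zero, mul_zero, mul_zero, add_zero, sub_zero, sub_zero] at h2
      have h3 := (mul_eq_zero.mp h2).resolve_right h11
      rw [Matrix.det_fin_two, h3] at h1
      exact ⟨h3, by linarith⟩
    refine le_trans ?_ hτ'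
    apply card_le_Icc F (fun g => g 1 1)
    · intro g hg
      exact (hF g hg).2.2 1 1
    · intro b _
      have hsub : F.filter (fun g => g 1 1 = b) ⊆ {!![0, 1; -1, b], !![0, -1; 1, b]} := by
        intro g hg
        obtain ⟨hg1, hg2⟩ := Finset.mem_filter.mp hg
        obtain ⟨h1, h2⟩ := hg0 g hg1
        rw [Finset.mem_insert, Finset.mem_singleton]
        have h3 : g 0 1 * (-g 1 0) = 1 := by linarith
        rcases Int.eq_one_or_neg_one_of_mul_eq_one' h3 with ⟨h4, h5⟩ | ⟨h4, h5⟩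
        · left
          refine M2_ext ?_ ?_ ?_ ?_ <;> simp <;> linarith
        · right
          refine M2_ext ?_ ?_ ?_ ?_ <;> simp <;> linarith
      exact (Finset.card_le_card hsub).trans Finset.card_le_two
  · have h11 : w 1 1 = 0 := (mul_eq_zero.mp hw').resolve_left h00
    have hg0 : ∀ g ∈ F, g 1 1 = 0 ∧ g 0 1 * g 1 0 = -1 := by
      intro g hg
      obtain ⟨h1, h2, -⟩ := hF g hg
      unfold BB at h2
      rw [h11, hb, hc, mul_zero, mul_zero, mul_zero, zero_add, sub_zero, sub_zero] at h2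
      have h3 := (mul_eq_zero.mp h2).resolve_right h00
      rw [Matrix.det_fin_two, h3] at h1
      exact ⟨h3, by linarith⟩
    refine le_trans ?_ hτ'
    apply card_le_Icc F (fun g => g 0 0)
    · intro g hg
      exact (hF g hg).2.2 0 0
    · intro b _
      have hsub : F.filter (fun g => g 0 0 = b) ⊆ {!![b, 1; -1, 0], !![b, -1; 1, 0]} := by
        intro g hg
        obtain ⟨hg1, hg2⟩ := Finset.mem_filter.mp hg
        obtain ⟨h1, h2⟩ := hg0 g hg1
        rw [Finset.mem_insert, Finset.mem_singleton]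
        have h3 : g 0 1 * (-g 1 0) = 1 := by linarith
        rcases Int.eq_one_or_neg_one_of_mul_eq_one' h3 with ⟨h4, h5⟩ | ⟨h4, h5⟩
        · left
          refine M2_ext ?_ ?_ ?_ ?_ <;> simp <;> linarith
        · right
          refine M2_ext ?_ ?_ ?_ ?_ <;> simp <;> linarith
      exact (Finset.card_le_card hsub).trans Finset.card_le_two

/-- Number of unimodular matrices in a box. -/
theorem ball_count {τ Z : ℕ} (hτ1 : 1 ≤ τ)
    (hτ : ∀ n : ℕ, 0 < n → n ≤ Z → n.divisors.card ≤ τ)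
    {L : ℕ} (hL : 1 ≤ L) (hZ : (2 * L) ^ 2 ≤ Z)
    (F : Finset M2) (hF : ∀ g ∈ F, g.det = 1 ∧ ∀ i j, |g i j| ≤ (L : ℤ)) :
    F.card ≤ 30 * L ^ 2 * τ := by
  classical
  have hT : ((Finset.Icc (-(L : ℤ)) L)).card = 2 * L + 1 := by rw [Int.card_Icc]; omega
  set F1 := F.filter (fun g => g 0 0 * g 1 1 ≠ 1) with hF1
  set F2 := F.filter (fun g => ¬ g 0 0 * g 1 1 ≠ 1) with hF2
  have hsplit : F1.card + F2.card = F.card := Finset.card_filter_add_card_filter_not (s := F) _
  have c1 : F1.card ≤ 2 * τ * ((2 * L + 1) * (2 * L + 1)) := by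
    rw [← hT, ← Finset.card_product]
    apply card_le_fiber F1 (fun g => (g 0 0, g 1 1))
    · intro g hg
      have h := (hF g (Finset.mem_filter.mp hg).1).2
      rw [Finset.mem_product, Finset.mem_Icc, Finset.mem_Icc]
      exact ⟨abs_le.mp (h 0 0), abs_le.mp (h 1 1)⟩
    · rintro ⟨a, d⟩ had
      rw [Finset.mem_product, Finset.mem_Icc, Finset.mem_Icc] at had
      by_cases h1 : a * d = 1
      · have : F1.filter (fun g => (g 0 0, g 1 1) = (a, d)) = ∅ := by
          apply Finset.filter_eq_empty_iff.mpr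
          intro g hg h
          have h2 := (Finset.mem_filter.mp hg).2
          have h3 := congrArg Prod.fst h
          have h4 := congrArg Prod.snd h
          simp only at h3 h4
          rw [h3, h4] at h2
          exact h2 h1
        rw [this]; simp
      · apply card_le_pairs hτ (n := a * d - 1) (sub_ne_zero.mpr h1) _ _
          (fun g => g 0 1) (fun g => g 1 0)
        · intro g hg
          obtain ⟨hg1, hg2⟩ := Finset.mem_filter.mp hg
          have h2 := (hF g (Finset.mem_filter.mp hg1).1).1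
          have h3 := congrArg Prod.fst hg2
          have h4 := congrArg Prod.snd hg2
          simp only at h3 h4
          rw [Matrix.det_fin_two, h3, h4] at h2
          linarith
        · intro g hg y hy h5 h6
          obtain ⟨hg1, hg2⟩ := Finset.mem_filter.mp hg
          obtain ⟨hy1, hy2⟩ := Finset.mem_filter.mp hy
          have h7 := hg2.trans hy2.symm
          exact M2_ext (congrArg Prod.fst h7) h5 h6 (congrArg Prod.snd h7)
        · refine le_trans ?_ hZ
          have ha := abs_le.mpr had.1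
          have hd := abs_le.mpr had.2
          have h5 : |a * d - 1| ≤ |a| * |d| + 1 := by
            calc |a * d - 1| ≤ |a * d| + |1| := abs_sub _ _
              _ = _ := by rw [abs_mul, abs_one]
          have h6 : |a| * |d| ≤ (L : ℤ) * L := mul_le_mul ha hd (abs_nonneg _) (by positivity)
          have h7 : ((a * d - 1).natAbs : ℤ) ≤ (((2 * L) ^ 2 : ℕ) : ℤ) := by
            rw [Int.natCast_natAbs]
            push_cast
            have : (1 : ℤ) ≤ L := by exact_mod_cast hL
            nlinarith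
          exact_mod_cast h7
  have c2 : F2.card ≤ 2 * (2 * (2 * L + 1)) := by
    have hF2' : ∀ g ∈ F2, g 0 0 = g 1 1 ∧ (g 0 0 = 1 ∨ g 0 0 = -1) ∧ (g 0 1 = 0 ∨ g 1 0 = 0) := by
      intro g hg
      obtain ⟨hg1, hg2⟩ := Finset.mem_filter.mp hg
      rw [not_not] at hg2
      have h2 := (hF g hg1).1
      rw [Matrix.det_fin_two, hg2] at h2
      have h3 : g 0 1 * g 1 0 = 0 := by linarith
      refine ⟨?_, ?_, mul_eq_zero.mp h3⟩
      · rcases Int.eq_one_or_neg_one_of_mul_eq_one' hg2 with ⟨h4, h5⟩ | ⟨h4, h5⟩ <;> rw [h4, h5]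
      · rcases Int.eq_one_or_neg_one_of_mul_eq_one' hg2 with ⟨h4, h5⟩ | ⟨h4, h5⟩
        · exact Or.inl h4
        · exact Or.inr h4
    set F3 := F2.filter (fun g => g 0 1 = 0) with hF3
    set F4 := F2.filter (fun g => g 1 0 = 0) with hF4
    have hcover : F2 ⊆ F3 ∪ F4 := by
      intro g hg
      rw [Finset.mem_union]
      rcases (hF2' g hg).2.2 with h | h
      · exact Or.inl (Finset.mem_filter.mpr ⟨hg, h⟩)
      · exact Or.inr (Finset.mem_filter.mpr ⟨hg, h⟩)
    have c3 : F3.card ≤ 2 * (2 * L + 1) := by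
      apply card_le_Icc F3 (fun g => g 1 0)
      · intro g hg
        exact (hF g (Finset.mem_filter.mp (Finset.mem_filter.mp hg).1).1).2 1 0
      · intro b _
        have hsub : F3.filter (fun g => g 1 0 = b) ⊆ {!![1, 0; b, 1], !![-1, 0; b, -1]} := by
          intro g hg
          obtain ⟨hg1, hg2⟩ := Finset.mem_filter.mp hg
          obtain ⟨hg3, hg4⟩ := Finset.mem_filter.mp hg1
          obtain ⟨h1, h2, -⟩ := hF2' g hg3
          rw [Finset.mem_insert, Finset.mem_singleton]
          rcases h2 with h2 | h2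
          · left
            refine M2_ext ?_ ?_ ?_ ?_ <;> simp <;> linarith
          · right
            refine M2_ext ?_ ?_ ?_ ?_ <;> simp <;> linarith
        exact (Finset.card_le_card hsub).trans Finset.card_le_two
    have c4 : F4.card ≤ 2 * (2 * L + 1) := by
      apply card_le_Icc F4 (fun g => g 0 1)
      · intro g hg
        exact (hF g (Finset.mem_filter.mp (Finset.mem_filter.mp hg).1).1).2 0 1
      · intro b _
        have hsub : F4.filter (fun g => g 0 1 = b) ⊆ {!![1, b; 0, 1], !![-1, b; 0, -1]} := by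
          intro g hg
          obtain ⟨hg1, hg2⟩ := Finset.mem_filter.mp hg
          obtain ⟨hg3, hg4⟩ := Finset.mem_filter.mp hg1
          obtain ⟨h1, h2, -⟩ := hF2' g hg3
          rw [Finset.mem_insert, Finset.mem_singleton]
          rcases h2 with h2 | h2
          · left
            refine M2_ext ?_ ?_ ?_ ?_ <;> simp <;> linarith
          · right
            refine M2_ext ?_ ?_ ?_ ?_ <;> simp <;> linarith
        exact (Finset.card_le_card hsub).trans Finset.card_le_two
    have := (Finset.card_le_card hcover).trans (Finset.card_union_le _ _)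
    omega
  have e1 : 2 * L + 1 ≤ 3 * L := by omega
  have e2 : (2 * L + 1) * (2 * L + 1) ≤ (3 * L) * (3 * L) := Nat.mul_le_mul e1 e1
  have e3 : L ≤ L ^ 2 * τ := by
    calc L = L * 1 := (mul_one L).symm
      _ ≤ L * (L * τ) := Nat.mul_le_mul_left _ (Nat.mul_pos hL hτ1)
      _ = L ^ 2 * τ := by ring
  calc F.card = F1.card + F2.card := hsplit.symm
    _ ≤ 2 * τ * ((3 * L) * (3 * L)) + 2 * (2 * (3 * L)) := by
        refine add_le_add (c1.trans (Nat.mul_le_mul_left _ e2)) (c2.trans ?_)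
        omega
    _ = 18 * (L ^ 2 * τ) + 12 * L := by ring
    _ ≤ 30 * (L ^ 2 * τ) := by omega
    _ = _ := by ring

end Pool.Agent.Helper89.SLE
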