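import Pool.Agent.Helper89.SLE.Degen

/-!
# The additive energy of a ball of unimodular integer matrices
-/

set_option autoImplicit false

namespace Pool.Agent.Helper89.SLE

open Finset Matrix

/-- Unimodular matrices in a box. -/
def InB (L : ℕ) (g : M2) : Prop := g.det = 1 ∧ ∀ i j, |g i j| ≤ (L : ℤ)

/-- Energy quadruples in a box. -/
structure Quad (L : ℕ) (q : M2 × M2 × M2 × M2) : Prop where
  b1 : InB L q.1
  b2 : InB L q.2.1
  b3 : InB L q.2.2.1
  b4 : InB L q.2.2.2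
  add : q.1 + q.2.1 = q.2.2.1 + q.2.2.2

theorem BB_sub_right {g h : M2} (hg : g.det = 1) (hh : h.det = 1) (h0 : (h - g).det = 0) :
    BB g (h - g) = 0 := by
  rw [Matrix.det_fin_two] at hg hh h0
  unfold BB
  simp only [Matrix.sub_apply] at h0 ⊢
  linear_combination hh - hg - h0

theorem abs_sub_le_two {g h : M2} {L : ℕ} (hg : ∀ i j, |g i j| ≤ (L : ℤ))
    (hh : ∀ i j, |h i j| ≤ (L : ℤ)) (i j : Fin 2) : |(h - g) i j| ≤ ((2 * L : ℕ) : ℤ) := by
  rw [Matrix.sub_apply]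
  have h1 := abs_sub (h i j) (g i j)
  have h2 := hg i j
  have h3 := hh i j
  push_cast
  linarith

theorem abs_add_le_two {g h : M2} {L : ℕ} (hg : ∀ i j, |g i j| ≤ (L : ℤ))
    (hh : ∀ i j, |h i j| ≤ (L : ℤ)) (i j : Fin 2) : |(h + g) i j| ≤ ((2 * L : ℕ) : ℤ) := by
  rw [Matrix.add_apply]
  have h1 := abs_add_le (h i j) (g i j)
  have h2 := hg i j
  have h3 := hh i j
  push_cast
  linarith

/-- Degenerate quadruples. -/
theorem degen_count {τ Z : ℕ} (hτ1 : 1 ≤ τ)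
    (hτ : ∀ n : ℕ, 0 < n → n ≤ Z → n.divisors.card ≤ τ)
    {L : ℕ} (hL : 1 ≤ L) (hZ : (2 * L) ^ 2 ≤ Z)
    (F : Finset (M2 × M2 × M2 × M2)) (hF : ∀ q ∈ F, Quad L q)
    (hdeg : ∀ q ∈ F, (q.2.2.1 - q.1).det = 0) : F.card ≤ 4500 * L ^ 4 * τ ^ 3 := by
  classical
  have hinj : Set.InjOn (fun q : M2 × M2 × M2 × M2 => (q.1, q.2.2.1 - q.1, q.2.2.2))
      (F : Set (M2 × M2 × M2 × M2)) := by
    intro q hq r hr h
    have h1 : q.1 = r.1 := congrArg (fun v => v.1) h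
    have h2 : q.2.2.1 - q.1 = r.2.2.1 - r.1 := congrArg (fun v => v.2.1) h
    have h3 : q.2.2.2 = r.2.2.2 := congrArg (fun v => v.2.2) h
    have h4 : q.2.2.1 = r.2.2.1 := by
      rw [h1] at h2
      exact sub_left_injective h2
    have h5 : q.2.1 = r.2.1 := by
      have a1 := (hF q hq).add
      have a2 := (hF r hr).add
      rw [h1, h4, h3, ← a2] at a1
      exact add_left_cancel a1
    exact Prod.ext h1 (Prod.ext h5 (Prod.ext h4 h3))
  set G := F.image (fun q : M2 × M2 × M2 × M2 => (q.1, q.2.2.1 - q.1, q.2.2.2)) with hG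
  have hGc : G.card = F.card := Finset.card_image_of_injOn hinj
  have hGm : ∀ w ∈ G, InB L w.1 ∧ InB L w.2.2 ∧ w.2.1.det = 0 ∧ BB w.1 w.2.1 = 0 ∧
      BB w.2.2 w.2.1 = 0 ∧ ∀ i j, |w.2.1 i j| ≤ ((2 * L : ℕ) : ℤ) := by
    intro w hw
    obtain ⟨q, hq, rfl⟩ := Finset.mem_image.mp hw
    have Q := hF q hq
    have D := hdeg q hq
    refine ⟨Q.b1, Q.b4, D, BB_sub_right Q.b1.1 Q.b3.1 D, ?_, abs_sub_le_two Q.b1.2 Q.b3.2⟩
    have e : q.2.2.1 - q.1 = q.2.1 - q.2.2.2 := by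
      rw [sub_eq_sub_iff_add_eq_add, ← Q.add, add_comm]
    simp only
    rw [e]
    rw [e] at D
    exact BB_sub_right Q.b4.1 Q.b2.1 D
  set G0 := G.filter (fun w => w.2.1 = 0) with hG0
  set G1 := G.filter (fun w => ¬ w.2.1 = 0) with hG1
  have hsplit : G0.card + G1.card = G.card := Finset.card_filter_add_card_filter_not (s := G) _
  have c0 : G0.card ≤ (30 * L ^ 2 * τ) * (30 * L ^ 2 * τ) := by
    refine (card_le_fiber G0 (fun w => w.1) (G0.image (fun w => w.1))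
      (fun w hw => Finset.mem_image_of_mem _ hw) (30 * L ^ 2 * τ) ?_).trans
      (Nat.mul_le_mul_left _ ?_)
    · intro g _
      have hi : Set.InjOn (fun w : M2 × M2 × M2 => w.2.2)
          ((G0.filter (fun w => w.1 = g) : Finset (M2 × M2 × M2)) : Set (M2 × M2 × M2)) := by
        intro v hv w hw h
        obtain ⟨hv1, hv2⟩ := Finset.mem_filter.mp hv
        obtain ⟨hw1, hw2⟩ := Finset.mem_filter.mp hw
        exact Prod.ext (hv2.trans hw2.symm) (Prod.ext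
          ((Finset.mem_filter.mp hv1).2.trans (Finset.mem_filter.mp hw1).2.symm) h)
      rw [← Finset.card_image_of_injOn hi]
      apply ball_count hτ1 hτ hL hZ
      intro h hh
      obtain ⟨w, hw, rfl⟩ := Finset.mem_image.mp hh
      obtain ⟨hw1, hw2⟩ := Finset.mem_filter.mp hw
      exact (hGm w (Finset.mem_filter.mp hw1).1).2.1
    · apply ball_count hτ1 hτ hL hZ
      intro h hh
      obtain ⟨w, hw, rfl⟩ := Finset.mem_image.mp hh
      exact (hGm w (Finset.mem_filter.mp hw).1).1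
  have c1 : G1.card ≤ (6 * L * τ * (20 * L * τ)) * (30 * L ^ 2 * τ) := by
    refine (card_le_fiber G1 (fun w => w.1) (G1.image (fun w => w.1))
      (fun w hw => Finset.mem_image_of_mem _ hw) (6 * L * τ * (20 * L * τ)) ?_).trans
      (Nat.mul_le_mul_left _ ?_)
    · intro g hg
      obtain ⟨v0, hv0, hv0g⟩ := Finset.mem_image.mp hg
      have hgB : InB L g := by
        rw [← hv0g]; exact (hGm v0 (Finset.mem_filter.mp hv0).1).1
      set K := G1.filter (fun w => w.1 = g) with hK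
      refine (card_le_fiber K (fun w => w.2.1) (K.image (fun w => w.2.1))
        (fun w hw => Finset.mem_image_of_mem _ hw) (6 * L * τ) ?_).trans
        (Nat.mul_le_mul_left _ ?_)
      · intro ω hω
        obtain ⟨v1, hv1, hv1ω⟩ := Finset.mem_image.mp hω
        obtain ⟨hv2, hv3⟩ := Finset.mem_filter.mp hv1
        obtain ⟨hv4, hv5⟩ := Finset.mem_filter.mp hv2
        obtain ⟨m1, m2, m3, m4, m5, m6⟩ := hGm v1 hv4
        have hi : Set.InjOn (fun w : M2 × M2 × M2 => w.2.2)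
            ((K.filter (fun w => w.2.1 = ω) : Finset (M2 × M2 × M2)) : Set (M2 × M2 × M2)) := by
          intro v hv w hw h
          obtain ⟨hv1, hv2⟩ := Finset.mem_filter.mp hv
          obtain ⟨hw1, hw2⟩ := Finset.mem_filter.mp hw
          exact Prod.ext ((Finset.mem_filter.mp hv1).2.trans (Finset.mem_filter.mp hw1).2.symm)
            (Prod.ext (hv2.trans hw2.symm) h)
        rw [← Finset.card_image_of_injOn hi]
        rw [hv1ω] at m3 m6 hv5
        apply g_count hτ1 hτ hL hZ ω m3 hv5 m6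
        intro h hh
        obtain ⟨w, hw, rfl⟩ := Finset.mem_image.mp hh
        obtain ⟨hw1, hw2⟩ := Finset.mem_filter.mp hw
        obtain ⟨hw3, hw4⟩ := Finset.mem_filter.mp hw1
        obtain ⟨n1, n2, n3, n4, n5, n6⟩ := hGm w (Finset.mem_filter.mp hw3).1
        refine ⟨n2.1, ?_, n2.2⟩
        rw [← hw2]; exact n5
      · apply omega_count hτ1 hτ hL hZ g hgB.1
        intro ω hω
        obtain ⟨v1, hv1, hv1ω⟩ := Finset.mem_image.mp hω
        obtain ⟨hv2, hv3⟩ := Finset.mem_filter.mp hv1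
        obtain ⟨m1, m2, m3, m4, m5, m6⟩ := hGm v1 (Finset.mem_filter.mp hv2).1
        rw [← hv1ω, ← hv3]
        exact ⟨m3, m4, m6⟩
    · apply ball_count hτ1 hτ hL hZ
      intro h hh
      obtain ⟨w, hw, rfl⟩ := Finset.mem_image.mp hh
      exact (hGm w (Finset.mem_filter.mp hw).1).1
  calc F.card = G0.card + G1.card := by rw [hsplit, hGc]
    _ ≤ (30 * L ^ 2 * τ) * (30 * L ^ 2 * τ) + (6 * L * τ * (20 * L * τ)) * (30 * L ^ 2 * τ) :=
        add_le_add c0 c1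
    _ = 900 * L ^ 4 * τ ^ 2 * 1 + 3600 * L ^ 4 * τ ^ 3 := by ring
    _ ≤ 900 * L ^ 4 * τ ^ 2 * τ + 3600 * L ^ 4 * τ ^ 3 :=
        Nat.add_le_add_right (Nat.mul_le_mul_left _ hτ1) _
    _ = _ := by ring

theorem Quad.swap {L : ℕ} {q : M2 × M2 × M2 × M2} (h : Quad L q) :
    Quad L (q.1, q.2.1, q.2.2.2, q.2.2.1) :=
  ⟨h.b1, h.b2, h.b4, h.b3, by simp only; rw [h.add, add_comm]⟩

theorem InB.neg {L : ℕ} {g : M2} (h : InB L g) : InB L (-g) := by
  refine ⟨?_, fun i j => ?_⟩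
  · rw [Matrix.det_fin_two]
    have := h.1
    rw [Matrix.det_fin_two] at this
    simp only [Matrix.neg_apply]
    linarith
  · rw [Matrix.neg_apply, abs_neg]; exact h.2 i j

theorem Quad.turn {L : ℕ} {q : M2 × M2 × M2 × M2} (h : Quad L q) :
    Quad L (q.1, -q.2.2.1, -q.2.1, q.2.2.2) := by
  refine ⟨h.b1, h.b3.neg, h.b2.neg, h.b4, ?_⟩
  simp only
  have := h.add
  rw [← sub_eq_add_neg, neg_add_eq_sub, sub_eq_sub_iff_add_eq_add, this, add_comm]

theorem Quad.otri {L : ℕ} {q : M2 × M2 × M2 × M2} (h : Quad L q)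
    (h1 : (q.2.2.1 - q.1).det ≠ 0) (h2 : (q.2.2.2 - q.1).det ≠ 0) (h3 : (q.1 + q.2.1).det ≠ 0) :
    OTri ((2 * L : ℕ) : ℤ) (q.1 + q.2.1, q.2.2.1 - q.1, q.2.2.2 - q.1) := by
  have d1 := h.b1.1
  have d2 := h.b2.1
  have d3 := h.b3.1
  have d4 := h.b4.1
  have e : ∀ i j, q.2.1 i j = q.2.2.1 i j + q.2.2.2 i j - q.1 i j := by
    intro i j
    have := congrFun (congrFun h.add i) j
    rw [Matrix.add_apply, Matrix.add_apply] at this
    linarith
  rw [Matrix.det_fin_two] at d1 d2 d3 d4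
  rw [e, e, e, e] at d2
  refine ⟨?_, ?_, ?_, h3, h1, h2, ?_, ?_, abs_sub_le_two h.b1.2 h.b3.2,
    abs_sub_le_two h.b1.2 h.b4.2⟩
  · unfold BB
    simp only [Matrix.add_apply, Matrix.sub_apply, e]
    linear_combination d2 + d3 - d4 - d1
  · unfold BB
    simp only [Matrix.add_apply, Matrix.sub_apply, e]
    linear_combination d2 + d4 - d3 - d1
  · unfold BB
    simp only [Matrix.sub_apply]
    linear_combination d2 + d1 - d3 - d4
  · simp only [Matrix.det_fin_two, Matrix.add_apply, Matrix.sub_apply, e]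
    linear_combination d1 + d2 + d3 + d4
  · intro i j
    exact abs_add_le_two h.b2.2 h.b1.2 i j

/-- The energy bound with an abstract divisor bound. -/
theorem energy_bound_nat {τ Z : ℕ} (hτ1 : 1 ≤ τ)
    (hτ : ∀ n : ℕ, 0 < n → n ≤ Z → n.divisors.card ≤ τ)
    {L : ℕ} (hL : 1 ≤ L) (hZ : 768 * (2 * L) ^ 12 ≤ Z)
    (F : Finset (M2 × M2 × M2 × M2)) (hF : ∀ q ∈ F, Quad L q) :
    (F.card : ℝ) ≤ 13500 * (L : ℝ) ^ 4 * τ ^ 3 +
      44236800 * τ ^ 6 * (2 * (L : ℝ)) ^ 4 * HH (4 * (2 * (2 * L) ^ 2) ^ 2) ^ 2 := by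
  classical
  have hZ2 : (2 * L) ^ 2 ≤ Z := by
    refine le_trans ?_ hZ
    have h1 : (2 * L) ^ 2 ≤ (2 * L) ^ 12 := Nat.pow_le_pow_right (by omega) (by norm_num)
    omega
  set A1 := F.filter (fun q => (q.2.2.1 - q.1).det = 0) with hA1
  set A2 := F.filter (fun q => (q.2.2.2 - q.1).det = 0) with hA2
  set A3 := F.filter (fun q => (q.1 + q.2.1).det = 0) with hA3
  set A4 := F.filter (fun q => (q.2.2.1 - q.1).det ≠ 0 ∧ (q.2.2.2 - q.1).det ≠ 0 ∧
    (q.1 + q.2.1).det ≠ 0) with hA4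
  have hcover : F ⊆ A1 ∪ A2 ∪ A3 ∪ A4 := by
    intro q hq
    rw [Finset.mem_union, Finset.mem_union, Finset.mem_union]
    by_cases h1 : (q.2.2.1 - q.1).det = 0
    · exact Or.inl (Or.inl (Or.inl (Finset.mem_filter.mpr ⟨hq, h1⟩)))
    by_cases h2 : (q.2.2.2 - q.1).det = 0
    · exact Or.inl (Or.inl (Or.inr (Finset.mem_filter.mpr ⟨hq, h2⟩)))
    by_cases h3 : (q.1 + q.2.1).det = 0
    · exact Or.inl (Or.inr (Finset.mem_filter.mpr ⟨hq, h3⟩))
    · exact Or.inr (Finset.mem_filter.mpr ⟨hq, h1, h2, h3⟩)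
  have hcard : F.card ≤ A1.card + A2.card + A3.card + A4.card := by
    have i1 := Finset.card_le_card hcover
    have i2 := Finset.card_union_le (A1 ∪ A2 ∪ A3) A4
    have i3 := Finset.card_union_le (A1 ∪ A2) A3
    have i4 := Finset.card_union_le A1 A2
    omega
  have c1 : A1.card ≤ 4500 * L ^ 4 * τ ^ 3 :=
    degen_count hτ1 hτ hL hZ2 A1 (fun q hq => hF q (Finset.mem_filter.mp hq).1)
      (fun q hq => (Finset.mem_filter.mp hq).2)
  have c2 : A2.card ≤ 4500 * L ^ 4 * τ ^ 3 := by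
    have hinj : Function.Injective
        (fun q : M2 × M2 × M2 × M2 => (q.1, q.2.1, q.2.2.2, q.2.2.1)) := by
      intro q r h
      have h1 : q.1 = r.1 := congrArg (fun v => v.1) h
      have h2 : q.2.1 = r.2.1 := congrArg (fun v => v.2.1) h
      have h3 : q.2.2.2 = r.2.2.2 := congrArg (fun v => v.2.2.1) h
      have h4 : q.2.2.1 = r.2.2.1 := congrArg (fun v => v.2.2.2) h
      exact Prod.ext h1 (Prod.ext h2 (Prod.ext h4 h3))
    rw [← Finset.card_image_of_injective A2 hinj]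
    apply degen_count hτ1 hτ hL hZ2
    · intro r hr
      obtain ⟨q, hq, rfl⟩ := Finset.mem_image.mp hr
      exact (hF q (Finset.mem_filter.mp hq).1).swap
    · intro r hr
      obtain ⟨q, hq, rfl⟩ := Finset.mem_image.mp hr
      exact (Finset.mem_filter.mp hq).2
  have c3 : A3.card ≤ 4500 * L ^ 4 * τ ^ 3 := by
    have hinj : Function.Injective
        (fun q : M2 × M2 × M2 × M2 => (q.1, -q.2.2.1, -q.2.1, q.2.2.2)) := by
      intro q r h
      have h1 : q.1 = r.1 := congrArg (fun v => v.1) h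
      have h2 : -q.2.2.1 = -r.2.2.1 := congrArg (fun v => v.2.1) h
      have h3 : -q.2.1 = -r.2.1 := congrArg (fun v => v.2.2.1) h
      have h4 : q.2.2.2 = r.2.2.2 := congrArg (fun v => v.2.2.2) h
      exact Prod.ext h1 (Prod.ext (neg_injective h3) (Prod.ext (neg_injective h2) h4))
    rw [← Finset.card_image_of_injective A3 hinj]
    apply degen_count hτ1 hτ hL hZ2
    · intro r hr
      obtain ⟨q, hq, rfl⟩ := Finset.mem_image.mp hr
      exact (hF q (Finset.mem_filter.mp hq).1).turn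
    · intro r hr
      obtain ⟨q, hq, rfl⟩ := Finset.mem_image.mp hr
      have h0 := (Finset.mem_filter.mp hq).2
      simp only
      rw [Matrix.det_fin_two] at h0 ⊢
      simp only [Matrix.add_apply, Matrix.sub_apply, Matrix.neg_apply] at h0 ⊢
      linarith
  have c4 : (A4.card : ℝ) ≤
      44236800 * τ ^ 6 * (2 * (L : ℝ)) ^ 4 * HH (4 * (2 * (2 * L) ^ 2) ^ 2) ^ 2 := by
    have hinj : Set.InjOn (fun q : M2 × M2 × M2 × M2 => (q.1 + q.2.1, q.2.2.1 - q.1, q.2.2.2 - q.1))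
        (A4 : Set (M2 × M2 × M2 × M2)) := by
      intro q hq r hr h
      have Q := hF q (Finset.mem_filter.mp hq).1
      have R := hF r (Finset.mem_filter.mp hr).1
      have h1 : q.1 + q.2.1 = r.1 + r.2.1 := congrArg (fun v => v.1) h
      have h2 : q.2.2.1 - q.1 = r.2.2.1 - r.1 := congrArg (fun v => v.2.1) h
      have h3 : q.2.2.2 - q.1 = r.2.2.2 - r.1 := congrArg (fun v => v.2.2) h
      have h4 : q.1 = r.1 := by
        ext i j
        have e1 := congrFun (congrFun h1 i) j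
        have e2 := congrFun (congrFun h2 i) j
        have e3 := congrFun (congrFun h3 i) j
        have e4 := congrFun (congrFun Q.add i) j
        have e5 := congrFun (congrFun R.add i) j
        rw [Matrix.add_apply, Matrix.add_apply] at e1 e4 e5
        rw [Matrix.sub_apply, Matrix.sub_apply] at e2 e3
        linarith
      rw [h4] at h1 h2 h3
      exact Prod.ext h4 (Prod.ext (add_left_cancel h1)
        (Prod.ext (sub_left_injective h2) (sub_left_injective h3)))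
    rw [← Finset.card_image_of_injOn hinj]
    have key := otri_count (W := 2 * L) hτ1 hτ (by omega) hZ
      (A4.image (fun q : M2 × M2 × M2 × M2 => (q.1 + q.2.1, q.2.2.1 - q.1, q.2.2.2 - q.1)))
      (by
        intro X hX
        obtain ⟨q, hq, rfl⟩ := Finset.mem_image.mp hX
        obtain ⟨h0, h1, h2, h3⟩ := Finset.mem_filter.mp hq
        exact (hF q h0).otri h1 h2 h3)
    push_cast at key
    exact key
  have hr : (F.card : ℝ) ≤ A1.card + A2.card + A3.card + A4.card := by exact_mod_cast hcard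
  have c1r : (A1.card : ℝ) ≤ 4500 * (L : ℝ) ^ 4 * τ ^ 3 := by exact_mod_cast c1
  have c2r : (A2.card : ℝ) ≤ 4500 * (L : ℝ) ^ 4 * τ ^ 3 := by exact_mod_cast c2
  have c3r : (A3.card : ℝ) ≤ 4500 * (L : ℝ) ^ 4 * τ ^ 3 := by exact_mod_cast c3
  calc (F.card : ℝ) ≤ A1.card + A2.card + A3.card + A4.card := hr
    _ ≤ 4500 * (L : ℝ) ^ 4 * τ ^ 3 + 4500 * (L : ℝ) ^ 4 * τ ^ 3 + 4500 * (L : ℝ) ^ 4 * τ ^ 3 +
        44236800 * τ ^ 6 * (2 * (L : ℝ)) ^ 4 * HH (4 * (2 * (2 * L) ^ 2) ^ 2) ^ 2 := by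
        gcongr
    _ = _ := by ring

/-- The energy bound with `ε`. -/
theorem energy_bound (ε : ℝ) (hε : 0 < ε) : ∃ C : ℝ, 0 ≤ C ∧ ∀ (N : ℝ) (L : ℕ), 1 ≤ L → (L : ℝ) ≤ N →
    ∀ F : Finset (M2 × M2 × M2 × M2), (∀ q ∈ F, Quad L q) → (F.card : ℝ) ≤ C * N ^ (4 + ε) := by
  set δ : ℝ := ε / 80 with hδ
  have hδ0 : 0 < δ := by positivity
  obtain ⟨C0, hC0, hdiv⟩ := divisor_bound δ hδ0
  set D : ℝ := 2 * C0 * (3145728 : ℝ) ^ δ with hD
  set D' : ℝ := (1 + 1 / δ) * (256 : ℝ) ^ δ with hD'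
  have hDpos : 0 ≤ D := by positivity
  have hD'pos : 0 ≤ D' := by positivity
  refine ⟨13500 * D ^ 3 + 707788800 * D ^ 6 * D' ^ 2, by positivity, ?_⟩
  intro N L hL hLN F hF
  have hLr : (1 : ℝ) ≤ L := by exact_mod_cast hL
  have hN1 : 1 ≤ N := hLr.trans hLN
  have hN0 : 0 < N := by linarith
  set Z : ℕ := 768 * (2 * L) ^ 12 with hZ
  have hZ1 : 1 ≤ Z := by
    rw [hZ]
    have : 0 < (2 * L) ^ 12 := by positivity
    omega
  have hZr : (1 : ℝ) ≤ Z := by exact_mod_cast hZ1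
  have hZδ1 : (1 : ℝ) ≤ (Z : ℝ) ^ δ := Real.one_le_rpow hZr hδ0.le
  set τ : ℕ := ⌈C0 * (Z : ℝ) ^ δ⌉₊ with hτdef
  have hCZ : (1 : ℝ) ≤ C0 * (Z : ℝ) ^ δ := by nlinarith
  have hτ1 : 1 ≤ τ := Nat.one_le_ceil_iff.mpr (by linarith)
  have hτ : ∀ n : ℕ, 0 < n → n ≤ Z → n.divisors.card ≤ τ := by
    intro n hn hnZ
    have h1 := hdiv n hn
    have h2 : (n : ℝ) ^ δ ≤ (Z : ℝ) ^ δ :=
      Real.rpow_le_rpow (Nat.cast_nonneg _) (by exact_mod_cast hnZ) hδ0.le
    have h3 : (n.divisors.card : ℝ) ≤ C0 * (Z : ℝ) ^ δ :=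
      h1.trans (mul_le_mul_of_nonneg_left h2 (by linarith))
    have h4 : (n.divisors.card : ℝ) ≤ (τ : ℝ) := h3.trans (Nat.le_ceil _)
    exact_mod_cast h4
  have key := energy_bound_nat hτ1 hτ hL le_rfl F hF
  set t : ℝ := N ^ δ with ht
  have ht1 : 1 ≤ t := Real.one_le_rpow hN1 hδ0.le
  have hτt : (τ : ℝ) ≤ D * t ^ 12 := by
    have h1 : (τ : ℝ) < C0 * (Z : ℝ) ^ δ + 1 := Nat.ceil_lt_add_one (by linarith)
    have h2 : (Z : ℝ) ≤ 3145728 * N ^ 12 := by
      rw [hZ]; push_cast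
      have : (2 * (L : ℝ)) ^ 12 = 4096 * (L : ℝ) ^ 12 := by ring
      rw [this]
      have h3 : (L : ℝ) ^ 12 ≤ N ^ 12 := pow_le_pow_left₀ (by linarith) hLN 12
      linarith
    have h3 : (Z : ℝ) ^ δ ≤ (3145728 : ℝ) ^ δ * t ^ 12 := by
      refine (Real.rpow_le_rpow (by linarith) h2 hδ0.le).trans (le_of_eq ?_)
      rw [Real.mul_rpow (by norm_num) (by positivity), ht, ← Real.rpow_natCast,
        ← Real.rpow_natCast, ← Real.rpow_mul hN0.le, ← Real.rpow_mul hN0.le, mul_comm δ]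
    calc (τ : ℝ) ≤ C0 * (Z : ℝ) ^ δ + 1 := h1.le
      _ ≤ 2 * C0 * (Z : ℝ) ^ δ := by linarith
      _ ≤ 2 * C0 * ((3145728 : ℝ) ^ δ * t ^ 12) :=
          mul_le_mul_of_nonneg_left h3 (by linarith)
      _ = D * t ^ 12 := by rw [hD]; ring
  set K : ℕ := 4 * (2 * (2 * L) ^ 2) ^ 2 with hK
  have hKeq : (K : ℝ) = 256 * (L : ℝ) ^ 4 := by rw [hK]; push_cast; ring
  have hHt : HH K ≤ D' * t ^ 4 := by
    have hK1 : (1 : ℝ) ≤ K := by
      rw [hKeq]
      have : (1 : ℝ) ≤ (L : ℝ) ^ 4 := one_le_pow₀ hLr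
      linarith
    have h1 := HH_le_log K
    have h2 := Real.log_le_rpow_div (by linarith : (0 : ℝ) ≤ K) hδ0
    have h3 : (1 : ℝ) ≤ (K : ℝ) ^ δ := Real.one_le_rpow hK1 hδ0.le
    have h4 : HH K ≤ (1 + 1 / δ) * (K : ℝ) ^ δ := by
      calc HH K ≤ 1 + (K : ℝ) ^ δ / δ := by linarith
        _ ≤ (K : ℝ) ^ δ + (K : ℝ) ^ δ / δ := by linarith
        _ = _ := by ring
    have h5 : (K : ℝ) ^ δ ≤ (256 : ℝ) ^ δ * t ^ 4 := by
      have h6 : (K : ℝ) ≤ 256 * N ^ 4 := by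
        rw [hKeq]
        have h3 : (L : ℝ) ^ 4 ≤ N ^ 4 := pow_le_pow_left₀ (by linarith) hLN 4
        linarith
      refine (Real.rpow_le_rpow (by linarith) h6 hδ0.le).trans (le_of_eq ?_)
      rw [Real.mul_rpow (by norm_num) (by positivity), ht, ← Real.rpow_natCast,
        ← Real.rpow_natCast, ← Real.rpow_mul hN0.le, ← Real.rpow_mul hN0.le, mul_comm δ]
    calc HH K ≤ (1 + 1 / δ) * (K : ℝ) ^ δ := h4
      _ ≤ (1 + 1 / δ) * ((256 : ℝ) ^ δ * t ^ 4) :=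
          mul_le_mul_of_nonneg_left h5 (by positivity)
      _ = D' * t ^ 4 := by rw [hD']; ring
  have hL4 : (L : ℝ) ^ 4 ≤ N ^ 4 := pow_le_pow_left₀ (by linarith) hLN 4
  have hτ0 : (0 : ℝ) ≤ τ := Nat.cast_nonneg _
  have hH0 : 0 ≤ HH K := HH_nonneg K
  have t0 : 0 ≤ t := by linarith
  have b1 : 13500 * (L : ℝ) ^ 4 * τ ^ 3 ≤ 13500 * N ^ 4 * (D * t ^ 12) ^ 3 := by
    have := pow_le_pow_left₀ hτ0 hτt 3
    gcongr
  have b2 : 44236800 * (τ : ℝ) ^ 6 * (2 * (L : ℝ)) ^ 4 * HH K ^ 2 ≤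
      44236800 * (D * t ^ 12) ^ 6 * (2 * N) ^ 4 * (D' * t ^ 4) ^ 2 := by
    gcongr
  have b3 : 13500 * N ^ 4 * (D * t ^ 12) ^ 3 ≤ 13500 * D ^ 3 * (N ^ 4 * t ^ 80) := by
    have h36 : t ^ 36 ≤ t ^ 80 := pow_le_pow_right₀ ht1 (by norm_num)
    calc 13500 * N ^ 4 * (D * t ^ 12) ^ 3 = 13500 * D ^ 3 * (N ^ 4 * t ^ 36) := by ring
      _ ≤ _ := by gcongr
  have hN4 : N ^ (4 + ε) = N ^ 4 * t ^ 80 := by
    rw [Real.rpow_add hN0, ht, ← Real.rpow_natCast (N ^ δ), ← Real.rpow_mul hN0.le]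
    congr 1
    · rw [← Real.rpow_natCast N 4]; norm_num
    · congr 1
      rw [hδ]; push_cast; ring
  rw [hN4]
  calc (F.card : ℝ) ≤ _ := key
    _ ≤ 13500 * D ^ 3 * (N ^ 4 * t ^ 80) +
        44236800 * (D * t ^ 12) ^ 6 * (2 * N) ^ 4 * (D' * t ^ 4) ^ 2 :=
        add_le_add (b1.trans b3) b2
    _ = _ := by ring

end Pool.Agent.Helper89.SLE
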