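import Pool.Agent.Helper89.SLE.Div

/-!
# Counting integer matrices of given determinant with small rows for a definite form
-/

set_option autoImplicit false

namespace Pool.Agent.Helper89.SLE

open Finset

/-- Binary quadratic form. -/
def qf (A H C m n : ℤ) : ℤ := A * m ^ 2 + 2 * H * m * n + C * n ^ 2

/-- Matrices `(m₁ m₂; m₃ m₄)` of determinant `q` whose rows have form value at most `b`. -/
def Sol (A H C q b : ℤ) (m : ℤ × ℤ × ℤ × ℤ) : Prop :=
  m.1 * m.2.2.2 - m.2.1 * m.2.2.1 = q ∧ qf A H C m.1 m.2.1 ≤ b ∧ qf A H C m.2.2.1 m.2.2.2 ≤ b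

theorem abs_le_sqrt {A b x : ℤ} (hA : 0 < A) (h : A * x ^ 2 ≤ b) :
    |x| ≤ (Nat.sqrt (b / A).toNat : ℤ) := by
  have h1 : x ^ 2 ≤ b / A := by
    rw [Int.le_ediv_iff_mul_le hA]
    linarith
  have h2 : (x.natAbs) ^ 2 ≤ (b / A).toNat := by
    zify
    rw [sq_abs]
    refine h1.trans ?_
    exact Int.self_le_toNat _
  have h3 : x.natAbs ≤ Nat.sqrt (b / A).toNat := Nat.le_sqrt'.mpr h2
  rw [Int.abs_eq_natAbs]
  exact_mod_cast h3

theorem mul_sqrt_sq_le {A b : ℤ} (hA : 0 < A) (hb : 0 ≤ b) :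
    A * (Nat.sqrt (b / A).toNat : ℤ) ^ 2 ≤ b := by
  have h1 : (Nat.sqrt (b / A).toNat) ^ 2 ≤ (b / A).toNat := Nat.sqrt_le' _
  have h2 : 0 ≤ b / A := Int.ediv_nonneg hb hA.le
  have h3 : ((Nat.sqrt (b / A).toNat : ℤ)) ^ 2 ≤ b / A := by
    have : (((Nat.sqrt (b / A).toNat) ^ 2 : ℕ) : ℤ) ≤ (((b / A).toNat : ℕ) : ℤ) := by
      exact_mod_cast h1
    rw [Int.toNat_of_nonneg h2] at this
    push_cast at this
    exact this
  calc A * (Nat.sqrt (b / A).toNat : ℤ) ^ 2 ≤ A * (b / A) := mul_le_mul_of_nonneg_left h3 hA.le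
    _ ≤ b := Int.mul_ediv_self_le hA.ne'

theorem half_le_qf {A H C m n : ℤ} (hAC : A ≤ C) (hH : 2 * |H| ≤ A) :
    A * m ^ 2 + C * n ^ 2 ≤ 2 * qf A H C m n := by
  have h1 : |4 * H * m * n| ≤ A * m ^ 2 + A * n ^ 2 := by
    have h2 : |4 * H * m * n| = (2 * |H|) * (2 * (|m| * |n|)) := by
      rw [abs_mul, abs_mul, abs_mul]
      norm_num
      ring
    rw [h2]
    have h3 : 2 * (|m| * |n|) ≤ m ^ 2 + n ^ 2 := by
      nlinarith [sq_nonneg (|m| - |n|), sq_abs m, sq_abs n]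
    have h4 : 0 ≤ 2 * (|m| * |n|) := by positivity
    have h5 : 0 ≤ 2 * |H| := by positivity
    calc (2 * |H|) * (2 * (|m| * |n|)) ≤ A * (2 * (|m| * |n|)) :=
          mul_le_mul_of_nonneg_right hH h4
      _ ≤ A * (m ^ 2 + n ^ 2) := mul_le_mul_of_nonneg_left h3 (by linarith)
      _ = A * m ^ 2 + A * n ^ 2 := by ring
  have h6 := neg_abs_le (4 * H * m * n)
  have h7 : A * n ^ 2 ≤ C * n ^ 2 := mul_le_mul_of_nonneg_right hAC (sq_nonneg n)
  unfold qf
  nlinarith

/-- The reduced case. -/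
theorem sol_card_reduced {τ Z : ℕ} (hτ1 : 1 ≤ τ)
    (hτ : ∀ n : ℕ, 0 < n → n ≤ Z → n.divisors.card ≤ τ)
    {A H C q b : ℤ} (hA : 0 < A) (hAC : A ≤ C) (hH : 2 * |H| ≤ A) (hq : q ≠ 0) (hb : 0 ≤ b)
    (hΔ : 0 < A * C - H ^ 2)
    (hbZ : 3 * b ≤ Z) (F : Finset (ℤ × ℤ × ℤ × ℤ)) (hF : ∀ m ∈ F, Sol A H C q b m) :
    (F.card : ℝ) * Real.sqrt ((A * C - H ^ 2 : ℤ) : ℝ) ≤ 60 * τ * b := by
  classical
  rcases F.eq_empty_or_nonempty with rfl | ⟨m0, hm0⟩
  · simp only [Finset.card_empty, Nat.cast_zero, zero_mul]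
    have : (0 : ℝ) ≤ b := by exact_mod_cast hb
    positivity
  set X : ℕ := Nat.sqrt (2 * b / A).toNat with hX
  set Y : ℕ := Nat.sqrt (2 * b / C).toNat with hY
  have hC : 0 < C := lt_of_lt_of_le hA hAC
  have hrow : ∀ m n : ℤ, qf A H C m n ≤ b → |m| ≤ X ∧ |n| ≤ Y := by
    intro m n h
    have h1 := half_le_qf (m := m) (n := n) hAC hH
    have h2 : 0 ≤ A * m ^ 2 := by positivity
    have h3 : 0 ≤ C * n ^ 2 := by positivity
    exact ⟨abs_le_sqrt hA (by linarith), abs_le_sqrt hC (by linarith)⟩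
  have hY1 : 1 ≤ Y := by
    obtain ⟨h1, h2, h3⟩ := hF m0 hm0
    by_contra hcon
    have hY0 : Y = 0 := by omega
    have h4 := (hrow _ _ h2).2
    have h5 := (hrow _ _ h3).2
    rw [hY0] at h4 h5
    have h6 : m0.2.1 = 0 := abs_nonpos_iff.mp (by simpa using h4)
    have h7 : m0.2.2.2 = 0 := abs_nonpos_iff.mp (by simpa using h5)
    rw [h6, h7] at h1
    apply hq
    rw [← h1]; ring
  have hYX : Y ≤ X := by
    apply Nat.sqrt_le_sqrt
    apply Int.toNat_le_toNat
    rw [Int.le_ediv_iff_mul_le hA]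
    have h1 : 0 ≤ 2 * b / C := Int.ediv_nonneg (by linarith) hC.le
    have h2 := Int.mul_ediv_self_le (x := 2 * b) hC.ne'
    nlinarith
  have hXX : A * (X : ℤ) ^ 2 ≤ 2 * b := mul_sqrt_sq_le hA (by linarith)
  have hYY : C * (Y : ℤ) ^ 2 ≤ 2 * b := mul_sqrt_sq_le hC (by linarith)
  have hXYb : (X : ℤ) * Y ≤ 2 * b := by
    have h1 : (X : ℤ) ^ 2 ≤ 2 * b := by nlinarith [sq_nonneg (X : ℤ)]
    have h2 : (Y : ℤ) ≤ X := by exact_mod_cast hYX
    nlinarith [Int.natCast_nonneg X, Int.natCast_nonneg Y]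
  have hqb : |q| ≤ 2 * b := by
    obtain ⟨h1, h2, h3⟩ := hF m0 hm0
    have e1 := hrow _ _ h2
    have e2 := hrow _ _ h3
    have h4 : |q| ≤ |m0.1| * |m0.2.2.2| + |m0.2.1| * |m0.2.2.1| := by
      rw [← h1, ← abs_mul, ← abs_mul]
      exact abs_sub _ _
    have h5 := half_le_qf (m := m0.1) (n := m0.2.1) hAC hH
    have h6 := half_le_qf (m := m0.2.2.1) (n := m0.2.2.2) hAC hH
    have h7 : |m0.1| * |m0.2.2.2| ≤ (m0.1 ^ 2 + m0.2.2.2 ^ 2) := by
      nlinarith [sq_nonneg (|m0.1| - |m0.2.2.2|), sq_abs m0.1, sq_abs m0.2.2.2,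
        sq_nonneg m0.1, sq_nonneg m0.2.2.2]
    have h8 : |m0.2.1| * |m0.2.2.1| ≤ (m0.2.1 ^ 2 + m0.2.2.1 ^ 2) := by
      nlinarith [sq_nonneg (|m0.2.1| - |m0.2.2.1|), sq_abs m0.2.1, sq_abs m0.2.2.1,
        sq_nonneg m0.2.1, sq_nonneg m0.2.2.1]
    have g7 : 2 * (|m0.1| * |m0.2.2.2|) ≤ (m0.1 ^ 2 + m0.2.2.2 ^ 2) := by
      nlinarith [sq_nonneg (|m0.1| - |m0.2.2.2|), sq_abs m0.1, sq_abs m0.2.2.2]
    have g8 : 2 * (|m0.2.1| * |m0.2.2.1|) ≤ (m0.2.1 ^ 2 + m0.2.2.1 ^ 2) := by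
      nlinarith [sq_nonneg (|m0.2.1| - |m0.2.2.1|), sq_abs m0.2.1, sq_abs m0.2.2.1]
    have i1 : m0.1 ^ 2 ≤ A * m0.1 ^ 2 := by nlinarith [sq_nonneg m0.1]
    have i2 : m0.2.1 ^ 2 ≤ C * m0.2.1 ^ 2 := by nlinarith [sq_nonneg m0.2.1]
    have i3 : m0.2.2.1 ^ 2 ≤ A * m0.2.2.1 ^ 2 := by nlinarith [sq_nonneg m0.2.2.1]
    have i4 : m0.2.2.2 ^ 2 ≤ C * m0.2.2.2 ^ 2 := by nlinarith [sq_nonneg m0.2.2.2]
    linarith
  -- split
  set F1 := F.filter (fun m => m.1 * m.2.2.2 ≠ q) with hF1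
  set F2 := F.filter (fun m => ¬ (m.1 * m.2.2.2 ≠ q)) with hF2
  have hcard : F.card = F1.card + F2.card :=
    (Finset.card_filter_add_card_filter_not _).symm
  set BX : Finset ℤ := Finset.Icc (-(X : ℤ)) X with hBX
  set BY : Finset ℤ := Finset.Icc (-(Y : ℤ)) Y with hBY
  have cBX : BX.card = 2 * X + 1 := by rw [hBX, Int.card_Icc]; omega
  have cBY : BY.card = 2 * Y + 1 := by rw [hBY, Int.card_Icc]; omega
  have c1 : F1.card ≤ (2 * τ) * ((2 * X + 1) * (2 * Y + 1)) := by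
    have := card_le_fiber F1 (fun m => (m.1, m.2.2.2)) (BX ×ˢ BY) (fun m hm => ?_) (2 * τ) ?_
    · rw [Finset.card_product, cBX, cBY] at this
      exact this
    · have hm' := Finset.mem_filter.mp hm
      obtain ⟨h1, h2, h3⟩ := hF m hm'.1
      rw [Finset.mem_product, hBX, hBY, Finset.mem_Icc, Finset.mem_Icc]
      exact ⟨abs_le.mp (hrow _ _ h2).1, abs_le.mp (hrow _ _ h3).2⟩
    · rintro ⟨u, v⟩ huv
      rw [Finset.mem_product, hBX, hBY, Finset.mem_Icc, Finset.mem_Icc] at huv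
      by_cases hn : u * v - q = 0
      · rw [Finset.filter_eq_empty_iff.mpr]
        · simp
        · intro m hm hmm
          have hm' := Finset.mem_filter.mp hm
          apply hm'.2
          rw [Prod.mk.injEq] at hmm
          rw [hmm.1, hmm.2]
          linarith
      have hn2 : (u * v - q).natAbs ≤ Z := by
        have h1 : |u * v| ≤ X * Y := by
          rw [abs_mul]
          exact mul_le_mul (abs_le.mpr huv.1) (abs_le.mpr huv.2) (abs_nonneg _)
            (Int.natCast_nonneg _)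
        have h2 : |u * v - q| ≤ |u * v| + |q| := abs_sub _ _
        obtain ⟨h1', h2', h3'⟩ := hF m0 hm0
        have h5 := half_le_qf (m := m0.1) (n := m0.2.1) hAC hH
        -- XY ≤ ... use finer bounds
        have hXYC : (X : ℤ) * Y ≤ 2 * b := hXYb
        have h3 : |u * v - q| ≤ 3 * b := by
          -- |q| ≤ b by Gram
          have hq2 : q ^ 2 * (A * C - H ^ 2) ≤ b ^ 2 := by
            have k1 : qf A H C m0.1 m0.2.1 * qf A H C m0.2.2.1 m0.2.2.2 =
                (A * m0.1 * m0.2.2.1 + H * (m0.1 * m0.2.2.2 + m0.2.1 * m0.2.2.1)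
                  + C * m0.2.1 * m0.2.2.2) ^ 2 + q ^ 2 * (A * C - H ^ 2) := by
              rw [← h1']; unfold qf; ring
            have k2 : 0 ≤ qf A H C m0.1 m0.2.1 := by
              have := half_le_qf (m := m0.1) (n := m0.2.1) hAC hH
              have e1 : 0 ≤ A * m0.1 ^ 2 := by positivity
              have e2 : 0 ≤ C * m0.2.1 ^ 2 := by positivity
              linarith
            have k3 : qf A H C m0.1 m0.2.1 * qf A H C m0.2.2.1 m0.2.2.2 ≤ b * b := by
              have k4 : 0 ≤ qf A H C m0.2.2.1 m0.2.2.2 := by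
                have := half_le_qf (m := m0.2.2.1) (n := m0.2.2.2) hAC hH
                have e1 : 0 ≤ A * m0.2.2.1 ^ 2 := by positivity
                have e2 : 0 ≤ C * m0.2.2.2 ^ 2 := by positivity
                linarith
              exact mul_le_mul h2' h3' k4 hb
            nlinarith [sq_nonneg (A * m0.1 * m0.2.2.1 + H * (m0.1 * m0.2.2.2 + m0.2.1 * m0.2.2.1)
                  + C * m0.2.1 * m0.2.2.2)]
          have hq3 : q ^ 2 ≤ b ^ 2 := by nlinarith [sq_nonneg q]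
          have hq4 : |q| ≤ b := by
            have := sq_le_sq.mp hq3
            rwa [abs_of_nonneg hb] at this
          linarith
        have : ((u * v - q).natAbs : ℤ) ≤ Z := by
          rw [Int.natCast_natAbs]
          linarith
        exact_mod_cast this
      set G := (F1.filter (fun m => (m.1, m.2.2.2) = (u, v))) with hG
      have hGi : Set.InjOn (fun m : ℤ × ℤ × ℤ × ℤ => (m.2.1, m.2.2.1)) (G : Set _) := by
        intro m hm m' hm' h
        have e1 := (Finset.mem_filter.mp hm).2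
        have e2 := (Finset.mem_filter.mp hm').2
        rw [Prod.mk.injEq] at e1 e2 h
        exact Prod.ext (e1.1.trans e2.1.symm)
          (Prod.ext h.1 (Prod.ext h.2 (e1.2.trans e2.2.symm)))
      rw [← Finset.card_image_of_injOn hGi]
      apply card_pairs_le hτ hn hn2
      intro w hw
      obtain ⟨m, hm, rfl⟩ := Finset.mem_image.mp hw
      have hm' := Finset.mem_filter.mp hm
      have hm'' := (Finset.mem_filter.mp hm'.1).1
      obtain ⟨h1, _, _⟩ := hF m hm''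
      have e := hm'.2
      rw [Prod.mk.injEq] at e
      rw [← e.1, ← e.2]
      change m.2.1 * m.2.2.1 = _
      linarith
  have c2 : F2.card ≤ ((2 * X + 1) + (2 * Y + 1)) * (2 * τ) := by
    set T := F2.image (fun m => (m.1, m.2.2.2)) with hT
    have hTc : T.card ≤ 2 * τ := by
      have hqZ : q.natAbs ≤ Z := by
        have : ((q.natAbs : ℕ) : ℤ) ≤ Z := by
          rw [Int.natCast_natAbs]
          linarith
        exact_mod_cast this
      apply card_pairs_le hτ hq hqZ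
      intro w hw
      obtain ⟨m, hm, rfl⟩ := Finset.mem_image.mp hw
      have hm' := (Finset.mem_filter.mp hm).2
      push Not at hm'
      exact hm'
    have := card_le_fiber F2 (fun m => (m.1, m.2.2.2)) T
      (fun m hm => Finset.mem_image_of_mem _ hm) ((2 * X + 1) + (2 * Y + 1)) ?_
    · exact this.trans (Nat.mul_le_mul_left _ hTc)
    · rintro ⟨u, v⟩ huv
      set G := (F2.filter (fun m => (m.1, m.2.2.2) = (u, v))) with hG
      have hGi : Set.InjOn (fun m : ℤ × ℤ × ℤ × ℤ => (m.2.1, m.2.2.1)) (G : Set _) := by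
        intro m hm m' hm' h
        have e1 := (Finset.mem_filter.mp hm).2
        have e2 := (Finset.mem_filter.mp hm').2
        rw [Prod.mk.injEq] at e1 e2 h
        exact Prod.ext (e1.1.trans e2.1.symm)
          (Prod.ext h.1 (Prod.ext h.2 (e1.2.trans e2.2.symm)))
      rw [← Finset.card_image_of_injOn hGi]
      have hsub : G.image (fun m : ℤ × ℤ × ℤ × ℤ => (m.2.1, m.2.2.1)) ⊆
          (BX.image (fun x => ((0 : ℤ), x))) ∪ (BY.image (fun y => (y, (0 : ℤ)))) := by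
        intro w hw
        obtain ⟨m, hm, rfl⟩ := Finset.mem_image.mp hw
        have hm' := Finset.mem_filter.mp hm
        have hm'' := Finset.mem_filter.mp hm'.1
        obtain ⟨h1, h2, h3⟩ := hF m hm''.1
        have h4 := hm''.2
        push Not at h4
        have h5 : m.2.1 * m.2.2.1 = 0 := by linarith
        rw [Finset.mem_union, Finset.mem_image, Finset.mem_image]
        rcases mul_eq_zero.mp h5 with h | h
        · left
          refine ⟨m.2.2.1, ?_, by rw [h]⟩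
          rw [hBX, Finset.mem_Icc]
          exact abs_le.mp (hrow _ _ h3).1
        · right
          refine ⟨m.2.1, ?_, by rw [h]⟩
          rw [hBY, Finset.mem_Icc]
          exact abs_le.mp (hrow _ _ h2).2
      refine (Finset.card_le_card hsub).trans ((Finset.card_union_le _ _).trans ?_)
      have d1 := Finset.card_image_le (s := BX) (f := fun x => ((0 : ℤ), x))
      have d2 := Finset.card_image_le (s := BY) (f := fun y => (y, (0 : ℤ)))
      omega
  have hX1 : 1 ≤ X := hY1.trans hYX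
  have c3 : F.card ≤ 30 * τ * (X * Y) := by
    have k1 : (2 * X + 1) * (2 * Y + 1) ≤ 9 * (X * Y) := by nlinarith
    have k2 : (2 * X + 1) + (2 * Y + 1) ≤ 6 * (X * Y) := by nlinarith
    calc F.card = F1.card + F2.card := hcard
      _ ≤ (2 * τ) * ((2 * X + 1) * (2 * Y + 1)) + ((2 * X + 1) + (2 * Y + 1)) * (2 * τ) :=
        add_le_add c1 c2
      _ ≤ (2 * τ) * (9 * (X * Y)) + (6 * (X * Y)) * (2 * τ) :=
        add_le_add (Nat.mul_le_mul_left _ k1) (Nat.mul_le_mul_right _ k2)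
      _ = 30 * τ * (X * Y) := by ring
  have c4 : ((X * Y : ℕ) : ℝ) * Real.sqrt ((A * C - H ^ 2 : ℤ) : ℝ) ≤ 2 * b := by
    have h0 : (0 : ℝ) ≤ ((A * C - H ^ 2 : ℤ) : ℝ) := by exact_mod_cast hΔ.le
    have hb' : (0 : ℝ) ≤ 2 * (b : ℝ) := by
      have : (0 : ℝ) ≤ b := by exact_mod_cast hb
      positivity
    apply le_of_sq_le_sq _ hb' |> fun h => h
    rw [mul_pow, Real.sq_sqrt h0]
    have h1 : ((X : ℤ) * Y) ^ 2 * (A * C - H ^ 2) ≤ (2 * b) ^ 2 := by
      have h2 : ((X : ℤ) * Y) ^ 2 * (A * C - H ^ 2) ≤ ((X : ℤ) * Y) ^ 2 * (A * C) :=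
        mul_le_mul_of_nonneg_left (by nlinarith [sq_nonneg H]) (sq_nonneg _)
      have h3 : ((X : ℤ) * Y) ^ 2 * (A * C) = (A * (X : ℤ) ^ 2) * (C * (Y : ℤ) ^ 2) := by ring
      have h4 : (A * (X : ℤ) ^ 2) * (C * (Y : ℤ) ^ 2) ≤ (2 * b) * (2 * b) :=
        mul_le_mul hXX hYY (by positivity) (by linarith)
      calc _ ≤ _ := h2
        _ = _ := h3
        _ ≤ _ := h4
        _ = (2 * b) ^ 2 := by ring
    exact_mod_cast h1
  calc (F.card : ℝ) * Real.sqrt ((A * C - H ^ 2 : ℤ) : ℝ)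
      ≤ ((30 * τ * (X * Y) : ℕ) : ℝ) * Real.sqrt ((A * C - H ^ 2 : ℤ) : ℝ) := by
        apply mul_le_mul_of_nonneg_right _ (Real.sqrt_nonneg _)
        exact_mod_cast c3
    _ = (30 * τ) * (((X * Y : ℕ) : ℝ) * Real.sqrt ((A * C - H ^ 2 : ℤ) : ℝ)) := by
        push_cast; ring
    _ ≤ (30 * τ) * (2 * b) := mul_le_mul_of_nonneg_left c4 (by positivity)
    _ = 60 * τ * b := by ring

/-- Counting matrices of given determinant with small rows for a positive definite form. -/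
theorem sol_card {τ Z : ℕ} (hτ1 : 1 ≤ τ)
    (hτ : ∀ n : ℕ, 0 < n → n ≤ Z → n.divisors.card ≤ τ)
    {q b : ℤ} (hq : q ≠ 0) (hb : 0 ≤ b) (hbZ : 3 * b ≤ Z) :
    ∀ (N : ℕ) (A H C : ℤ), 0 < A → A.natAbs ≤ N → 0 < A * C - H ^ 2 →
    ∀ (F : Finset (ℤ × ℤ × ℤ × ℤ)), (∀ m ∈ F, Sol A H C q b m) →
    (F.card : ℝ) * Real.sqrt ((A * C - H ^ 2 : ℤ) : ℝ) ≤ 60 * τ * b := by
  classical
  intro N
  induction N with
  | zero =>
    intro A H C hA hAN
    omega
  | succ N ih =>
    intro A H C hA hAN hΔ F hF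
    -- shift
    set k : ℤ := (2 * H + A) / (2 * A) with hk
    set H' := H - A * k with hH'
    set C' := C - 2 * H * k + A * k ^ 2 with hC'
    have h2A : 0 < 2 * A := by linarith
    have hmod := Int.emod_add_mul_ediv (2 * H + A) (2 * A)
    have hm0 := Int.emod_nonneg (2 * H + A) h2A.ne'
    have hm1 := Int.emod_lt_of_pos (2 * H + A) h2A
    have hHred : 2 * |H'| ≤ A := by
      have e1 : 2 * H' = (2 * H + A) % (2 * A) - A := by
        rw [hH']
        rw [← hk] at hmod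
        linarith
      have e2 : |2 * H'| ≤ A := by
        rw [e1, abs_le]
        constructor <;> linarith
      rwa [abs_mul, abs_two] at e2
    have hΔ' : A * C' - H' ^ 2 = A * C - H ^ 2 := by rw [hC', hH']; ring
    let φ : ℤ × ℤ × ℤ × ℤ → ℤ × ℤ × ℤ × ℤ := fun m =>
      (m.1 + k * m.2.1, m.2.1, m.2.2.1 + k * m.2.2.2, m.2.2.2)
    have hφ : Function.Injective φ := by
      rintro ⟨a, b, c, d⟩ ⟨a', b', c', d'⟩ h
      simp only [φ, Prod.mk.injEq] at h
      obtain ⟨h1, h2, h3, h4⟩ := h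
      subst h2 h4
      simp only [add_left_inj] at h1 h3
      rw [h1, h3]
    have hFφ : ∀ m ∈ F.image φ, Sol A H' C' q b m := by
      intro m' hm'
      obtain ⟨m, hm, rfl⟩ := Finset.mem_image.mp hm'
      obtain ⟨h1, h2, h3⟩ := hF m hm
      have e : ∀ x y : ℤ, qf A H' C' (x + k * y) y = qf A H C x y := by
        intro x y
        unfold qf
        rw [hH', hC']
        ring
      refine ⟨?_, ?_, ?_⟩
      · change (m.1 + k * m.2.1) * m.2.2.2 - m.2.1 * (m.2.2.1 + k * m.2.2.2) = q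
        rw [← h1]; ring
      · change qf A H' C' (m.1 + k * m.2.1) m.2.1 ≤ b
        rw [e]; exact h2
      · change qf A H' C' (m.2.2.1 + k * m.2.2.2) m.2.2.2 ≤ b
        rw [e]; exact h3
    rw [← Finset.card_image_of_injective F hφ, ← hΔ']
    by_cases hAC : A ≤ C'
    · exact sol_card_reduced hτ1 hτ hA hAC hHred hq hb (hΔ' ▸ hΔ) hbZ _ hFφ
    · push Not at hAC
      have hC'pos : 0 < C' := by
        have h1 : 0 < A * C' := by nlinarith [sq_nonneg H']
        exact (mul_pos_iff_of_pos_left hA).mp h1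
      let ψ : ℤ × ℤ × ℤ × ℤ → ℤ × ℤ × ℤ × ℤ := fun m => (m.2.1, -m.1, m.2.2.2, -m.2.2.1)
      have hψ : Function.Injective ψ := by
        rintro ⟨a, b, c, d⟩ ⟨a', b', c', d'⟩ h
        simp only [ψ, Prod.mk.injEq, neg_inj] at h
        obtain ⟨h1, h2, h3, h4⟩ := h
        rw [h1, h2, h3, h4]
      have hFψ : ∀ m ∈ (F.image φ).image ψ, Sol C' (-H') A q b m := by
        intro m' hm'
        obtain ⟨m, hm, rfl⟩ := Finset.mem_image.mp hm'
        obtain ⟨h1, h2, h3⟩ := hFφ m hm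
        have e : ∀ x y : ℤ, qf C' (-H') A y (-x) = qf A H' C' x y := by
          intro x y
          unfold qf
          ring
        refine ⟨?_, ?_, ?_⟩
        · change m.2.1 * (-m.2.2.1) - (-m.1) * m.2.2.2 = q
          rw [← h1]; ring
        · change qf C' (-H') A m.2.1 (-m.1) ≤ b
          rw [e]; exact h2
        · change qf C' (-H') A m.2.2.2 (-m.2.2.1) ≤ b
          rw [e]; exact h3
      rw [← Finset.card_image_of_injective (F.image φ) hψ]
      have hΔ'' : C' * A - (-H') ^ 2 = A * C' - H' ^ 2 := by ring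
      have := ih C' (-H') A hC'pos (by omega) (by rw [hΔ'', hΔ']; exact hΔ) _ hFψ
      rw [hΔ''] at this
      exact this

end Pool.Agent.Helper89.SLE
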