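import Pool.Agent.Helper89.SLE.Form

/-!
# Frames: pairs of anticommuting traceless integer matrices, and their intertwiners
-/

set_option autoImplicit false

namespace Pool.Agent.Helper89.SLE

open Finset Matrix

/-- Integer `2 × 2` matrices. -/
abbrev M2 := Matrix (Fin 2) (Fin 2) ℤ

/-- A pair of anticommuting traceless integer matrices with given determinants. -/
structure Fr (D1 D2 : ℤ) (I J : M2) : Prop where
  tI : I 0 0 + I 1 1 = 0
  tJ : J 0 0 + J 1 1 = 0
  tIJ : (I * J) 0 0 + (I * J) 1 1 = 0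
  dI : I.det = D1
  dJ : J.det = D2

/-- Content one. -/
def Unim (a : M2) : Prop := ∀ d X : ℤ, (∀ i j, d ∣ X * a i j) → d ∣ X

/-- Content one for pairs. -/
def Unim2 (I J : M2) : Prop :=
  ∀ d X : ℤ, (∀ i j, d ∣ X * I i j) → (∀ i j, d ∣ X * J i j) → d ∣ X

theorem exists_content_fun {ι : Type} [Fintype ι] [Nonempty ι] (f : ι → ℤ) (hf : f ≠ 0) :
    ∃ (c : ℤ) (g : ι → ℤ), 0 < c ∧ (∀ i, f i = c * g i) ∧
      ∀ d X : ℤ, (∀ i, d ∣ X * g i) → d ∣ X := by
  classical
  obtain ⟨g, hg, hg1⟩ := Finset.extract_gcd (s := (Finset.univ : Finset ι)) f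
    Finset.univ_nonempty
  set c := (Finset.univ : Finset ι).gcd f with hc
  have hc0 : c ≠ 0 := by
    intro h
    apply hf
    ext i
    have := hg i (Finset.mem_univ _)
    rw [h, zero_mul] at this
    exact this
  have hcn : 0 ≤ c := Int.nonneg_of_normalize_eq_self Finset.normalize_gcd
  refine ⟨c, g, lt_of_le_of_ne hcn hc0.symm, fun i => hg i (Finset.mem_univ _), ?_⟩
  intro d X h
  have h1 : d ∣ (Finset.univ : Finset ι).gcd (fun i => X * g i) :=
    Finset.dvd_gcd fun i _ => h i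
  have h2 := Finset.gcd_mul_left' (s := (Finset.univ : Finset ι)) (f := g) X
  rw [hg1, mul_one] at h2
  exact h2.dvd_iff_dvd_right.mp h1

theorem exists_content (a : M2) (ha : a ≠ 0) :
    ∃ (c : ℤ) (a' : M2), 0 < c ∧ a = c • a' ∧ Unim a' := by
  obtain ⟨c, g, hc, h1, h2⟩ := exists_content_fun (fun x : Fin 2 × Fin 2 => a x.1 x.2) (by
    intro h
    apply ha
    ext i j
    exact congrFun h (i, j))
  refine ⟨c, fun i j => g (i, j), hc, ?_, ?_⟩
  · ext i j
    exact h1 (i, j)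
  · intro d X h
    exact h2 d X fun x => h x.1 x.2

theorem exists_content2 (I J : M2) (hI : I ≠ 0) :
    ∃ (c : ℤ) (I' J' : M2), 0 < c ∧ I = c • I' ∧ J = c • J' ∧ Unim2 I' J' := by
  obtain ⟨c, g, hc, h1, h2⟩ := exists_content_fun
    (fun x : Bool × Fin 2 × Fin 2 => if x.1 then I x.2.1 x.2.2 else J x.2.1 x.2.2) (by
    intro h
    apply hI
    ext i j
    have := congrFun h (true, i, j)
    simpa using this)
  refine ⟨c, fun i j => g (true, i, j), fun i j => g (false, i, j), hc, ?_, ?_, ?_⟩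
  · ext i j
    exact (by simpa using h1 (true, i, j) : I i j = c * g (true, i, j))
  · ext i j
    exact (by simpa using h1 (false, i, j) : J i j = c * g (false, i, j))
  · intro d X h h'
    refine h2 d X ?_
    rintro ⟨b, i, j⟩
    cases b
    · exact h' i j
    · exact h i j

theorem mul00 (a b : M2) : (a * b) 0 0 = a 0 0 * b 0 0 + a 0 1 * b 1 0 := by
  rw [Matrix.mul_apply, Fin.sum_univ_two]
theorem mul01 (a b : M2) : (a * b) 0 1 = a 0 0 * b 0 1 + a 0 1 * b 1 1 := by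
  rw [Matrix.mul_apply, Fin.sum_univ_two]
theorem mul10 (a b : M2) : (a * b) 1 0 = a 1 0 * b 0 0 + a 1 1 * b 1 0 := by
  rw [Matrix.mul_apply, Fin.sum_univ_two]
theorem mul11 (a b : M2) : (a * b) 1 1 = a 1 0 * b 0 1 + a 1 1 * b 1 1 := by
  rw [Matrix.mul_apply, Fin.sum_univ_two]

theorem M2_ext {a b : M2} (h0 : a 0 0 = b 0 0) (h1 : a 0 1 = b 0 1) (h2 : a 1 0 = b 1 0)
    (h3 : a 1 1 = b 1 1) : a = b := by
  ext i j
  fin_cases i <;> fin_cases j <;> assumption

theorem sq_eq {I : M2} {D : ℤ} (tI : I 0 0 + I 1 1 = 0) (dI : I.det = D) :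
    I * I = -(D • (1 : M2)) := by
  rw [Matrix.det_fin_two] at dI
  have h11 : I 1 1 = -I 0 0 := by linarith
  rw [h11] at dI
  apply M2_ext
  · simp only [mul00, Matrix.neg_apply, Matrix.smul_apply, Matrix.one_apply_eq, smul_eq_mul]
    linear_combination -dI
  · simp only [mul01, Matrix.neg_apply, Matrix.smul_apply, smul_eq_mul]
    rw [h11, Matrix.one_apply_ne (by decide)]
    ring
  · simp only [mul10, Matrix.neg_apply, Matrix.smul_apply, smul_eq_mul]
    rw [h11, Matrix.one_apply_ne (by decide)]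
    ring
  · simp only [mul11, Matrix.neg_apply, Matrix.smul_apply, Matrix.one_apply_eq, smul_eq_mul]
    rw [h11]
    linear_combination -dI

theorem Fr.anti {D1 D2 : ℤ} {I J : M2} (h : Fr D1 D2 I J) : J * I = -(I * J) := by
  have h1 := h.tI
  have h2 := h.tJ
  have h3 := h.tIJ
  rw [mul00, mul11] at h3
  have e1 : I 1 1 = -I 0 0 := by linarith
  have e2 : J 1 1 = -J 0 0 := by linarith
  rw [e1, e2] at h3
  apply M2_ext
  · simp only [mul00, Matrix.neg_apply]
    linear_combination h3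
  · simp only [mul01, Matrix.neg_apply]
    rw [e1, e2]; ring
  · simp only [mul10, Matrix.neg_apply]
    rw [e1, e2]; ring
  · simp only [mul11, Matrix.neg_apply]
    rw [e1, e2]; linear_combination h3

theorem Fr.II {D1 D2 : ℤ} {I J : M2} (h : Fr D1 D2 I J) : I * I = -(D1 • (1 : M2)) :=
  sq_eq h.tI h.dI

theorem Fr.JJ {D1 D2 : ℤ} {I J : M2} (h : Fr D1 D2 I J) : J * J = -(D2 • (1 : M2)) :=
  sq_eq h.tJ h.dJ

/-- The averaged intertwiner. -/
def avg (D1 D2 : ℤ) (I J I0 J0 c : M2) : M2 :=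
  (D1 * D2) • c - D2 • (I * (c * I0)) - D1 • (J * (c * J0)) - I * (J * (c * (I0 * J0)))

theorem avg_I {D1 D2 : ℤ} {I J I0 J0 : M2} (h : Fr D1 D2 I J) (h0 : Fr D1 D2 I0 J0) (c : M2) :
    avg D1 D2 I J I0 J0 c * I0 = I * avg D1 D2 I J I0 J0 c := by
  have hII : ∀ X : M2, I * (I * X) = -(D1 • X) := by
    intro X
    rw [← mul_assoc, h.II, neg_mul, smul_mul_assoc, one_mul]
  have hI0 : I0 * I0 = -(D1 • (1 : M2)) := h0.II
  have hJI0 : J0 * I0 = -(I0 * J0) := h0.anti
  have hII0 : ∀ X : M2, I0 * (I0 * X) = -(D1 • X) := by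
    intro X
    rw [← mul_assoc, hI0, neg_mul, smul_mul_assoc, one_mul]
  unfold avg
  simp only [sub_mul, mul_sub, smul_mul_assoc, mul_smul_comm, mul_assoc, hII, hI0, hJI0]
  simp only [mul_neg, mul_smul_comm, mul_one, smul_neg, smul_smul, hII0, neg_neg, sub_neg_eq_add]
  rw [mul_comm D2 D1]
  abel

theorem avg_J {D1 D2 : ℤ} {I J I0 J0 : M2} (h : Fr D1 D2 I J) (h0 : Fr D1 D2 I0 J0) (c : M2) :
    avg D1 D2 I J I0 J0 c * J0 = J * avg D1 D2 I J I0 J0 c := by
  have hJJ : ∀ X : M2, J * (J * X) = -(D2 • X) := by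
    intro X
    rw [← mul_assoc, h.JJ, neg_mul, smul_mul_assoc, one_mul]
  have hJI : ∀ X : M2, J * (I * X) = -(I * (J * X)) := by
    intro X
    rw [← mul_assoc, h.anti, neg_mul, mul_assoc]
  have hJ0 : J0 * J0 = -(D2 • (1 : M2)) := h0.JJ
  unfold avg
  simp only [sub_mul, mul_sub, smul_mul_assoc, mul_smul_comm, mul_assoc, hJI, hJJ, hJ0]
  simp only [mul_neg, mul_smul_comm, mul_one, smul_neg, smul_smul, neg_neg, sub_neg_eq_add]
  abel

theorem exists_avg_ne {D1 D2 : ℤ} (hD1 : D1 ≠ 0) (hD2 : D2 ≠ 0) {I J I0 J0 : M2}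
    (h : Fr D1 D2 I J) : ∃ c, avg D1 D2 I J I0 J0 c ≠ 0 := by
  by_contra hcon
  push Not at hcon
  have e : ∀ i j : Fin 2, avg D1 D2 I J I0 J0 (Matrix.single i j 1) i j = 0 := by
    intro i j
    rw [hcon]
    rfl
  have h00 := e 0 0
  have h01 := e 0 1
  have h10 := e 1 0
  have h11 := e 1 1
  have t1 := h.tI
  have t2 := h.tJ
  have t3 := h.tIJ
  simp only [avg, Matrix.sub_apply, Matrix.smul_apply, smul_eq_mul, mul00, mul01, mul10, mul11,
    Matrix.single_apply] at h00 h01 h10 h11 t3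
  simp at h00 h01 h10 h11
  have : 4 * (D1 * D2) = 0 := by
    linear_combination h00 + h01 + h10 + h11 + D2 * (I0 0 0 + I0 1 1) * t1
      + D1 * (J0 0 0 + J0 1 1) * t2 +
      ((I0 0 0 * J0 0 0 + I0 0 1 * J0 1 0) + (I0 1 0 * J0 0 1 + I0 1 1 * J0 1 1)) * t3
  have h4 : D1 * D2 = 0 := by linarith
  rcases mul_eq_zero.mp h4 with h5 | h5
  · exact hD1 h5
  · exact hD2 h5

end Pool.Agent.Helper89.SLE
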