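import Pool.Agent.Helper89.SLE.Count

/-!
# Counting primitive frames
-/

set_option autoImplicit false

namespace Pool.Agent.Helper89.SLE

open Finset Matrix

theorem card_le_fiber_real {α β : Type*} [DecidableEq β] (F : Finset α) (f : α → β)
    (T : Finset β) (hT : ∀ a ∈ F, f a ∈ T) (s K : ℝ)
    (hk : ∀ b ∈ T, ((F.filter (fun a => f a = b)).card : ℝ) * s ≤ K) :
    (F.card : ℝ) * s ≤ T.card * K := by
  rw [Finset.card_eq_sum_card_fiberwise (f := f) (t := T) (fun a ha => hT a ha)]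
  push_cast
  rw [Finset.sum_mul]
  calc ∑ b ∈ T, ((F.filter (fun a => f a = b)).card : ℝ) * s ≤ ∑ b ∈ T, K :=
        Finset.sum_le_sum hk
    _ = T.card * K := by rw [Finset.sum_const, nsmul_eq_mul]

theorem right_cancel {a K K' : M2} (hD : a.det ≠ 0) (h : K * a = K' * a) : K = K' := by
  have h1 : K * a * a.adjugate = K' * a * a.adjugate := by rw [h]
  rw [mul_assoc, mul_assoc, Matrix.mul_adjugate, mul_smul_comm, mul_smul_comm, mul_one,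
    mul_one] at h1
  exact smul_right_injective _ hD h1

theorem dvd_of_dvd_mul_gcd {ν c Ω : ℤ} (hν : 0 < ν) (h : ν ∣ c * Ω) :
    ∃ n : ℤ, 0 < n ∧ ν = n * (Int.gcd ν c : ℤ) ∧ n ∣ Ω := by
  have hg : 0 < Int.gcd ν c := Int.gcd_pos_of_ne_zero_left _ hν.ne'
  obtain ⟨n, c', hc, h1, h2⟩ := Int.exists_gcd_one hg
  have hgz : (0 : ℤ) < (Int.gcd ν c : ℤ) := by exact_mod_cast hg
  refine ⟨n, ?_, h1, ?_⟩
  · by_contra hcon
    push Not at hcon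
    have : ν ≤ 0 := by rw [h1]; exact mul_nonpos_of_nonpos_of_nonneg hcon hgz.le
    linarith
  · have h3 : n * (Int.gcd ν c : ℤ) ∣ (c' * Ω) * (Int.gcd ν c : ℤ) := by
      rw [← h1]
      have : c' * Ω * (Int.gcd ν c : ℤ) = c * Ω := by
        conv_rhs => rw [h2]
        ring
      rw [this]
      exact h
    have h4 := Int.dvd_of_mul_dvd_mul_right hgz.ne' h3
    exact (Int.isCoprime_iff_gcd_eq_one.mpr hc).dvd_of_dvd_mul_left h4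

/-- Counting primitive frames with a definite element of bounded size. -/
theorem frames_count {τ Z : ℕ} (hτ1 : 1 ≤ τ)
    (hτ : ∀ n : ℕ, 0 < n → n ≤ Z → n.divisors.card ≤ τ)
    {D1 D2 : ℤ} (hD1 : D1 ≠ 0) (hD2 : D2 ≠ 0) (E : M2 → M2 → M2) {DE B σ : ℤ} (hB : 0 ≤ B)
    (hσ0 : 0 ≤ σ)
    (hE : ∀ I0 J0 I J a : M2, a * I0 = I * a → a * J0 = J * a → a * E I0 J0 = E I J * a)
    (hσ : ∀ d : ℤ, 0 ≤ d → d ^ 2 ∣ 4 * D1 → d ≤ σ)
    (hZ1 : 4 * |D1 * D2| ≤ Z) (hZ2 : 3 * (4 * |D1 * D2| * B) ≤ Z)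
    (hDE : 0 < DE) (𝓕 : Finset (M2 × M2))
    (hF : ∀ P ∈ 𝓕, Fr D1 D2 P.1 P.2 ∧ Unim2 P.1 P.2 ∧
      (E P.1 P.2) 0 0 + (E P.1 P.2) 1 1 = 0 ∧ (E P.1 P.2).det = DE ∧
      |(E P.1 P.2) 0 1| ≤ B ∧ |(E P.1 P.2) 1 0| ≤ B) :
    (𝓕.card : ℝ) * Real.sqrt (DE : ℝ) ≤ τ * (τ * (240 * τ * σ * B)) := by
  classical
  have hBr : (0 : ℝ) ≤ B := by exact_mod_cast hB
  have hσr : (0 : ℝ) ≤ σ := by exact_mod_cast hσ0
  rcases 𝓕.eq_empty_or_nonempty with rfl | ⟨P0, hP0⟩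
  · simp only [Finset.card_empty, Nat.cast_zero, zero_mul]
    positivity
  have hFr0 := (hF P0 hP0).1
  have hU0 := (hF P0 hP0).2.1
  have hex : ∀ P ∈ 𝓕, ∃ (a : M2) (k1 k2 : ℤ), a.det ≠ 0 ∧ a * P0.1 = P.1 * a ∧
      a * P0.2 = P.2 * a ∧ IsCoprime k1 k2 ∧ a.det ∣ a 0 0 * k1 + a 0 1 * k2 ∧
      a.det ∣ a 1 0 * k1 + a 1 1 * k2 := by
    intro P hP
    obtain ⟨a, ha, hdet, h1, h2⟩ := exists_inter hD1 hD2 hFr0 (hF P hP).1
    obtain ⟨k1, k2, h3, h4, h5⟩ := exists_kernel ha hdet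
    exact ⟨a, k1, k2, hdet, h1, h2, h3, h4, h5⟩
  choose! a k1 k2 hdet hI hJ hk hk1 hk2 using hex
  have hD12 : D1 * D2 ≠ 0 := mul_ne_zero hD1 hD2
  have h4D : (4 * D1 * D2).natAbs ≠ 0 := by
    rw [Int.natAbs_ne_zero]
    have : 4 * D1 * D2 = 4 * (D1 * D2) := by ring
    rw [this]
    exact mul_ne_zero (by norm_num) hD12
  have h4Z : ((4 * D1 * D2).natAbs : ℤ) ≤ Z := by
    rw [Int.natCast_natAbs]
    have : 4 * D1 * D2 = 4 * (D1 * D2) := by ring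
    rw [this, abs_mul]
    simpa using hZ1
  have hPhiI : ∀ P ∈ 𝓕, (a P).det ∣ Phi P0.1 (k1 P) (k2 P) := fun P hP =>
    Phi_dvd (hI P hP) (hdet P hP) (hk1 P hP) (hk2 P hP)
  have hPhiJ : ∀ P ∈ 𝓕, (a P).det ∣ Phi P0.2 (k1 P) (k2 P) := fun P hP =>
    Phi_dvd (hJ P hP) (hdet P hP) (hk1 P hP) (hk2 P hP)
  have hdvd4 : ∀ P ∈ 𝓕, (a P).det ∣ 4 * D1 * D2 := by
    intro P hP
    obtain ⟨α, β, hαβ⟩ := hk P hP
    apply dvd_four (hFr0.cj (k1 := k1 P) (k2 := k2 P) hαβ)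
    · rw [cj10]; exact hPhiI P hP
    · rw [cj10]; exact hPhiJ P hP
  have hinj : Set.InjOn a (𝓕 : Set (M2 × M2)) := by
    intro P hP P' hP' h
    have e1 : P.1 * a P = P'.1 * a P := by rw [← hI P hP, h, ← hI P' hP']
    have e2 : P.2 * a P = P'.2 * a P := by rw [← hJ P hP, h, ← hJ P' hP']
    exact Prod.ext (right_cancel (hdet P hP) e1) (right_cancel (hdet P hP) e2)
  -- first fibration
  have hT : (((4 * D1 * D2).natAbs.divisors.card : ℕ) : ℝ) ≤ τ := by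
    exact_mod_cast hτ _ (Nat.pos_of_ne_zero h4D) (by exact_mod_cast h4Z)
  have hK : (0 : ℝ) ≤ τ * (240 * τ * σ * B) := by positivity
  refine (card_le_fiber_real 𝓕 (fun P => (a P).det.natAbs) (4 * D1 * D2).natAbs.divisors
    (fun P hP => ?_) _ (τ * (240 * τ * σ * B)) ?_).trans (mul_le_mul_of_nonneg_right hT hK)
  · rw [Nat.mem_divisors]
    exact ⟨Int.natAbs_dvd_natAbs.mpr (hdvd4 P hP), h4D⟩
  intro ν hνmem
  rw [Nat.mem_divisors] at hνmem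
  have hν0 : 0 < ν := Nat.pos_of_dvd_of_pos hνmem.1 (Nat.pos_of_ne_zero h4D)
  have hνle : ν ≤ (4 * D1 * D2).natAbs := Nat.le_of_dvd (Nat.pos_of_ne_zero h4D) hνmem.1
  have hνZ : ν ≤ Z := by
    have : (ν : ℤ) ≤ Z := le_trans (by exact_mod_cast hνle) h4Z
    exact_mod_cast this
  have hνz : (0 : ℤ) < ν := by exact_mod_cast hν0
  set 𝓕1 := 𝓕.filter (fun P => (a P).det.natAbs = ν) with h𝓕1
  rcases 𝓕1.eq_empty_or_nonempty with hemp | ⟨P1, hP1⟩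
  · rw [hemp]
    simp only [Finset.card_empty, Nat.cast_zero, zero_mul]
    exact hK
  have h1mem : ∀ P ∈ 𝓕1, P ∈ 𝓕 ∧ (a P).det.natAbs = ν := fun P hP => Finset.mem_filter.mp hP
  have hνdvd : ∀ P ∈ 𝓕1, ∀ x : ℤ, (a P).det ∣ x → (ν : ℤ) ∣ x := by
    intro P hP x hx
    have := (h1mem P hP).2
    rw [← this, Int.natCast_natAbs]
    exact (abs_dvd _ _).mpr hx
  obtain ⟨α, β, hαβ⟩ := hk P1 (h1mem P1 hP1).1
  set κ1 := k1 P1 with hκ1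
  set κ2 := k2 P1 with hκ2
  set I' := cj κ1 κ2 α β P0.1 with hI'
  set J' := cj κ1 κ2 α β P0.2 with hJ'
  have hFr' : Fr D1 D2 I' J' := hFr0.cj hαβ
  have hU' : Unim2 I' J' := hU0.cj hαβ
  have hνI' : (ν : ℤ) ∣ I' 1 0 := by
    rw [hI', cj10]
    exact hνdvd P1 hP1 _ (hPhiI P1 (h1mem P1 hP1).1)
  have hνJ' : (ν : ℤ) ∣ J' 1 0 := by
    rw [hJ', cj10]
    exact hνdvd P1 hP1 _ (hPhiJ P1 (h1mem P1 hP1).1)
  let w1 : M2 × M2 → ℤ := fun P => α * k1 P + β * k2 P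
  let w2 : M2 × M2 → ℤ := fun P => -κ2 * k1 P + κ1 * k2 P
  have hw : ∀ P ∈ 𝓕1, IsCoprime (w1 P) (w2 P) ∧ (ν : ℤ) ∣ Phi I' (w1 P) (w2 P) ∧
      (ν : ℤ) ∣ Phi J' (w1 P) (w2 P) := by
    intro P hP
    have hP' := (h1mem P hP).1
    have e1 : κ1 * w1 P - β * w2 P = k1 P := by
      change κ1 * (α * k1 P + β * k2 P) - β * (-κ2 * k1 P + κ1 * k2 P) = k1 P
      linear_combination (k1 P) * hαβ
    have e2 : κ2 * w1 P + α * w2 P = k2 P := by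
      change κ2 * (α * k1 P + β * k2 P) + α * (-κ2 * k1 P + κ1 * k2 P) = k2 P
      linear_combination (k2 P) * hαβ
    refine ⟨?_, ?_, ?_⟩
    · obtain ⟨x, y, hxy⟩ := hk P hP'
      refine ⟨x * κ1 + y * κ2, -x * β + y * α, ?_⟩
      rw [← hxy, ← e1, ← e2]
      ring
    · rw [hI', Phi_cj, e1, e2]
      exact hνdvd P hP _ (hPhiI P hP')
    · rw [hJ', Phi_cj, e1, e2]
      exact hνdvd P hP _ (hPhiJ P hP')
  -- second fibration
  have hT2 : ((ν.divisors.card : ℕ) : ℝ) ≤ τ := by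
    exact_mod_cast hτ _ hν0 hνZ
  have hK2 : (0 : ℝ) ≤ 240 * τ * σ * B := by positivity
  refine (card_le_fiber_real 𝓕1 (fun P => Int.gcd ν (w2 P)) ν.divisors
    (fun P hP => ?_) _ (240 * τ * σ * B) ?_).trans (mul_le_mul_of_nonneg_right hT2 hK2)
  · rw [Nat.mem_divisors]
    refine ⟨?_, hν0.ne'⟩
    have : ((Int.gcd ν (w2 P) : ℕ) : ℤ) ∣ (ν : ℤ) := Int.gcd_dvd_left ..
    exact_mod_cast this
  intro δ hδmem
  set 𝓕2 := 𝓕1.filter (fun P => Int.gcd ν (w2 P) = δ) with h𝓕2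
  rcases 𝓕2.eq_empty_or_nonempty with hemp | ⟨P2, hP2⟩
  · rw [hemp]
    simp only [Finset.card_empty, Nat.cast_zero, zero_mul]
    exact hK2
  have h2mem : ∀ P ∈ 𝓕2, P ∈ 𝓕1 ∧ Int.gcd ν (w2 P) = δ := fun P hP => Finset.mem_filter.mp hP
  have hδpos : 0 < δ := by
    rw [← (h2mem P2 hP2).2]
    exact Int.gcd_pos_of_ne_zero_left _ hνz.ne'
  -- factorisation
  have hfac : ∀ P ∈ 𝓕2, ∃ d2 ω : ℤ, (ν : ℤ) = δ * d2 ∧ w2 P = δ * ω ∧ IsCoprime ω d2 := by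
    intro P hP
    have hg : 0 < Int.gcd ν (w2 P) := Int.gcd_pos_of_ne_zero_left _ hνz.ne'
    obtain ⟨d2, ω, hc, e1, e2⟩ := Int.exists_gcd_one hg
    rw [(h2mem P hP).2] at e1 e2
    refine ⟨d2, ω, by rw [e1]; ring, by rw [e2]; ring, ?_⟩
    exact (Int.isCoprime_iff_gcd_eq_one.mpr hc).symm
  obtain ⟨d2, ω', hν2, hω', cω'⟩ := hfac P2 hP2
  have hδz : (δ : ℤ) ≠ 0 := by exact_mod_cast hδpos.ne'
  have key : ∀ P ∈ 𝓕2, ((Int.gcd δ d2 : ℤ)) ^ 2 ∣ 4 * D1 ∧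
      (ν : ℤ) ∣ 2 * (Int.gcd δ d2 : ℤ) * (k1 P * k2 P2 - k2 P * k1 P2) := by
    intro P hP
    obtain ⟨d2', ω, hν2', hω, cω⟩ := hfac P hP
    have hd2 : d2' = d2 := by
      apply mul_left_cancel₀ hδz
      rw [← hν2, ← hν2']
    rw [hd2] at cω
    obtain ⟨c1, c2, c3⟩ := hw P (h2mem P hP).1
    obtain ⟨c1', c2', c3'⟩ := hw P2 (h2mem P2 hP2).1
    rw [hω] at c1 c2 c3
    rw [hω'] at c2' c3'
    rw [hν2] at c2 c3 c2' c3'
    have := key_norm hFr' hU' (hν2 ▸ hνI') (hν2 ▸ hνJ') hδz c1 cω cω' c2 c3 c2' c3'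
    refine ⟨this.1, ?_⟩
    have e : w1 P * (δ * ω') - (δ * ω) * w1 P2 = k1 P * k2 P2 - k2 P * k1 P2 := by
      rw [← hω, ← hω']
      change (α * k1 P + β * k2 P) * (-κ2 * k1 P2 + κ1 * k2 P2) -
        (-κ2 * k1 P + κ1 * k2 P) * (α * k1 P2 + β * k2 P2) = _
      linear_combination (k1 P * k2 P2 - k2 P * k1 P2) * hαβ
    rw [e, ← hν2] at this
    exact this.2
  set d3 : ℤ := (Int.gcd δ d2 : ℤ) with hd3
  have hd3σ : d3 ≤ σ := hσ d3 (Int.natCast_nonneg _) (key P2 hP2).1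
  -- n
  have hgν : ∃ n : ℤ, 0 < n ∧ (ν : ℤ) = n * (Int.gcd ν (2 * d3) : ℤ) ∧
      ∀ P ∈ 𝓕2, n ∣ k1 P * k2 P2 - k2 P * k1 P2 := by
    obtain ⟨n, hn, hn1, -⟩ := dvd_of_dvd_mul_gcd hνz (key P2 hP2).2
    refine ⟨n, hn, hn1, fun P hP => ?_⟩
    obtain ⟨n', hn', hn1', h3⟩ := dvd_of_dvd_mul_gcd hνz (key P hP).2
    have hg : (0 : ℤ) < (Int.gcd ν (2 * d3) : ℤ) := by
      exact_mod_cast Int.gcd_pos_of_ne_zero_left _ hνz.ne'
    have : n = n' := by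
      apply mul_right_cancel₀ hg.ne'
      rw [← hn1, ← hn1']
    rw [this]
    exact h3
  obtain ⟨n, hn, hn1, hnΩ⟩ := hgν
  have hnν : n ∣ (ν : ℤ) := ⟨_, hn1⟩
  -- the matrices
  set 𝒜 := 𝓕2.image a with h𝒜
  have hcard : 𝒜.card = 𝓕2.card := by
    rw [h𝒜]
    apply Finset.card_image_of_injOn
    intro P hP P' hP' h
    exact hinj (h1mem P (h2mem P hP).1).1 (h1mem P' (h2mem P' hP').1).1 h
  have h𝒜det : ∀ x ∈ 𝒜, x.det = ν ∨ x.det = -ν := by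
    intro x hx
    obtain ⟨P, hP, rfl⟩ := Finset.mem_image.mp hx
    have := (h1mem P (h2mem P hP).1).2
    rw [← this]
    exact Int.natAbs_eq _
  have h𝒜k : ∀ x ∈ 𝒜, n ∣ x 0 0 * k1 P2 + x 0 1 * k2 P2 ∧ n ∣ x 1 0 * k1 P2 + x 1 1 * k2 P2 := by
    intro x hx
    obtain ⟨P, hP, rfl⟩ := Finset.mem_image.mp hx
    have hP1' := (h2mem P hP).1
    have hP' := (h1mem P hP1').1
    obtain ⟨μ, l, hμ⟩ := hk P hP'
    have z1 : n ∣ a P 0 0 * k1 P + a P 0 1 * k2 P := hnν.trans (hνdvd P hP1' _ (hk1 P hP'))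
    have z2 : n ∣ a P 1 0 * k1 P + a P 1 1 * k2 P := hnν.trans (hνdvd P hP1' _ (hk2 P hP'))
    have z3 := hnΩ P hP
    have e : ∀ x y : ℤ, x * k1 P2 + y * k2 P2 =
        (μ * k1 P2 + l * k2 P2) * (x * k1 P + y * k2 P) +
        (k1 P * k2 P2 - k2 P * k1 P2) * (-l * x + μ * y) := by
      intro x y
      linear_combination (-(x * k1 P2 + y * k2 P2)) * hμ
    constructor
    · rw [e]
      exact dvd_add (Dvd.dvd.mul_left z1 _) (Dvd.dvd.mul_right z3 _)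
    · rw [e]
      exact dvd_add (Dvd.dvd.mul_left z2 _) (Dvd.dvd.mul_right z3 _)
  set E0 := E P0.1 P0.2 with hE0
  have tE0 : E0 0 0 + E0 1 1 = 0 := (hF P0 hP0).2.2.1
  have dE0 : E0.det = DE := (hF P0 hP0).2.2.2.1
  have hrow : ∀ x ∈ 𝒜, |qf (-E0 0 1) (E0 0 0) (E0 1 0) (x 0 0) (x 0 1)| ≤ ν * B ∧
      |qf (-E0 0 1) (E0 0 0) (E0 1 0) (x 1 0) (x 1 1)| ≤ ν * B := by
    intro x hx
    obtain ⟨P, hP, rfl⟩ := Finset.mem_image.mp hx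
    have hP1' := (h2mem P hP).1
    have hP' := (h1mem P hP1').1
    obtain ⟨r1, r2⟩ := rows_of_inter (hE _ _ _ _ _ (hI P hP') (hJ P hP')) tE0
    have hb1 := (hF P hP').2.2.2.2.1
    have hb2 := (hF P hP').2.2.2.2.2
    have habs : |(a P).det| = ν := by
      rw [← (h1mem P hP1').2, Int.natCast_natAbs]
    rw [r1, r2, abs_mul, abs_mul, habs, abs_neg]
    exact ⟨mul_le_mul_of_nonneg_left hb1 hνz.le, mul_le_mul_of_nonneg_left hb2 hνz.le⟩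
  have hΔ : (-E0 0 1) * (E0 1 0) - (E0 0 0) ^ 2 = DE := by
    rw [← dE0, Matrix.det_fin_two]
    have : E0 1 1 = -E0 0 0 := by linarith
    rw [this]; ring
  have hνB : 3 * ((ν : ℤ) * B) ≤ Z := by
    have h1 : (ν : ℤ) ≤ 4 * |D1 * D2| := by
      have : ((4 * D1 * D2).natAbs : ℤ) = 4 * |D1 * D2| := by
        rw [Int.natCast_natAbs]
        have : 4 * D1 * D2 = 4 * (D1 * D2) := by ring
        rw [this, abs_mul]; simp
      rw [← this]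
      exact_mod_cast hνle
    have h2 : (ν : ℤ) * B ≤ 4 * |D1 * D2| * B := mul_le_mul_of_nonneg_right h1 hB
    linarith
  have hνB0 : 0 ≤ (ν : ℤ) * B := mul_nonneg hνz.le hB
  have hcoprime : IsCoprime (k1 P2) (k2 P2) := hk P2 (h1mem P2 (h2mem P2 hP2).1).1
  have hA0 : -E0 0 1 ≠ 0 := by
    intro h0
    rw [h0, zero_mul, zero_sub] at hΔ
    have := sq_nonneg (E0 0 0)
    linarith
  have hmain : (𝒜.card : ℝ) * ((n : ℝ) * Real.sqrt ((DE : ℤ) : ℝ)) ≤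
      120 * τ * ((ν : ℤ) * B : ℤ) := by
    rcases lt_or_gt_of_ne hA0 with hneg | hpos
    · have hΔn : (-(-E0 0 1)) * (-E0 1 0) - (-E0 0 0) ^ 2 = DE := by rw [← hΔ]; ring
      have := class_count hτ1 hτ (A := -(-E0 0 1)) (H := -E0 0 0) (C := -E0 1 0)
        (ν := (ν : ℤ)) (n := n) (b := (ν : ℤ) * B) (l1 := k1 P2) (l2 := k2 P2)
        (by linarith) (by rw [hΔn]; exact hDE) hνz.ne' hn hnν hcoprime hνB0 hνB 𝒜 h𝒜det h𝒜k
        (fun x hx => by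
          obtain ⟨q1, q2⟩ := hrow x hx
          have e : ∀ u v : ℤ, qf (-(-E0 0 1)) (-E0 0 0) (-E0 1 0) u v =
            -qf (-E0 0 1) (E0 0 0) (E0 1 0) u v := by
            intro u v; unfold qf; ring
          rw [e, e]
          exact ⟨(neg_le_abs _).trans q1, (neg_le_abs _).trans q2⟩)
      rw [hΔn] at this
      exact this
    · have := class_count hτ1 hτ (A := -E0 0 1) (H := E0 0 0) (C := E0 1 0)
        (ν := (ν : ℤ)) (n := n) (b := (ν : ℤ) * B) (l1 := k1 P2) (l2 := k2 P2)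
        hpos (by rw [hΔ]; exact hDE) hνz.ne' hn hnν hcoprime hνB0 hνB 𝒜 h𝒜det h𝒜k
        (fun x hx => by
          obtain ⟨q1, q2⟩ := hrow x hx
          exact ⟨(le_abs_self _).trans q1, (le_abs_self _).trans q2⟩)
      rw [hΔ] at this
      exact this
  rw [hcard] at hmain
  have hg2 : ((Int.gcd ν (2 * d3) : ℕ) : ℤ) ≤ 2 * d3 := by
    by_cases hd30 : d3 = 0
    · exfalso
      have h1 := (key P2 hP2).1
      rw [hd30] at h1
      simp at h1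
      exact hD1 h1
    · have h2 : 0 < 2 * d3 := by
        have : 0 ≤ d3 := Int.natCast_nonneg _
        omega
      exact Int.le_of_dvd h2 (Int.gcd_dvd_right ..)
  have hnr : (0 : ℝ) < n := by exact_mod_cast hn
  have hg3 : ((Int.gcd ν (2 * d3) : ℕ) : ℝ) ≤ 2 * σ := by
    have : ((Int.gcd ν (2 * d3) : ℕ) : ℤ) ≤ 2 * σ := by linarith
    exact_mod_cast this
  have e1 : (((ν : ℤ) * B : ℤ) : ℝ) = (n : ℝ) * ((Int.gcd ν (2 * d3) : ℕ) : ℝ) * B := by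
    have h1 : (((ν : ℤ) * B : ℤ) : ℝ) = ((ν : ℤ) : ℝ) * (B : ℝ) := by push_cast; ring
    have h2 : ((ν : ℤ) : ℝ) = (n : ℝ) * ((Int.gcd ν (2 * d3) : ℕ) : ℝ) := by
      exact_mod_cast congrArg (fun x : ℤ => (x : ℝ)) hn1
    rw [h1, h2]
  rw [e1] at hmain
  have h5 : (n : ℝ) * ((𝓕2.card : ℝ) * Real.sqrt ((DE : ℤ) : ℝ)) ≤
      (n : ℝ) * (240 * τ * σ * B) := by
    calc (n : ℝ) * ((𝓕2.card : ℝ) * Real.sqrt ((DE : ℤ) : ℝ)) =
        (𝓕2.card : ℝ) * ((n : ℝ) * Real.sqrt ((DE : ℤ) : ℝ)) := by ring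
      _ ≤ 120 * τ * ((n : ℝ) * ((Int.gcd ν (2 * d3) : ℕ) : ℝ) * B) := hmain
      _ ≤ 120 * τ * ((n : ℝ) * (2 * σ) * B) := by gcongr
      _ = (n : ℝ) * (240 * τ * σ * B) := by ring
  exact le_of_mul_le_mul_left h5 hnr

end Pool.Agent.Helper89.SLE
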