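import Pool.Agent.Helper89.SLE.Kernel

/-!
# Intertwiners
-/

set_option autoImplicit false

namespace Pool.Agent.Helper89.SLE

open Finset Matrix

theorem entries_of_eq {a I0 I : M2} (h : a * I0 = I * a) :
    (a 0 0 * I0 0 0 + a 0 1 * I0 1 0 = I 0 0 * a 0 0 + I 0 1 * a 1 0) ∧
    (a 0 0 * I0 0 1 + a 0 1 * I0 1 1 = I 0 0 * a 0 1 + I 0 1 * a 1 1) ∧
    (a 1 0 * I0 0 0 + a 1 1 * I0 1 0 = I 1 0 * a 0 0 + I 1 1 * a 1 0) ∧
    (a 1 0 * I0 0 1 + a 1 1 * I0 1 1 = I 1 0 * a 0 1 + I 1 1 * a 1 1) := by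
  refine ⟨?_, ?_, ?_, ?_⟩
  · rw [← mul00, ← mul00, h]
  · rw [← mul01, ← mul01, h]
  · rw [← mul10, ← mul10, h]
  · rw [← mul11, ← mul11, h]

theorem Phi_inter {a I0 I : M2} (h : a * I0 = I * a) (k1 k2 : ℤ) :
    a.det * Phi I0 k1 k2 = Phi I (a 0 0 * k1 + a 0 1 * k2) (a 1 0 * k1 + a 1 1 * k2) := by
  obtain ⟨h1, h2, h3, h4⟩ := entries_of_eq h
  rw [Matrix.det_fin_two]
  unfold Phi
  linear_combination (-(a 1 0 * k1 + a 1 1 * k2) * k1) * h1 + (-(a 1 0 * k1 + a 1 1 * k2) * k2) * h2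
    + ((a 0 0 * k1 + a 0 1 * k2) * k1) * h3 + ((a 0 0 * k1 + a 0 1 * k2) * k2) * h4

theorem Phi_dvd {a I0 I : M2} (h : a * I0 = I * a) (hD : a.det ≠ 0) {k1 k2 : ℤ}
    (h1 : a.det ∣ a 0 0 * k1 + a 0 1 * k2) (h2 : a.det ∣ a 1 0 * k1 + a 1 1 * k2) :
    a.det ∣ Phi I0 k1 k2 := by
  have e := Phi_inter h k1 k2
  obtain ⟨u1, hu1⟩ := h1
  obtain ⟨u2, hu2⟩ := h2
  rw [hu1, hu2] at e
  refine ⟨Phi I u1 u2, ?_⟩
  apply mul_left_cancel₀ hD
  rw [e]
  unfold Phi
  ring

theorem det_ne_zero_of_inter {D1 D2 : ℤ} (hD1 : D1 ≠ 0) (hD2 : D2 ≠ 0) {I J I0 J0 a : M2}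
    (h0 : Fr D1 D2 I0 J0) (ha : a ≠ 0) (hI : a * I0 = I * a) (hJ : a * J0 = J * a) :
    a.det ≠ 0 := by
  intro hdet
  have hd := hdet
  rw [Matrix.det_fin_two] at hd
  -- nonzero kernel vector
  obtain ⟨u, v, huv, k1, k2⟩ : ∃ u v : ℤ, ¬ (u = 0 ∧ v = 0) ∧ a 0 0 * u + a 0 1 * v = 0 ∧
      a 1 0 * u + a 1 1 * v = 0 := by
    by_cases h1 : a 1 1 = 0 ∧ a 1 0 = 0
    · refine ⟨-a 0 1, a 0 0, ?_, by ring, by linear_combination hd⟩
      rintro ⟨h2, h3⟩
      apply ha
      apply M2_ext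
      · exact h3
      · exact neg_eq_zero.mp h2
      · exact h1.2
      · exact h1.1
    · refine ⟨a 1 1, -a 1 0, ?_, by linear_combination hd, by ring⟩
      rintro ⟨h2, h3⟩
      exact h1 ⟨h2, neg_eq_zero.mp h3⟩
  have hg : 0 < Int.gcd u v := by
    rw [Nat.pos_iff_ne_zero, Ne, Int.gcd_eq_zero_iff]
    exact huv
  obtain ⟨u', v', hc, hu, hv⟩ := Int.exists_gcd_one hg
  have hgz : (Int.gcd u v : ℤ) ≠ 0 := by exact_mod_cast hg.ne'
  have k1' : a 0 0 * u' + a 0 1 * v' = 0 := by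
    apply mul_right_cancel₀ hgz
    rw [zero_mul]
    calc (a 0 0 * u' + a 0 1 * v') * (Int.gcd u v : ℤ) =
        a 0 0 * (u' * (Int.gcd u v : ℤ)) + a 0 1 * (v' * (Int.gcd u v : ℤ)) := by ring
      _ = 0 := by rw [← hu, ← hv]; exact k1
  have k2' : a 1 0 * u' + a 1 1 * v' = 0 := by
    apply mul_right_cancel₀ hgz
    rw [zero_mul]
    calc (a 1 0 * u' + a 1 1 * v') * (Int.gcd u v : ℤ) =
        a 1 0 * (u' * (Int.gcd u v : ℤ)) + a 1 1 * (v' * (Int.gcd u v : ℤ)) := by ring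
      _ = 0 := by rw [← hu, ← hv]; exact k2
  have hPhi : ∀ {K0 K : M2}, a * K0 = K * a → Phi K0 u' v' = 0 := by
    intro K0 K hK
    obtain ⟨h1, h2, h3, h4⟩ := entries_of_eq hK
    -- a * (K0 k) = 0
    set p := K0 0 0 * u' + K0 0 1 * v' with hp
    set q := K0 1 0 * u' + K0 1 1 * v' with hq
    have e1 : a 0 0 * p + a 0 1 * q = 0 := by
      rw [hp, hq]
      linear_combination u' * h1 + v' * h2 + K 0 0 * k1' + K 0 1 * k2'
    have e2 : a 1 0 * p + a 1 1 * q = 0 := by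
      rw [hp, hq]
      linear_combination u' * h3 + v' * h4 + K 1 0 * k1' + K 1 1 * k2'
    have e3 : Phi K0 u' v' = u' * q - v' * p := by rw [Phi]
    rw [e3]
    by_contra hne
    apply ha
    apply M2_ext
    · apply mul_right_cancel₀ hne
      change a 0 0 * _ = 0 * _
      rw [zero_mul]
      linear_combination q * k1' - v' * e1
    · apply mul_right_cancel₀ hne
      change a 0 1 * _ = 0 * _
      rw [zero_mul]
      linear_combination u' * e1 - p * k1'
    · apply mul_right_cancel₀ hne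
      change a 1 0 * _ = 0 * _
      rw [zero_mul]
      linear_combination q * k2' - v' * e2
    · apply mul_right_cancel₀ hne
      change a 1 1 * _ = 0 * _
      rw [zero_mul]
      linear_combination u' * e2 - p * k2'
  have hcop : IsCoprime u' v' := Int.isCoprime_iff_gcd_eq_one.mpr hc
  obtain ⟨α, β, hαβ⟩ := hcop
  have hF := h0.cj (k1 := u') (k2 := v') hαβ
  have h5 : (0 : ℤ) ∣ 4 * D1 * D2 := by
    apply dvd_four hF
    · rw [cj10, hPhi hI]
    · rw [cj10, hPhi hJ]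
  rw [zero_dvd_iff] at h5
  rcases mul_eq_zero.mp h5 with h6 | h6
  · apply hD1; linarith
  · exact hD2 h6

/-- Primitive integral intertwiners. -/
theorem exists_inter {D1 D2 : ℤ} (hD1 : D1 ≠ 0) (hD2 : D2 ≠ 0) {I J I0 J0 : M2}
    (h0 : Fr D1 D2 I0 J0) (h : Fr D1 D2 I J) :
    ∃ a : M2, Unim a ∧ a.det ≠ 0 ∧ a * I0 = I * a ∧ a * J0 = J * a := by
  obtain ⟨c, hc⟩ := exists_avg_ne (I0 := I0) (J0 := J0) hD1 hD2 h
  obtain ⟨g, a, hg, hga, hU⟩ := exists_content _ hc
  have hI : a * I0 = I * a := by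
    have := avg_I h h0 c
    rw [hga, smul_mul_assoc, mul_smul_comm] at this
    exact smul_right_injective _ hg.ne' this
  have hJ : a * J0 = J * a := by
    have := avg_J h h0 c
    rw [hga, smul_mul_assoc, mul_smul_comm] at this
    exact smul_right_injective _ hg.ne' this
  have ha : a ≠ 0 := by
    rintro rfl
    apply hc
    rw [hga, smul_zero]
  exact ⟨a, hU, det_ne_zero_of_inter hD1 hD2 h0 ha hI hJ, hI, hJ⟩

/-- A primitive kernel vector modulo the determinant. -/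
theorem exists_kernel {a : M2} (hU : Unim a) (hD : a.det ≠ 0) :
    ∃ k1 k2 : ℤ, IsCoprime k1 k2 ∧ a.det ∣ a 0 0 * k1 + a 0 1 * k2 ∧
      a.det ∣ a 1 0 * k1 + a 1 1 * k2 := by
  classical
  set S : Finset ℕ := a.det.natAbs.primeFactors.filter
    (fun l => ¬ ((l : ℤ) ∣ a 1 1 ∧ (l : ℤ) ∣ a 1 0)) with hS
  set y : ℤ := ∏ l ∈ S, (l : ℤ) with hy
  refine ⟨a 1 1 - a 0 1 * y, -a 1 0 + a 0 0 * y, ?_, ?_, ?_⟩
  · apply isCoprime_of_prime_dvd
    · rintro ⟨h1, h2⟩
      apply hD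
      rw [Matrix.det_fin_two]
      linear_combination a 0 0 * h1 + a 0 1 * h2
    · intro z hz hz1 hz2
      have hzD : z ∣ a.det := by
        have : a.det = a 0 0 * (a 1 1 - a 0 1 * y) + a 0 1 * (-a 1 0 + a 0 0 * y) := by
          rw [Matrix.det_fin_two]; ring
        rw [this]
        exact dvd_add (Dvd.dvd.mul_left hz1 _) (Dvd.dvd.mul_left hz2 _)
      have hzp : z.natAbs.Prime := Int.prime_iff_natAbs_prime.mp hz
      have hzl : ∀ x : ℤ, ((z.natAbs : ℕ) : ℤ) ∣ x ↔ z ∣ x := by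
        intro x
        rw [Int.natCast_natAbs, abs_dvd]
      have hmem : z.natAbs ∈ a.det.natAbs.primeFactors := by
        rw [Nat.mem_primeFactors]
        exact ⟨hzp, Int.natAbs_dvd_natAbs.mpr hzD, Int.natAbs_ne_zero.mpr hD⟩
      by_cases hc : z ∣ a 1 1 ∧ z ∣ a 1 0
      · have hzy : ¬ z ∣ y := by
          intro hzy
          rw [hy, hz.dvd_finsetProd_iff] at hzy
          obtain ⟨l, hl, hzl'⟩ := hzy
          rw [hS, Finset.mem_filter] at hl
          have hlp := Nat.prime_of_mem_primeFactors hl.1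
          have h3 : z.natAbs ∣ l := by
            have := Int.natAbs_dvd_natAbs.mpr hzl'
            simpa using this
          have h4 : z.natAbs = l := (Nat.prime_dvd_prime_iff_eq hzp hlp).mp h3
          apply hl.2
          rw [← h4, hzl, hzl]
          exact hc
        have h5 : z ∣ a 0 1 * y := (dvd_sub_right hc.1).mp hz1
        have h6 : z ∣ a 0 0 * y := by
          have := hc.2.neg_right
          exact (dvd_add_right this).mp hz2
        have h7 : z ∣ a 0 1 := (hz.dvd_or_dvd h5).resolve_right hzy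
        have h8 : z ∣ a 0 0 := (hz.dvd_or_dvd h6).resolve_right hzy
        have h9 : z ∣ 1 := by
          apply hU z 1
          intro i j
          rw [one_mul]
          fin_cases i <;> fin_cases j
          · exact h8
          · exact h7
          · exact hc.2
          · exact hc.1
        exact hz.not_isUnit (isUnit_of_dvd_one h9)
      · have hzS : z.natAbs ∈ S := by
          rw [hS, Finset.mem_filter]
          refine ⟨hmem, ?_⟩
          rw [hzl, hzl]
          exact hc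
        have hzy : z ∣ y := by
          rw [← hzl, hy]
          exact Finset.dvd_prod_of_mem (fun l : ℕ => (l : ℤ)) hzS
        apply hc
        refine ⟨?_, ?_⟩
        · exact (dvd_sub_left (Dvd.dvd.mul_left hzy _)).mp hz1
        · have := (dvd_add_left (Dvd.dvd.mul_left hzy (a 0 0))).mp hz2
          exact (dvd_neg).mp this
  · refine ⟨1, ?_⟩
    rw [Matrix.det_fin_two]; ring
  · refine ⟨y, ?_⟩
    rw [Matrix.det_fin_two]; ring

end Pool.Agent.Helper89.SLE
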