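import Pool.Agent.Helper89.SLE.Frame

/-!
# Kernel vectors of intertwiners
-/

set_option autoImplicit false

namespace Pool.Agent.Helper89.SLE

open Finset Matrix

/-- `k ∧ I k`. -/
def Phi (I : M2) (k1 k2 : ℤ) : ℤ :=
  k1 * (I 1 0 * k1 + I 1 1 * k2) - k2 * (I 0 0 * k1 + I 0 1 * k2)

/-- Base change with first basis vector `(k1, k2)`; `α * k1 + β * k2 = 1`. -/
def cj (k1 k2 α β : ℤ) (I : M2) : M2 := !![α, β; -k2, k1] * I * !![k1, -β; k2, α]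

theorem cj00 (k1 k2 α β : ℤ) (I : M2) : cj k1 k2 α β I 0 0 =
    α * (I 0 0 * k1 + I 0 1 * k2) + β * (I 1 0 * k1 + I 1 1 * k2) := by
  simp only [cj, mul00, mul01]; simp; ring
theorem cj01 (k1 k2 α β : ℤ) (I : M2) : cj k1 k2 α β I 0 1 =
    α * (-β * I 0 0 + α * I 0 1) + β * (-β * I 1 0 + α * I 1 1) := by
  simp only [cj, mul00, mul01]; simp; ring
theorem cj10 (k1 k2 α β : ℤ) (I : M2) : cj k1 k2 α β I 1 0 = Phi I k1 k2 := by
  simp only [cj, mul10, mul11, Phi]; simp; ring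
theorem cj11 (k1 k2 α β : ℤ) (I : M2) : cj k1 k2 α β I 1 1 =
    -k2 * (-β * I 0 0 + α * I 0 1) + k1 * (-β * I 1 0 + α * I 1 1) := by
  simp only [cj, mul10, mul11]; simp; ring

theorem Phi_cj (k1 k2 α β : ℤ) (I : M2) (w1 w2 : ℤ) :
    Phi (cj k1 k2 α β I) w1 w2 = Phi I (k1 * w1 - β * w2) (k2 * w1 + α * w2) := by
  rw [Phi, cj00, cj01, cj10, cj11, Phi, Phi]
  ring

theorem Phi_tr {I : M2} (tI : I 0 0 + I 1 1 = 0) (w1 w2 : ℤ) :
    Phi I w1 w2 = I 1 0 * w1 ^ 2 - w2 * (2 * I 0 0 * w1 + I 0 1 * w2) := by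
  have h : I 1 1 = -I 0 0 := by linarith
  rw [Phi, h]; ring

theorem Fr.cj {D1 D2 : ℤ} {I J : M2} (h : Fr D1 D2 I J) {k1 k2 α β : ℤ}
    (hk : α * k1 + β * k2 = 1) : Fr D1 D2 (cj k1 k2 α β I) (cj k1 k2 α β J) := by
  have t1 := h.tI
  have t2 := h.tJ
  have t3 := h.tIJ
  have d1 := h.dI
  have d2 := h.dJ
  have hg : (!![k1, -β; k2, α] : M2) * !![α, β; -k2, k1] = 1 := by
    apply M2_ext
    · rw [mul00]; simp; linear_combination hk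
    · rw [mul01]; simp; ring
    · rw [mul10]; simp; ring
    · rw [mul11]; simp; linear_combination hk
  have hdet1 : (!![k1, -β; k2, α] : M2).det = 1 := by
    rw [Matrix.det_fin_two]; simp; linear_combination hk
  have hdet2 : (!![α, β; -k2, k1] : M2).det = 1 := by
    rw [Matrix.det_fin_two]; simp; linear_combination hk
  have htr : ∀ A : M2, (SLE.cj k1 k2 α β A) 0 0 + (SLE.cj k1 k2 α β A) 1 1 = A 0 0 + A 1 1 := by
    intro A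
    rw [cj00, cj11]
    linear_combination (A 0 0 + A 1 1) * hk
  have hmul : SLE.cj k1 k2 α β I * SLE.cj k1 k2 α β J = SLE.cj k1 k2 α β (I * J) := by
    unfold SLE.cj
    calc _ = !![α, β; -k2, k1] * I * ((!![k1, -β; k2, α] : M2) * !![α, β; -k2, k1]) * J
          * !![k1, -β; k2, α] := by simp only [mul_assoc]
      _ = _ := by rw [hg, mul_one]; simp only [mul_assoc]
  refine ⟨?_, ?_, ?_, ?_, ?_⟩
  · rw [htr, t1]
  · rw [htr, t2]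
  · rw [hmul, htr, t3]
  · unfold SLE.cj
    rw [Matrix.det_mul, Matrix.det_mul, hdet1, hdet2, d1]; ring
  · unfold SLE.cj
    rw [Matrix.det_mul, Matrix.det_mul, hdet1, hdet2, d2]; ring

theorem dvd_cj {d X : ℤ} {A : M2} {k1 k2 α β : ℤ} (hk : α * k1 + β * k2 = 1)
    (h : ∀ i j, d ∣ X * cj k1 k2 α β A i j) : ∀ i j, d ∣ X * A i j := by
  obtain ⟨a, ha⟩ := h 0 0
  obtain ⟨b, hb⟩ := h 0 1
  obtain ⟨c, hc⟩ := h 1 0
  obtain ⟨e, he⟩ := h 1 1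
  rw [cj00] at ha
  rw [cj01] at hb
  rw [cj10, Phi] at hc
  rw [cj11] at he
  have hk2 : (α * k1 + β * k2) ^ 2 = 1 := by rw [hk]; norm_num
  intro i j
  fin_cases i <;> fin_cases j
  · refine ⟨k1 * a * α - β * c * α - k2 * (k1 * b - β * e), ?_⟩
    change X * A 0 0 = _
    linear_combination (-(X * A 0 0)) * hk2 + k1 * α * ha - β * α * hc - k2 * k1 * hb
      + k2 * β * he
  · refine ⟨(k1 * a - β * c) * β + k1 * (k1 * b - β * e), ?_⟩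
    change X * A 0 1 = _
    linear_combination (-(X * A 0 1)) * hk2 + k1 * β * ha - β * β * hc + k1 * k1 * hb
      - k1 * β * he
  · refine ⟨(k2 * a + α * c) * α - k2 * (k2 * b + α * e), ?_⟩
    change X * A 1 0 = _
    linear_combination (-(X * A 1 0)) * hk2 + k2 * α * ha + α * α * hc - k2 * k2 * hb
      - k2 * α * he
  · refine ⟨(k2 * a + α * c) * β + k1 * (k2 * b + α * e), ?_⟩
    change X * A 1 1 = _
    linear_combination (-(X * A 1 1)) * hk2 + k2 * β * ha + α * β * hc + k1 * k2 * hb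
      + k1 * α * he

theorem Unim2.cj {I J : M2} (h : Unim2 I J) {k1 k2 α β : ℤ} (hk : α * k1 + β * k2 = 1) :
    Unim2 (cj k1 k2 α β I) (cj k1 k2 α β J) :=
  fun d X h1 h2 => h d X (dvd_cj hk h1) (dvd_cj hk h2)

theorem dvd_four {D1 D2 : ℤ} {I J : M2} (h : Fr D1 D2 I J) {ν : ℤ} (h1 : ν ∣ I 1 0)
    (h2 : ν ∣ J 1 0) : ν ∣ 4 * D1 * D2 := by
  have t1 := h.tI
  have t2 := h.tJ
  have t3 := h.tIJ
  have d1 := h.dI
  have d2 := h.dJ
  rw [Matrix.det_fin_two] at d1 d2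
  rw [mul00, mul11] at t3
  have e1 : I 1 1 = -I 0 0 := by linarith
  have e2 : J 1 1 = -J 0 0 := by linarith
  rw [e1] at d1 t3
  rw [e2] at d2 t3
  obtain ⟨x, hx⟩ := h1
  obtain ⟨y, hy⟩ := h2
  rw [hx] at d1 t3
  rw [hy] at d2 t3
  -- 2 i1 j1 = - ν (i2 y + x j2)
  refine ⟨4 * (I 0 0 ^ 2 * J 0 1 * y + J 0 0 ^ 2 * I 0 1 * x + ν * I 0 1 * x * J 0 1 * y)
    - 2 * I 0 0 * J 0 0 * (I 0 1 * y + x * J 0 1), ?_⟩
  rw [← d1, ← d2]
  linear_combination (2 * I 0 0 * J 0 0) * t3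

/-- The key divisibility for two kernel vectors, normalised. -/
theorem key_norm {D1 D2 : ℤ} {I J : M2} (h : Fr D1 D2 I J) (hU : Unim2 I J)
    {d1 d2 : ℤ} (hi : d1 * d2 ∣ I 1 0) (hj : d1 * d2 ∣ J 1 0)
    {w1 ω v1 ω' : ℤ} (hd1 : d1 ≠ 0) (cw : IsCoprime w1 (d1 * ω))
    (cω : IsCoprime ω d2) (cω' : IsCoprime ω' d2)
    (hwi : d1 * d2 ∣ Phi I w1 (d1 * ω)) (hwj : d1 * d2 ∣ Phi J w1 (d1 * ω))
    (hvi : d1 * d2 ∣ Phi I v1 (d1 * ω')) (hvj : d1 * d2 ∣ Phi J v1 (d1 * ω')) :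
    ((Int.gcd d1 d2 : ℤ)) ^ 2 ∣ 4 * D1 ∧
      d1 * d2 ∣ 2 * (Int.gcd d1 d2 : ℤ) * (w1 * (d1 * ω') - (d1 * ω) * v1) := by
  have t1 := h.tI
  have t2 := h.tJ
  have e1 : I 1 1 = -I 0 0 := by linarith
  have e2 : J 1 1 = -J 0 0 := by linarith
  have lin : ∀ {K : M2} (tK : K 0 0 + K 1 1 = 0) (hK : d1 * d2 ∣ K 1 0) {u1 o : ℤ}
      (co : IsCoprime o d2) (hu : d1 * d2 ∣ Phi K u1 (d1 * o)),
      d2 ∣ 2 * K 0 0 * u1 + K 0 1 * (d1 * o) := by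
    intro K tK hK u1 o co hu
    rw [Phi_tr tK] at hu
    have h3 : d1 * d2 ∣ d1 * (o * (2 * K 0 0 * u1 + K 0 1 * (d1 * o))) := by
      have h4 : d1 * d2 ∣ K 1 0 * u1 ^ 2 := Dvd.dvd.mul_right hK _
      have h5 := dvd_sub h4 hu
      have h6 : K 1 0 * u1 ^ 2 - (K 1 0 * u1 ^ 2 - d1 * o * (2 * K 0 0 * u1 + K 0 1 * (d1 * o))) =
        d1 * (o * (2 * K 0 0 * u1 + K 0 1 * (d1 * o))) := by ring
      rwa [h6] at h5
    have h7 := Int.dvd_of_mul_dvd_mul_left hd1 h3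
    exact co.symm.dvd_of_dvd_mul_left h7
  have a1 := lin t1 hi cω hwi
  have a2 := lin t2 hj cω hwj
  have b1 := lin t1 hi cω' hvi
  have b2 := lin t2 hj cω' hvj
  set Ω := w1 * (d1 * ω') - (d1 * ω) * v1 with hΩ
  have hd1Ω : d1 ∣ Ω := ⟨w1 * ω' - ω * v1, by rw [hΩ]; ring⟩
  -- d2 ∣ 2 Ω
  have hd2Ω : d2 ∣ 2 * Ω := by
    have hΩK : ∀ {K : M2} (tK : K 0 0 + K 1 1 = 0) (hK : d1 * d2 ∣ K 1 0)
        (ha : d2 ∣ 2 * K 0 0 * w1 + K 0 1 * (d1 * ω))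
        (hb : d2 ∣ 2 * K 0 0 * v1 + K 0 1 * (d1 * ω')), ∀ i j, d2 ∣ (2 * Ω) * K i j := by
      intro K tK hK ha hb i j
      have eK : K 1 1 = -K 0 0 := by linarith
      have c1 : d2 ∣ 2 * Ω * K 0 0 := by
        have := dvd_sub (Dvd.dvd.mul_right ha (d1 * ω')) (Dvd.dvd.mul_right hb (d1 * ω))
        have e : (2 * K 0 0 * w1 + K 0 1 * (d1 * ω)) * (d1 * ω') -
          (2 * K 0 0 * v1 + K 0 1 * (d1 * ω')) * (d1 * ω) = 2 * Ω * K 0 0 := by rw [hΩ]; ring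
        rwa [e] at this
      have c2 : d2 ∣ 2 * Ω * K 0 1 := by
        have := dvd_sub (Dvd.dvd.mul_right hb (2 * w1)) (Dvd.dvd.mul_right ha (2 * v1))
        have e : (2 * K 0 0 * v1 + K 0 1 * (d1 * ω')) * (2 * w1) -
          (2 * K 0 0 * w1 + K 0 1 * (d1 * ω)) * (2 * v1) = 2 * Ω * K 0 1 := by rw [hΩ]; ring
        rwa [e] at this
      have c3 : d2 ∣ 2 * Ω * K 1 0 :=
        Dvd.dvd.mul_left ((Dvd.intro_left _ rfl).trans hK) _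
      fin_cases i <;> fin_cases j
      · exact c1
      · exact c2
      · exact c3
      · change d2 ∣ 2 * Ω * K 1 1
        rw [eK, mul_neg]
        exact c1.neg_right
    exact hU d2 (2 * Ω) (hΩK t1 hi a1 b1) (hΩK t2 hj a2 b2)
  refine ⟨?_, ?_⟩
  · set d3 : ℤ := (Int.gcd d1 d2 : ℤ) with hd3
    have g1 : d3 ∣ d1 := Int.gcd_dvd_left ..
    have g2 : d3 ∣ d2 := Int.gcd_dvd_right ..
    have c1 : d3 ∣ 2 * I 0 0 * w1 := by
      have h1 := g2.trans a1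
      have h2 : d3 ∣ I 0 1 * (d1 * ω) := Dvd.dvd.mul_left (Dvd.dvd.mul_right g1 _) _
      exact (dvd_add_left h2).mp h1
    have c2 : IsCoprime d3 w1 := by
      have : d3 ∣ d1 * ω := Dvd.dvd.mul_right g1 _
      exact (IsCoprime.of_isCoprime_of_dvd_right cw this).symm
    have c3 : d3 ∣ 2 * I 0 0 := c2.dvd_of_dvd_mul_right c1
    have c4 : d3 ^ 2 ∣ I 1 0 := by
      rw [sq]
      exact (mul_dvd_mul g1 g2).trans hi
    have c5 : d3 ^ 2 ∣ (2 * I 0 0) ^ 2 := pow_dvd_pow_of_dvd c3 2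
    have dI := h.dI
    rw [Matrix.det_fin_two, e1] at dI
    have c6 : 4 * D1 = -(2 * I 0 0) ^ 2 - 4 * I 0 1 * I 1 0 := by rw [← dI]; ring
    rw [c6]
    exact dvd_sub c5.neg_right (Dvd.dvd.mul_left c4 _)
  · have hb := Int.gcd_eq_gcd_ab d1 d2
    rw [hb]
    have h1 : d1 * d2 ∣ d1 * (2 * Ω) := mul_dvd_mul_left d1 hd2Ω
    have h2 : d1 * d2 ∣ d2 * Ω := by
      rw [mul_comm d1 d2]
      exact mul_dvd_mul_left d2 hd1Ω
    have h3 := dvd_add (Dvd.dvd.mul_right h1 (Int.gcdA d1 d2))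
      (Dvd.dvd.mul_right h2 (2 * Int.gcdB d1 d2))
    have e : d1 * (2 * Ω) * Int.gcdA d1 d2 + d2 * Ω * (2 * Int.gcdB d1 d2) =
      2 * (d1 * Int.gcdA d1 d2 + d2 * Int.gcdB d1 d2) * Ω := by ring
    rwa [e] at h3

end Pool.Agent.Helper89.SLE
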