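import Pool.Agent.Helper89.SLE.SumNorms

/-!
# Counting nondegenerate orthogonal triples
-/

set_option autoImplicit false

namespace Pool.Agent.Helper89.SLE

open Finset Matrix

/-- Nondegenerate orthogonal triples of total norm four in a box. -/
structure OTri (W : ℤ) (X : M2 × M2 × M2) : Prop where
  xy : BB X.1 X.2.1 = 0
  xz : BB X.1 X.2.2 = 0
  yz : BB X.2.1 X.2.2 = 0
  nx : X.1.det ≠ 0
  ny : X.2.1.det ≠ 0
  nz : X.2.2.det ≠ 0
  hsum : X.1.det + X.2.1.det + X.2.2.det = 4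
  bx : ∀ i j, |X.1 i j| ≤ W
  hby : ∀ i j, |X.2.1 i j| ≤ W
  bz : ∀ i j, |X.2.2 i j| ≤ W

theorem BB_comm (x y : M2) : BB x y = BB y x := by unfold BB; ring

theorem otri_count_ordered {τ Z : ℕ} (hτ1 : 1 ≤ τ)
    (hτ : ∀ n : ℕ, 0 < n → n ≤ Z → n.divisors.card ≤ τ)
    {W : ℕ} (hW : 1 ≤ W) (hZ : 768 * W ^ 12 ≤ Z)
    (𝓞 : Finset (M2 × M2 × M2)) (h𝓞 : ∀ X ∈ 𝓞, OTri W X)
    (h1 : ∀ X ∈ 𝓞, |X.2.1.det| ≤ |X.2.2.det|) (h2 : ∀ X ∈ 𝓞, |X.2.1.det| ≤ |X.1.det|) :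
    (𝓞.card : ℝ) ≤ 14745600 * τ ^ 6 * (W : ℝ) ^ 4 * HH (4 * (2 * W ^ 2) ^ 2) ^ 2 := by
  classical
  set M : ℕ := 2 * W ^ 2 with hM
  have hMZ : M ^ 2 ≤ Z := by
    refine le_trans ?_ hZ
    have e1 : M ^ 2 = 4 * W ^ 4 := by rw [hM]; ring
    have e2 : W ^ 4 ≤ W ^ 12 := Nat.pow_le_pow_right hW (by norm_num)
    rw [e1]
    omega
  have hsum := sum_sg hτ hMZ
  set U := ((Finset.Icc (-(M : ℤ)) M) ×ˢ (Finset.Icc (-(M : ℤ)) M)).filter
      (fun u => u.1 ≠ 0 ∧ u.2 ≠ 0) with hU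
  have hdet : ∀ x : M2, (∀ i j, |x i j| ≤ (W : ℤ)) → |x.det| ≤ (M : ℤ) := by
    intro x hx
    have := abs_det_le hx
    rw [hM]; push_cast; exact this
  have hmaps : ∀ X ∈ 𝓞, (fun X : M2 × M2 × M2 => (X.1.det, X.2.1.det)) X ∈ U := by
    intro X hX
    have T := h𝓞 X hX
    rw [hU, Finset.mem_filter, Finset.mem_product, Finset.mem_Icc, Finset.mem_Icc]
    exact ⟨⟨abs_le.mp (hdet _ T.bx), abs_le.mp (hdet _ T.hby)⟩, T.nx, T.ny⟩
  rw [Finset.card_eq_sum_card_fiberwise (f := fun X : M2 × M2 × M2 => (X.1.det, X.2.1.det))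
    (t := U) (fun a ha => hmaps a ha)]
  push_cast
  have hterm : ∀ u ∈ U, ((𝓞.filter (fun X => (X.1.det, X.2.1.det) = u)).card : ℝ) ≤
      921600 * τ ^ 5 * (W : ℝ) ^ 4 * ((sg M u.1 u.2 : ℝ) / (|(u.1 : ℝ)| * |(u.2 : ℝ)|)) := by
    intro u hu
    rw [hU, Finset.mem_filter, Finset.mem_product, Finset.mem_Icc, Finset.mem_Icc] at hu
    obtain ⟨⟨hu1, hu2⟩, hn1, hn2⟩ := hu
    set F := 𝓞.filter (fun X => (X.1.det, X.2.1.det) = u) with hF
    have hpos1 : (0 : ℝ) < |(u.1 : ℝ)| := abs_pos.mpr (by exact_mod_cast hn1)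
    have hpos2 : (0 : ℝ) < |(u.2 : ℝ)| := abs_pos.mpr (by exact_mod_cast hn2)
    rcases F.eq_empty_or_nonempty with hemp | ⟨X0, hX0⟩
    · rw [hemp]
      simp only [Finset.card_empty, Nat.cast_zero]
      positivity
    have hFm : ∀ X ∈ F, X ∈ 𝓞 ∧ X.1.det = u.1 ∧ X.2.1.det = u.2 := by
      intro X hX
      obtain ⟨ha, hb⟩ := Finset.mem_filter.mp hX
      exact ⟨ha, congrArg Prod.fst hb, congrArg Prod.snd hb⟩
    have hT : ∀ X ∈ F, Tri u.1 u.2 (4 - u.1 - u.2) W X := by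
      intro X hX
      obtain ⟨ha, hb, hc⟩ := hFm X hX
      have T := h𝓞 X ha
      have hs := T.hsum
      exact ⟨T.xy, T.xz, T.yz, hb, hc, by rw [← hb, ← hc]; linarith, T.bx, T.hby, T.bz⟩
    obtain ⟨ha, hb, hc⟩ := hFm X0 hX0
    have T0 := h𝓞 X0 ha
    have hz : X0.2.2.det = 4 - u.1 - u.2 := (hT X0 hX0).dz
    have key := tri_count (s := u.1) (p := u.2) (p' := 4 - u.1 - u.2) (W := (W : ℤ))
      (σ := (sg M u.1 u.2 : ℤ)) hτ1 hτ hn1 hn2 (by rw [← hz]; exact T0.nz) (by ring)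
      (by rw [← hz, ← hc]; exact h1 X0 ha) (by rw [← hb, ← hc]; exact h2 X0 ha)
      (by exact_mod_cast hW) (by exact_mod_cast hZ) (Int.natCast_nonneg _)
      (fun d hd hdv => le_sg hn1 hn2 (abs_le.mpr hu1) (abs_le.mpr hu2) d hd hdv) F hT
    push_cast at key
    rw [← mul_div_assoc, le_div_iff₀ (mul_pos hpos1 hpos2)]
    refine key.trans (le_of_eq ?_)
    ring
  refine (Finset.sum_le_sum hterm).trans ?_
  rw [← Finset.mul_sum]
  calc 921600 * (τ : ℝ) ^ 5 * (W : ℝ) ^ 4 *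
        ∑ u ∈ U, ((sg M u.1 u.2 : ℝ) / (|(u.1 : ℝ)| * |(u.2 : ℝ)|))
      ≤ 921600 * (τ : ℝ) ^ 5 * (W : ℝ) ^ 4 * (16 * τ * HH (4 * M ^ 2) ^ 2) :=
        mul_le_mul_of_nonneg_left hsum (by positivity)
    _ = _ := by ring

theorem otri_count {τ Z : ℕ} (hτ1 : 1 ≤ τ)
    (hτ : ∀ n : ℕ, 0 < n → n ≤ Z → n.divisors.card ≤ τ)
    {W : ℕ} (hW : 1 ≤ W) (hZ : 768 * W ^ 12 ≤ Z)
    (𝓞 : Finset (M2 × M2 × M2)) (h𝓞 : ∀ X ∈ 𝓞, OTri W X) :
    (𝓞.card : ℝ) ≤ 44236800 * τ ^ 6 * (W : ℝ) ^ 4 * HH (4 * (2 * W ^ 2) ^ 2) ^ 2 := by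
  classical
  set P : ℝ := 14745600 * τ ^ 6 * (W : ℝ) ^ 4 * HH (4 * (2 * W ^ 2) ^ 2) ^ 2 with hP
  set A := 𝓞.filter (fun X => |X.2.1.det| ≤ |X.2.2.det| ∧ |X.2.1.det| ≤ |X.1.det|) with hA
  set B := 𝓞.filter (fun X => |X.1.det| ≤ |X.2.2.det| ∧ |X.1.det| ≤ |X.2.1.det|) with hB
  set C := 𝓞.filter (fun X => |X.2.2.det| ≤ |X.2.1.det| ∧ |X.2.2.det| ≤ |X.1.det|) with hC
  have hcover : 𝓞 ⊆ A ∪ B ∪ C := by
    intro X hX
    rw [Finset.mem_union, Finset.mem_union, hA, hB, hC, Finset.mem_filter, Finset.mem_filter,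
      Finset.mem_filter]
    by_cases h1 : |X.2.1.det| ≤ |X.2.2.det|
    · by_cases h2 : |X.2.1.det| ≤ |X.1.det|
      · exact Or.inl (Or.inl ⟨hX, h1, h2⟩)
      · exact Or.inl (Or.inr ⟨hX, by omega, by omega⟩)
    · by_cases h2 : |X.2.2.det| ≤ |X.1.det|
      · exact Or.inr ⟨hX, by omega, h2⟩
      · exact Or.inl (Or.inr ⟨hX, by omega, by omega⟩)
  have hcA : (A.card : ℝ) ≤ P := by
    apply otri_count_ordered hτ1 hτ hW hZ A
    · exact fun X hX => h𝓞 X (Finset.mem_filter.mp hX).1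
    · exact fun X hX => (Finset.mem_filter.mp hX).2.1
    · exact fun X hX => (Finset.mem_filter.mp hX).2.2
  have hcB : (B.card : ℝ) ≤ P := by
    have hinj : Function.Injective (fun X : M2 × M2 × M2 => (X.2.1, X.1, X.2.2)) := by
      intro X Y h
      have h1 := congrArg Prod.fst h
      have h2 := congrArg (fun v => v.2.1) h
      have h3 := congrArg (fun v => v.2.2) h
      exact Prod.ext h2 (Prod.ext h1 h3)
    rw [← Finset.card_image_of_injective B hinj]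
    apply otri_count_ordered hτ1 hτ hW hZ
    · intro Y hY
      obtain ⟨X, hX, rfl⟩ := Finset.mem_image.mp hY
      have T := h𝓞 X (Finset.mem_filter.mp hX).1
      exact ⟨by rw [BB_comm]; exact T.xy, T.yz, T.xz, T.ny, T.nx, T.nz,
        by have := T.hsum; simp only; linarith, T.hby, T.bx, T.bz⟩
    · intro Y hY
      obtain ⟨X, hX, rfl⟩ := Finset.mem_image.mp hY
      exact (Finset.mem_filter.mp hX).2.1
    · intro Y hY
      obtain ⟨X, hX, rfl⟩ := Finset.mem_image.mp hY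
      exact (Finset.mem_filter.mp hX).2.2
  have hcC : (C.card : ℝ) ≤ P := by
    have hinj : Function.Injective (fun X : M2 × M2 × M2 => (X.1, X.2.2, X.2.1)) := by
      intro X Y h
      have h1 := congrArg Prod.fst h
      have h2 := congrArg (fun v => v.2.1) h
      have h3 := congrArg (fun v => v.2.2) h
      exact Prod.ext h1 (Prod.ext h3 h2)
    rw [← Finset.card_image_of_injective C hinj]
    apply otri_count_ordered hτ1 hτ hW hZ
    · intro Y hY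
      obtain ⟨X, hX, rfl⟩ := Finset.mem_image.mp hY
      have T := h𝓞 X (Finset.mem_filter.mp hX).1
      exact ⟨T.xz, T.xy, by rw [BB_comm]; exact T.yz, T.nx, T.nz, T.ny,
        by have := T.hsum; simp only; linarith, T.bx, T.bz, T.hby⟩
    · intro Y hY
      obtain ⟨X, hX, rfl⟩ := Finset.mem_image.mp hY
      exact (Finset.mem_filter.mp hX).2.1
    · intro Y hY
      obtain ⟨X, hX, rfl⟩ := Finset.mem_image.mp hY
      exact (Finset.mem_filter.mp hX).2.2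
  have h3 : (𝓞.card : ℝ) ≤ A.card + B.card + C.card := by
    have := (Finset.card_le_card hcover).trans
      ((Finset.card_union_le _ _).trans (Nat.add_le_add_right (Finset.card_union_le _ _) _))
    exact_mod_cast this
  calc (𝓞.card : ℝ) ≤ P + P + P := by linarith
    _ = _ := by rw [hP]; ring

end Pool.Agent.Helper89.SLE
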