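import Pool.Agent.Helper89.SLE.TriCount

/-!
# Summation over the norms
-/

set_option autoImplicit false

namespace Pool.Agent.Helper89.SLE

open Finset Matrix

/-- Partial harmonic sum. -/
noncomputable def HH (K : ℕ) : ℝ := ∑ k ∈ Finset.Icc 1 K, 1 / (k : ℝ)

theorem HH_nonneg (K : ℕ) : 0 ≤ HH K := Finset.sum_nonneg fun k _ => by positivity

theorem HH_mono {K L : ℕ} (h : K ≤ L) : HH K ≤ HH L := by
  unfold HH
  exact Finset.sum_le_sum_of_subset_of_nonneg (Finset.Icc_subset_Icc le_rfl h)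
    (fun k _ _ => by positivity)

theorem HH_le_log (K : ℕ) : HH K ≤ 1 + Real.log K := by
  have h := harmonic_le_one_add_log K
  rw [harmonic_eq_sum_Icc] at h
  push_cast at h
  unfold HH
  refine le_trans (le_of_eq ?_) h
  exact Finset.sum_congr rfl fun k _ => by rw [one_div]

/-- The sum of all `d` with `d ^ 2 ∣ 4 s p`. -/
noncomputable def sg (M : ℕ) (s p : ℤ) : ℕ :=
  ∑ d ∈ (Finset.Icc 1 (2 * M)).filter (fun d : ℕ => ((d : ℤ)) ^ 2 ∣ 4 * (s * p)), d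

theorem le_sg {M : ℕ} {s p : ℤ} (hs : s ≠ 0) (hp : p ≠ 0) (hsM : |s| ≤ M) (hpM : |p| ≤ M)
    (d : ℤ) (hd : 0 ≤ d) (h : d ^ 2 ∣ 4 * (s * p)) : d ≤ (sg M s p : ℤ) := by
  lift d to ℕ using hd
  have hne : 4 * (s * p) ≠ 0 := mul_ne_zero (by norm_num) (mul_ne_zero hs hp)
  have hd1 : 1 ≤ d := by
    by_contra hcon
    have : d = 0 := by omega
    subst this
    simp at h
    exact (mul_ne_zero hs hp) (by simpa using h)
  have hle : (d : ℤ) ^ 2 ≤ 4 * (M : ℤ) ^ 2 := by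
    have h1 := Int.le_of_dvd (abs_pos.mpr hne) ((dvd_abs _ _).mpr h)
    have h2 : |4 * (s * p)| = 4 * (|s| * |p|) := by rw [abs_mul, abs_mul]; norm_num
    have h3 : |s| * |p| ≤ (M : ℤ) * M := mul_le_mul hsM hpM (abs_nonneg _) (Int.natCast_nonneg _)
    rw [h2] at h1
    linarith
  have hd2 : d ≤ 2 * M := by
    have h4 : (d : ℤ) ^ 2 ≤ (2 * (M : ℤ)) ^ 2 := by linarith
    have h5 := abs_le_of_sq_le_sq h4 (by positivity)
    have : (d : ℤ) ≤ 2 * M := (le_abs_self _).trans h5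
    exact_mod_cast this
  have hmem : d ∈ (Finset.Icc 1 (2 * M)).filter (fun d : ℕ => ((d : ℤ)) ^ 2 ∣ 4 * (s * p)) := by
    rw [Finset.mem_filter, Finset.mem_Icc]
    exact ⟨⟨hd1, hd2⟩, h⟩
  have := Finset.single_le_sum (f := fun d : ℕ => d) (fun i _ => Nat.zero_le i) hmem
  exact_mod_cast this

/-- The norm sum. -/
theorem sum_sg {τ Z : ℕ}
    (hτ : ∀ n : ℕ, 0 < n → n ≤ Z → n.divisors.card ≤ τ) {M : ℕ} (hM : M ^ 2 ≤ Z) :
    ∑ u ∈ ((Finset.Icc (-(M : ℤ)) M) ×ˢ (Finset.Icc (-(M : ℤ)) M)).filter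
      (fun u => u.1 ≠ 0 ∧ u.2 ≠ 0), (sg M u.1 u.2 : ℝ) / (|(u.1 : ℝ)| * |(u.2 : ℝ)|) ≤
      16 * τ * HH (4 * M ^ 2) ^ 2 := by
  classical
  set U := ((Finset.Icc (-(M : ℤ)) M) ×ˢ (Finset.Icc (-(M : ℤ)) M)).filter
      (fun u => u.1 ≠ 0 ∧ u.2 ≠ 0) with hU
  have hUmem : ∀ u ∈ U, |u.1| ≤ M ∧ |u.2| ≤ M ∧ u.1 ≠ 0 ∧ u.2 ≠ 0 := by
    intro u hu
    rw [hU, Finset.mem_filter, Finset.mem_product, Finset.mem_Icc, Finset.mem_Icc] at hu
    exact ⟨abs_le.mpr hu.1.1, abs_le.mpr hu.1.2, hu.2.1, hu.2.2⟩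
  set S := (U ×ˢ (Finset.Icc 1 (2 * M))).filter
    (fun v => ((v.2 : ℕ) : ℤ) ^ 2 ∣ 4 * (v.1.1 * v.1.2)) with hS
  have e1 : ∑ u ∈ U, (sg M u.1 u.2 : ℝ) / (|(u.1 : ℝ)| * |(u.2 : ℝ)|) =
      ∑ v ∈ S, (v.2 : ℝ) / (|(v.1.1 : ℝ)| * |(v.1.2 : ℝ)|) := by
    have e0 := Finset.sum_filter (s := U ×ˢ (Finset.Icc 1 (2 * M)))
      (fun v : (ℤ × ℤ) × ℕ => ((v.2 : ℕ) : ℤ) ^ 2 ∣ 4 * (v.1.1 * v.1.2))
      (fun v : (ℤ × ℤ) × ℕ => (v.2 : ℝ) / (|(v.1.1 : ℝ)| * |(v.1.2 : ℝ)|))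
    rw [hS, e0, Finset.sum_product]
    refine Finset.sum_congr rfl fun u _ => ?_
    unfold sg
    rw [Nat.cast_sum, Finset.sum_div, Finset.sum_filter]
  rw [e1]
  have hSmem : ∀ v ∈ S, v.1 ∈ U ∧ 1 ≤ v.2 ∧ v.2 ≤ 2 * M ∧
      ((v.2 : ℕ) : ℤ) ^ 2 ∣ 4 * (v.1.1 * v.1.2) := by
    intro v hv
    rw [hS, Finset.mem_filter, Finset.mem_product, Finset.mem_Icc] at hv
    exact ⟨hv.1.1, hv.1.2.1, hv.1.2.2, hv.2⟩
  let φ : (ℤ × ℤ) × ℕ → ℕ × ℕ := fun v => (v.2, (4 * (v.1.1 * v.1.2)).natAbs / v.2 ^ 2)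
  have hφ : ∀ v ∈ S, (v.2 ^ 2 * (φ v).2 = (4 * (v.1.1 * v.1.2)).natAbs) := by
    intro v hv
    obtain ⟨h1, h2, h3, h4⟩ := hSmem v hv
    apply Nat.mul_div_cancel'
    have := Int.natAbs_dvd_natAbs.mpr h4
    rwa [Int.natAbs_pow, Int.natAbs_natCast] at this
  set T := (Finset.Icc 1 (2 * M)) ×ˢ (Finset.Icc 1 (4 * M ^ 2)) with hT
  have hmaps : ∀ v ∈ S, φ v ∈ T := by
    intro v hv
    obtain ⟨h1, h2, h3, h4⟩ := hSmem v hv
    obtain ⟨g1, g2, g3, g4⟩ := hUmem _ h1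
    have h5 := hφ v hv
    rw [hT, Finset.mem_product, Finset.mem_Icc, Finset.mem_Icc]
    have hpos : 0 < (4 * (v.1.1 * v.1.2)).natAbs :=
      Int.natAbs_pos.mpr (mul_ne_zero (by norm_num) (mul_ne_zero g3 g4))
    have hle : (4 * (v.1.1 * v.1.2)).natAbs ≤ 4 * M ^ 2 := by
      have : ((4 * (v.1.1 * v.1.2)).natAbs : ℤ) ≤ 4 * (M : ℤ) ^ 2 := by
        rw [Int.natCast_natAbs, abs_mul, abs_mul]
        have h6 : |v.1.1| * |v.1.2| ≤ (M : ℤ) * M :=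
          mul_le_mul g1 g2 (abs_nonneg _) (Int.natCast_nonneg _)
        rw [abs_of_pos (by norm_num : (0 : ℤ) < 4)]
        linarith
      exact_mod_cast this
    refine ⟨⟨h2, h3⟩, ?_, ?_⟩
    · by_contra hcon
      have : (φ v).2 = 0 := by omega
      rw [this, mul_zero] at h5
      omega
    · calc (φ v).2 ≤ v.2 ^ 2 * (φ v).2 := Nat.le_mul_of_pos_left _ (by positivity)
        _ = (4 * (v.1.1 * v.1.2)).natAbs := h5
        _ ≤ _ := hle
  rw [← Finset.sum_fiberwise_of_maps_to hmaps]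
  have hterm : ∀ t ∈ T, ∑ v ∈ S.filter (fun v => φ v = t),
      (v.2 : ℝ) / (|(v.1.1 : ℝ)| * |(v.1.2 : ℝ)|) ≤ 16 * τ * ((1 / (t.1 : ℝ)) * (1 / (t.2 : ℝ))) := by
    intro t ht
    rw [hT, Finset.mem_product, Finset.mem_Icc, Finset.mem_Icc] at ht
    have ht1 : (0 : ℝ) < t.1 := by exact_mod_cast ht.1.1
    have ht2 : (0 : ℝ) < t.2 := by exact_mod_cast ht.2.1
    have hval : ∀ v ∈ S.filter (fun v => φ v = t),
        (v.2 : ℝ) / (|(v.1.1 : ℝ)| * |(v.1.2 : ℝ)|) = 4 * ((1 / (t.1 : ℝ)) * (1 / (t.2 : ℝ))) := by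
      intro v hv
      obtain ⟨hvS, hvt⟩ := Finset.mem_filter.mp hv
      obtain ⟨h1, h2, h3, h4⟩ := hSmem v hvS
      obtain ⟨g1, g2, g3, g4⟩ := hUmem _ h1
      have h5 := hφ v hvS
      have h6 : v.2 = t.1 := congrArg Prod.fst hvt
      rw [hvt, h6] at h5
      have h7 : ((t.1 : ℝ)) ^ 2 * t.2 = 4 * (|(v.1.1 : ℝ)| * |(v.1.2 : ℝ)|) := by
        have : ((t.1 ^ 2 * t.2 : ℕ) : ℝ) = (((4 * (v.1.1 * v.1.2)).natAbs : ℕ) : ℝ) := by
          rw [h5]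
        rw [Nat.cast_natAbs] at this
        push_cast at this
        rw [this, abs_mul, abs_mul, abs_of_pos (by norm_num : (0 : ℝ) < 4)]
      have g3' : (0 : ℝ) < |(v.1.1 : ℝ)| := abs_pos.mpr (by exact_mod_cast g3)
      have g4' : (0 : ℝ) < |(v.1.2 : ℝ)| := abs_pos.mpr (by exact_mod_cast g4)
      rw [h6, div_eq_iff (by positivity)]
      have h8 : |(v.1.1 : ℝ)| * |(v.1.2 : ℝ)| = (t.1 : ℝ) ^ 2 * t.2 / 4 := by linarith
      rw [h8]
      field_simp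
    rw [Finset.sum_congr rfl hval, Finset.sum_const, nsmul_eq_mul]
    have hc : (S.filter (fun v => φ v = t)).card ≤ 4 * τ := by
      -- split by sign
      set F := S.filter (fun v => φ v = t) with hF
      have hF1 : ∀ (F' : Finset ((ℤ × ℤ) × ℕ)) (n : ℤ), F' ⊆ F → n ≠ 0 → n.natAbs ≤ Z →
          (∀ v ∈ F', v.1.1 * v.1.2 = n) → F'.card ≤ 2 * τ := by
        intro F' n hsub hn hnZ hprod
        have hinj : Set.InjOn Prod.fst (F' : Set ((ℤ × ℤ) × ℕ)) := by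
          intro v hv v' hv' h
          have h1 := (Finset.mem_filter.mp (hsub hv)).2
          have h2 := (Finset.mem_filter.mp (hsub hv')).2
          exact Prod.ext h ((congrArg Prod.fst h1).trans (congrArg Prod.fst h2).symm)
        rw [← Finset.card_image_of_injOn hinj]
        apply card_pairs_le hτ hn hnZ
        intro u hu
        obtain ⟨v, hv, rfl⟩ := Finset.mem_image.mp hu
        exact hprod v hv
      rcases F.eq_empty_or_nonempty with hemp | ⟨v0, hv0⟩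
      · rw [hemp]; simp
      obtain ⟨hv0S, hv0t⟩ := Finset.mem_filter.mp hv0
      obtain ⟨h1, h2, h3, h4⟩ := hSmem v0 hv0S
      obtain ⟨g1, g2, g3, g4⟩ := hUmem _ h1
      set n := v0.1.1 * v0.1.2 with hn
      have hn0 : n ≠ 0 := mul_ne_zero g3 g4
      have hnZ : n.natAbs ≤ Z := by
        refine le_trans ?_ hM
        have : (n.natAbs : ℤ) ≤ (M : ℤ) ^ 2 := by
          rw [Int.natCast_natAbs, hn, abs_mul, sq]
          exact mul_le_mul g1 g2 (abs_nonneg _) (Int.natCast_nonneg _)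
        exact_mod_cast this
      have hpm : ∀ v ∈ F, v.1.1 * v.1.2 = n ∨ v.1.1 * v.1.2 = -n := by
        intro v hv
        obtain ⟨hvS, hvt⟩ := Finset.mem_filter.mp hv
        have h5 := hφ v hvS
        have h5' := hφ v0 hv0S
        have h6 : v.2 = t.1 := congrArg Prod.fst hvt
        have h6' : v0.2 = t.1 := congrArg Prod.fst hv0t
        rw [hvt, h6] at h5
        rw [hv0t, h6'] at h5'
        have h7 : (4 * (v.1.1 * v.1.2)).natAbs = (4 * n).natAbs := by rw [← h5, ← h5']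
        rcases Int.natAbs_eq_natAbs_iff.mp h7 with h8 | h8
        · left; linarith
        · right; linarith
      have hsplit := Finset.card_filter_add_card_filter_not (s := F)
        (fun v => v.1.1 * v.1.2 = n)
      have c1 := hF1 (F.filter (fun v => v.1.1 * v.1.2 = n)) n (Finset.filter_subset _ _) hn0 hnZ
        (fun v hv => (Finset.mem_filter.mp hv).2)
      have c2 := hF1 (F.filter (fun v => ¬ v.1.1 * v.1.2 = n)) (-n) (Finset.filter_subset _ _)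
        (neg_ne_zero.mpr hn0) (by rw [Int.natAbs_neg]; exact hnZ)
        (fun v hv => by
          have := Finset.mem_filter.mp hv
          exact (hpm v this.1).resolve_left this.2)
      omega
    have hcr : ((S.filter (fun v => φ v = t)).card : ℝ) ≤ 4 * τ := by exact_mod_cast hc
    calc ((S.filter (fun v => φ v = t)).card : ℝ) * (4 * ((1 / (t.1 : ℝ)) * (1 / (t.2 : ℝ))))
        ≤ (4 * τ) * (4 * ((1 / (t.1 : ℝ)) * (1 / (t.2 : ℝ)))) :=
          mul_le_mul_of_nonneg_right hcr (by positivity)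
      _ = _ := by ring
  refine (Finset.sum_le_sum hterm).trans ?_
  rw [← Finset.mul_sum, hT, Finset.sum_product]
  have e2 : ∑ x ∈ (Finset.Icc 1 (2 * M) : Finset ℕ), ∑ y ∈ (Finset.Icc 1 (4 * M ^ 2) : Finset ℕ),
      (1 / (x : ℝ)) * (1 / (y : ℝ)) = HH (2 * M) * HH (4 * M ^ 2) := by
    unfold HH
    rw [Finset.sum_mul_sum]
  change 16 * (τ : ℝ) * ∑ x ∈ (Finset.Icc 1 (2 * M) : Finset ℕ),
      ∑ y ∈ (Finset.Icc 1 (4 * M ^ 2) : Finset ℕ), (1 / (x : ℝ)) * (1 / (y : ℝ)) ≤ _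
  rw [e2]
  have h2M : 2 * M ≤ 4 * M ^ 2 := by nlinarith [Nat.zero_le M]
  have := HH_mono h2M
  have h0 := HH_nonneg (4 * M ^ 2)
  have h1 : HH (2 * M) * HH (4 * M ^ 2) ≤ HH (4 * M ^ 2) ^ 2 := by
    rw [pow_two (HH (4 * M ^ 2))]
    exact mul_le_mul_of_nonneg_right this h0
  exact mul_le_mul_of_nonneg_left h1 (by positivity)

end Pool.Agent.Helper89.SLE
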