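import Pool.Agent.Helper89.SLE.FrameCount

/-!
# Orthogonal triples of integer matrices
-/

set_option autoImplicit false

namespace Pool.Agent.Helper89.SLE

open Finset Matrix

/-- The bilinear form of the determinant. -/
def BB (x y : M2) : ℤ := x 0 0 * y 1 1 + x 1 1 * y 0 0 - x 0 1 * y 1 0 - x 1 0 * y 0 1

/-- Adjugate, explicitly. -/
def ad (x : M2) : M2 := !![x 1 1, -x 0 1; -x 1 0, x 0 0]

@[simp] theorem ad00 (x : M2) : ad x 0 0 = x 1 1 := rfl
@[simp] theorem ad01 (x : M2) : ad x 0 1 = -x 0 1 := rfl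
@[simp] theorem ad10 (x : M2) : ad x 1 0 = -x 1 0 := rfl
@[simp] theorem ad11 (x : M2) : ad x 1 1 = x 0 0 := rfl

theorem mul_ad (x : M2) : x * ad x = x.det • (1 : M2) := by
  apply M2_ext
  · rw [mul00, Matrix.det_fin_two, Matrix.smul_apply, Matrix.one_apply_eq]; simp; ring
  · rw [mul01, Matrix.det_fin_two, Matrix.smul_apply, Matrix.one_apply_ne (by decide)]; simp; ring
  · rw [mul10, Matrix.det_fin_two, Matrix.smul_apply, Matrix.one_apply_ne (by decide)]; simp; ring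
  · rw [mul11, Matrix.det_fin_two, Matrix.smul_apply, Matrix.one_apply_eq]; simp; ring

theorem ad_mul (x : M2) : ad x * x = x.det • (1 : M2) := by
  apply M2_ext
  · rw [mul00, Matrix.det_fin_two, Matrix.smul_apply, Matrix.one_apply_eq]; simp; ring
  · rw [mul01, Matrix.det_fin_two, Matrix.smul_apply, Matrix.one_apply_ne (by decide)]; simp; ring
  · rw [mul10, Matrix.det_fin_two, Matrix.smul_apply, Matrix.one_apply_ne (by decide)]; simp; ring
  · rw [mul11, Matrix.det_fin_two, Matrix.smul_apply, Matrix.one_apply_eq]; simp; ring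

theorem mul_ad_anti {x y : M2} (h : BB x y = 0) : x * ad y = -(y * ad x) := by
  unfold BB at h
  apply M2_ext
  · rw [mul00, Matrix.neg_apply, mul00]; simp; linear_combination h
  · rw [mul01, Matrix.neg_apply, mul01]; simp; ring
  · rw [mul10, Matrix.neg_apply, mul10]; simp; ring
  · rw [mul11, Matrix.neg_apply, mul11]; simp; linear_combination h

theorem ad_mul_anti {x y : M2} (h : BB x y = 0) : ad x * y = -(ad y * x) := by
  unfold BB at h
  apply M2_ext
  · rw [mul00, Matrix.neg_apply, mul00]; simp; linear_combination h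
  · rw [mul01, Matrix.neg_apply, mul01]; simp; ring
  · rw [mul10, Matrix.neg_apply, mul10]; simp; ring
  · rw [mul11, Matrix.neg_apply, mul11]; simp; linear_combination h

theorem det_ad (x : M2) : (ad x).det = x.det := by
  rw [Matrix.det_fin_two, Matrix.det_fin_two]; simp; ring

/-- Orthogonal triples with given norms in a box. -/
structure Tri (s p p' W : ℤ) (X : M2 × M2 × M2) : Prop where
  xy : BB X.1 X.2.1 = 0
  xz : BB X.1 X.2.2 = 0
  yz : BB X.2.1 X.2.2 = 0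
  dx : X.1.det = s
  dy : X.2.1.det = p
  dz : X.2.2.det = p'
  bx : ∀ i j, |X.1 i j| ≤ W
  hby : ∀ i j, |X.2.1 i j| ≤ W
  bz : ∀ i j, |X.2.2 i j| ≤ W

theorem Tri.fr {s p p' W : ℤ} {X : M2 × M2 × M2} (h : Tri s p p' W X) :
    Fr (s * p) (s * p') (X.2.1 * ad X.1) (X.2.2 * ad X.1) := by
  have h1 := h.xy
  have h2 := h.xz
  have h3 := h.yz
  have d1 := h.dx
  refine ⟨?_, ?_, ?_, ?_, ?_⟩
  · rw [mul00, mul11]; simp
    unfold BB at h1; linear_combination h1
  · rw [mul00, mul11]; simp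
    unfold BB at h2; linear_combination h2
  · -- I J = y x~ z x~ = - y z~ x x~ = - s y z~
    have e : X.2.1 * ad X.1 * (X.2.2 * ad X.1) = -(s • (X.2.1 * ad X.2.2)) := by
      calc X.2.1 * ad X.1 * (X.2.2 * ad X.1) = X.2.1 * (ad X.1 * X.2.2) * ad X.1 := by
            simp only [mul_assoc]
        _ = X.2.1 * (-(ad X.2.2 * X.1)) * ad X.1 := by rw [ad_mul_anti h2]
        _ = -(X.2.1 * ad X.2.2 * (X.1 * ad X.1)) := by
            simp only [mul_neg, neg_mul, mul_assoc]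
        _ = _ := by rw [mul_ad, d1, mul_smul_comm, mul_one]
    rw [e, Matrix.neg_apply, Matrix.neg_apply, Matrix.smul_apply, Matrix.smul_apply, mul00, mul11]
    simp
    unfold BB at h3; linear_combination (-s) * h3
  · rw [Matrix.det_mul, det_ad, h.dx, h.dy, mul_comm]
  · rw [Matrix.det_mul, det_ad, h.dx, h.dz, mul_comm]

theorem Tri.IJ {s p p' W : ℤ} {X : M2 × M2 × M2} (h : Tri s p p' W X) :
    X.2.1 * ad X.1 * (X.2.2 * ad X.1) = -(s • (X.2.1 * ad X.2.2)) := by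
  calc X.2.1 * ad X.1 * (X.2.2 * ad X.1) = X.2.1 * (ad X.1 * X.2.2) * ad X.1 := by
        simp only [mul_assoc]
    _ = X.2.1 * (-(ad X.2.2 * X.1)) * ad X.1 := by rw [ad_mul_anti h.xz]
    _ = -(X.2.1 * ad X.2.2 * (X.1 * ad X.1)) := by
        simp only [mul_neg, neg_mul, mul_assoc]
    _ = _ := by rw [mul_ad, h.dx, mul_smul_comm, mul_one]

theorem abs_mul_ad_le {x y : M2} {W : ℤ} (hx : ∀ i j, |x i j| ≤ W)
    (hy : ∀ i j, |y i j| ≤ W) : ∀ i j, |(y * ad x) i j| ≤ 2 * W ^ 2 := by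
  have hW : 0 ≤ W := (abs_nonneg _).trans (hx 0 0)
  have key : ∀ a b c d : ℤ, |a| ≤ W → |b| ≤ W → |c| ≤ W → |d| ≤ W →
      |a * b + c * d| ≤ 2 * W ^ 2 := by
    intro a b c d ha hb hc hd
    calc |a * b + c * d| ≤ |a * b| + |c * d| := abs_add_le _ _
      _ = |a| * |b| + |c| * |d| := by rw [abs_mul, abs_mul]
      _ ≤ W * W + W * W := add_le_add (mul_le_mul ha hb (abs_nonneg _) hW)
          (mul_le_mul hc hd (abs_nonneg _) hW)
      _ = 2 * W ^ 2 := by ring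
  intro i j
  fin_cases i <;> fin_cases j
  · change |(y * ad x) 0 0| ≤ _
    rw [mul00]; simp only [ad00, ad10]
    exact key _ _ _ _ (hy _ _) (hx _ _) (hy _ _) (by rw [abs_neg]; exact hx _ _)
  · change |(y * ad x) 0 1| ≤ _
    rw [mul01]; simp only [ad01, ad11]
    exact key _ _ _ _ (hy _ _) (by rw [abs_neg]; exact hx _ _) (hy _ _) (hx _ _)
  · change |(y * ad x) 1 0| ≤ _
    rw [mul10]; simp only [ad00, ad10]
    exact key _ _ _ _ (hy _ _) (hx _ _) (hy _ _) (by rw [abs_neg]; exact hx _ _)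
  · change |(y * ad x) 1 1| ≤ _
    rw [mul11]; simp only [ad01, ad11]
    exact key _ _ _ _ (hy _ _) (by rw [abs_neg]; exact hx _ _) (hy _ _) (hx _ _)

theorem abs_det_le {x : M2} {W : ℤ} (hx : ∀ i j, |x i j| ≤ W) : |x.det| ≤ 2 * W ^ 2 := by
  have hW : 0 ≤ W := (abs_nonneg _).trans (hx 0 0)
  rw [Matrix.det_fin_two]
  calc |x 0 0 * x 1 1 - x 0 1 * x 1 0| ≤ |x 0 0 * x 1 1| + |x 0 1 * x 1 0| := abs_sub _ _
    _ = |x 0 0| * |x 1 1| + |x 0 1| * |x 1 0| := by rw [abs_mul, abs_mul]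
    _ ≤ W * W + W * W := add_le_add (mul_le_mul (hx _ _) (hx _ _) (abs_nonneg _) hW)
          (mul_le_mul (hx _ _) (hx _ _) (abs_nonneg _) hW)
    _ = 2 * W ^ 2 := by ring

/-- Number of triples with given left frame. -/
theorem x_count {τ Z : ℕ} (hτ1 : 1 ≤ τ)
    (hτ : ∀ n : ℕ, 0 < n → n ≤ Z → n.divisors.card ≤ τ)
    {s p p' W : ℤ} (hs : s ≠ 0) (hsum : s + p + p' = 4) (hZ : 96 * W ^ 2 ≤ Z)
    (G : Finset (M2 × M2 × M2)) (hG : ∀ X ∈ G, Tri s p p' W X) (I J : M2)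
    (hIJ : ∀ X ∈ G, X.2.1 * ad X.1 = I ∧ X.2.2 * ad X.1 = J) :
    (G.card : ℝ) * |(s : ℝ)| ≤ 1920 * τ * (W : ℝ) ^ 2 := by
  classical
  rcases G.eq_empty_or_nonempty with rfl | ⟨X1, hX1⟩
  · simp only [Finset.card_empty, Nat.cast_zero, zero_mul]
    positivity
  have T1 := hG X1 hX1
  obtain ⟨I1, J1⟩ := hIJ X1 hX1
  set x1 := X1.1 with hx1
  set y1 := X1.2.1 with hy1
  set z1 := X1.2.2 with hz1
  let m : M2 × M2 × M2 → M2 := fun X => ad x1 * X.1 + ad y1 * X.2.1 + ad z1 * X.2.2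
  have hm : ∀ X ∈ G, x1 * m X = (4 : ℤ) • X.1 := by
    intro X hX
    have T := hG X hX
    obtain ⟨hI, hJ⟩ := hIJ X hX
    have e1 : x1 * (ad x1 * X.1) = s • X.1 := by
      rw [← mul_assoc, mul_ad, T1.dx, smul_mul_assoc, one_mul]
    have e2 : x1 * (ad y1 * X.2.1) = p • X.1 := by
      rw [← mul_assoc, mul_ad_anti T1.xy, I1, ← hI, neg_mul, mul_assoc, ad_mul_anti T.xy, mul_neg,
        neg_neg, ← mul_assoc, mul_ad, T.dy, smul_mul_assoc, one_mul]
    have e3 : x1 * (ad z1 * X.2.2) = p' • X.1 := by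
      rw [← mul_assoc, mul_ad_anti T1.xz, J1, ← hJ, neg_mul, mul_assoc, ad_mul_anti T.xz, mul_neg,
        neg_neg, ← mul_assoc, mul_ad, T.dz, smul_mul_assoc, one_mul]
    change x1 * (ad x1 * X.1 + ad y1 * X.2.1 + ad z1 * X.2.2) = _
    rw [mul_add, mul_add, e1, e2, e3, ← add_smul, ← add_smul, hsum]
  have hinj : ∀ X ∈ G, ∀ X' ∈ G, m X = m X' → X = X' := by
    intro X hX X' hX' h
    have T := hG X hX
    have T' := hG X' hX'
    have e1 : X.1 = X'.1 := by
      have := hm X hX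
      rw [h, hm X' hX'] at this
      exact (smul_right_injective M2 (show (4 : ℤ) ≠ 0 by norm_num) this).symm
    have key : ∀ {x y y' K : M2}, x.det = s → y * ad x = K → y' * ad x = K → y = y' := by
      intro x y y' K hd h1 h2
      have : (y * ad x) * x = (y' * ad x) * x := by rw [h1, h2]
      rw [mul_assoc, mul_assoc, ad_mul, hd, mul_smul_comm, mul_smul_comm, mul_one, mul_one] at this
      exact smul_right_injective M2 hs this
    obtain ⟨hI, hJ⟩ := hIJ X hX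
    obtain ⟨hI', hJ'⟩ := hIJ X' hX'
    rw [← e1] at hI' hJ'
    exact Prod.ext e1 (Prod.ext (key T.dx hI hI') (key T.dx hJ hJ'))
  let φ : M2 × M2 × M2 → ℤ × ℤ × ℤ × ℤ := fun X =>
    (m X 0 0, m X 1 0, m X 0 1, m X 1 1)
  have hφ : Set.InjOn φ (G : Set (M2 × M2 × M2)) := by
    intro X hX X' hX' h
    simp only [φ, Prod.mk.injEq] at h
    obtain ⟨h1, h2, h3, h4⟩ := h
    exact hinj X hX X' hX' (M2_ext h1 h3 h2 h4)
  set A := x1 0 0 ^ 2 + x1 1 0 ^ 2 with hA
  set H := x1 0 0 * x1 0 1 + x1 1 0 * x1 1 1 with hH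
  set C := x1 0 1 ^ 2 + x1 1 1 ^ 2 with hC
  have d1 : x1 0 0 * x1 1 1 - x1 0 1 * x1 1 0 = s := by
    rw [← Matrix.det_fin_two]; exact T1.dx
  have hΔ : A * C - H ^ 2 = s ^ 2 := by rw [← d1, hA, hH, hC]; ring
  have hApos : 0 < A := by
    rw [hA]
    by_contra hcon
    push Not at hcon
    have h1 : x1 0 0 = 0 := by nlinarith [sq_nonneg (x1 0 0), sq_nonneg (x1 1 0)]
    have h2 : x1 1 0 = 0 := by nlinarith [sq_nonneg (x1 0 0), sq_nonneg (x1 1 0)]
    rw [h1, h2] at d1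
    apply hs
    rw [← d1]; ring
  have hsol : ∀ u ∈ G.image φ, Sol A H C 16 (32 * W ^ 2) u := by
    intro u hu
    obtain ⟨X, hX, rfl⟩ := Finset.mem_image.mp hu
    have T := hG X hX
    have e := hm X hX
    have e00 : x1 0 0 * m X 0 0 + x1 0 1 * m X 1 0 = 4 * X.1 0 0 := by
      rw [← mul00, e]; rfl
    have e01 : x1 0 0 * m X 0 1 + x1 0 1 * m X 1 1 = 4 * X.1 0 1 := by
      rw [← mul01, e]; rfl
    have e10 : x1 1 0 * m X 0 0 + x1 1 1 * m X 1 0 = 4 * X.1 1 0 := by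
      rw [← mul10, e]; rfl
    have e11 : x1 1 0 * m X 0 1 + x1 1 1 * m X 1 1 = 4 * X.1 1 1 := by
      rw [← mul11, e]; rfl
    have hsq : ∀ i j, X.1 i j ^ 2 ≤ W ^ 2 := fun i j => sq_le_sq.mpr (by
      rw [abs_of_nonneg ((abs_nonneg _).trans (T.bx i j))]
      exact T.bx i j)
    refine ⟨?_, ?_, ?_⟩
    · change m X 0 0 * m X 1 1 - m X 1 0 * m X 0 1 = 16
      have h1 : x1.det * (m X).det = 16 * X.1.det := by
        rw [← Matrix.det_mul, e]
        rw [Matrix.det_smul, Fintype.card_fin]; norm_num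
      rw [T1.dx, T.dx] at h1
      have h2 : (m X).det = 16 := by
        apply mul_left_cancel₀ hs
        rw [h1]; ring
      rw [Matrix.det_fin_two] at h2
      linarith
    · change qf A H C (m X 0 0) (m X 1 0) ≤ _
      have : qf A H C (m X 0 0) (m X 1 0) = (x1 0 0 * m X 0 0 + x1 0 1 * m X 1 0) ^ 2 +
          (x1 1 0 * m X 0 0 + x1 1 1 * m X 1 0) ^ 2 := by
        rw [hA, hH, hC]; unfold qf; ring
      rw [this, e00, e10]
      linarith [hsq 0 0, hsq 1 0]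
    · change qf A H C (m X 0 1) (m X 1 1) ≤ _
      have : qf A H C (m X 0 1) (m X 1 1) = (x1 0 0 * m X 0 1 + x1 0 1 * m X 1 1) ^ 2 +
          (x1 1 0 * m X 0 1 + x1 1 1 * m X 1 1) ^ 2 := by
        rw [hA, hH, hC]; unfold qf; ring
      rw [this, e01, e11]
      linarith [hsq 0 1, hsq 1 1]
  have hmain := sol_card hτ1 hτ (show (16 : ℤ) ≠ 0 by norm_num)
    (show (0 : ℤ) ≤ 32 * W ^ 2 by positivity) (by linarith) A.natAbs A H C hApos le_rfl
    (by rw [hΔ]; positivity) _ hsol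
  rw [Finset.card_image_of_injOn hφ, hΔ] at hmain
  have hs2 : Real.sqrt ((s ^ 2 : ℤ) : ℝ) = |(s : ℝ)| := by
    push_cast
    exact Real.sqrt_sq_eq_abs _
  rw [hs2] at hmain
  refine hmain.trans (le_of_eq ?_)
  push_cast
  ring

end Pool.Agent.Helper89.SLE
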