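import Pool.Agent.Helper89.SLE.Tri

/-!
# Number of orthogonal triples with given norms
-/

set_option autoImplicit false

namespace Pool.Agent.Helper89.SLE

open Finset Matrix

/-- The bound for frames, from a definite element. -/
theorem frames_bound {τ Z : ℕ} (hτ1 : 1 ≤ τ)
    (hτ : ∀ n : ℕ, 0 < n → n ≤ Z → n.divisors.card ≤ τ)
    {s p p' W D1 D2 c σ : ℤ} (hs : s ≠ 0) (hp : p ≠ 0) (hp' : p' ≠ 0)
    (hpp : |p| ≤ |p'|) (hps : |p| ≤ |s|) (hc : 0 < c) (hW : 1 ≤ W)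
    (hZ : 768 * W ^ 12 ≤ Z) (hσ0 : 0 ≤ σ) (hσ : ∀ d : ℤ, 0 ≤ d → d ^ 2 ∣ 4 * (s * p) → d ≤ σ)
    (hD1 : c ^ 2 * D1 = s * p) (hD2 : c ^ 2 * D2 = s * p')
    (hsW : |s| ≤ 2 * W ^ 2) (hpW : |p| ≤ 2 * W ^ 2) (hp'W : |p'| ≤ 2 * W ^ 2)
    (𝓕 : Finset (M2 × M2))
    (hF : ∀ P ∈ 𝓕, Fr D1 D2 P.1 P.2 ∧ Unim2 P.1 P.2 ∧ (∀ i j, |c * P.1 i j| ≤ 2 * W ^ 2) ∧
      (∀ i j, |c * P.2 i j| ≤ 2 * W ^ 2) ∧ (∀ i j, |c ^ 2 * (P.1 * P.2) i j| ≤ |s| * (2 * W ^ 2))) :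
    (𝓕.card : ℝ) * |(p : ℝ)| ≤ 480 * τ ^ 3 * σ * (W : ℝ) ^ 2 := by
  have hWr : (1 : ℝ) ≤ W := by exact_mod_cast hW
  have hσr : (0 : ℝ) ≤ σ := by exact_mod_cast hσ0
  have hcr : (0 : ℝ) < c := by exact_mod_cast hc
  have hc2 : 1 ≤ c ^ 2 := by nlinarith
  have hD1' : D1 ≠ 0 := by
    rintro rfl
    rw [mul_zero] at hD1
    exact mul_ne_zero hs hp hD1.symm
  have hD2' : D2 ≠ 0 := by
    rintro rfl
    rw [mul_zero] at hD2
    exact mul_ne_zero hs hp' hD2.symm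
  have hσ' : ∀ d : ℤ, 0 ≤ d → d ^ 2 ∣ 4 * D1 → d ≤ σ := by
    intro d hd h
    apply hσ d hd
    rw [← hD1]
    have : 4 * (c ^ 2 * D1) = c ^ 2 * (4 * D1) := by ring
    rw [this]
    exact Dvd.dvd.mul_left h _
  have hW2 : 0 ≤ 2 * W ^ 2 := by positivity
  have b1 : |D1| ≤ 4 * W ^ 4 := by
    calc |D1| ≤ c ^ 2 * |D1| := by nlinarith [abs_nonneg D1]
      _ = |s| * |p| := by rw [← abs_mul, ← hD1, abs_mul, abs_of_pos (by positivity : 0 < c ^ 2)]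
      _ ≤ (2 * W ^ 2) * (2 * W ^ 2) := mul_le_mul hsW hpW (abs_nonneg _) hW2
      _ = 4 * W ^ 4 := by ring
  have b2 : |D2| ≤ 4 * W ^ 4 := by
    calc |D2| ≤ c ^ 2 * |D2| := by nlinarith [abs_nonneg D2]
      _ = |s| * |p'| := by rw [← abs_mul, ← hD2, abs_mul, abs_of_pos (by positivity : 0 < c ^ 2)]
      _ ≤ (2 * W ^ 2) * (2 * W ^ 2) := mul_le_mul hsW hp'W (abs_nonneg _) hW2
      _ = 4 * W ^ 4 := by ring
  have b3 : |D1 * D2| ≤ 16 * W ^ 8 := by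
    rw [abs_mul]
    calc |D1| * |D2| ≤ (4 * W ^ 4) * (4 * W ^ 4) := mul_le_mul b1 b2 (abs_nonneg _) (by positivity)
      _ = 16 * W ^ 8 := by ring
  have hW8 : W ^ 8 ≤ W ^ 12 := pow_le_pow_right₀ hW (by norm_num)
  have hZ1 : 4 * |D1 * D2| ≤ Z := by
    have : 0 ≤ W ^ 8 := by positivity
    linarith
  have hZ2 : ∀ B : ℤ, 0 ≤ B → B ≤ 4 * W ^ 4 → 3 * (4 * |D1 * D2| * B) ≤ Z := by
    intro B hB0 hB
    have h1 : |D1 * D2| * B ≤ (16 * W ^ 8) * (4 * W ^ 4) :=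
      mul_le_mul b3 hB hB0 (by positivity)
    have h2 : (16 * W ^ 8) * (4 * W ^ 4) = 64 * W ^ 12 := by ring
    linarith
  have hW24 : W ^ 2 ≤ W ^ 4 := pow_le_pow_right₀ hW (by norm_num)
  have hedge : ∀ {t B x : ℤ}, 0 < t → |t * x| ≤ B → |x| ≤ B / t := by
    intro t B x ht h
    rw [Int.le_ediv_iff_mul_le ht, mul_comm]
    calc t * |x| = |t * x| := by rw [abs_mul, abs_of_pos ht]
      _ ≤ B := h
  have hdivle : ∀ {t B : ℤ}, 0 < t → 0 ≤ B → B / t ≤ B ∧ 0 ≤ B / t ∧ t * (B / t) ≤ B := by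
    intro t B ht hB
    exact ⟨Int.ediv_le_self t hB, Int.ediv_nonneg hB ht.le, Int.mul_ediv_self_le ht.ne'⟩
  have habsp : (|p| : ℤ) ^ 2 ≤ |s| * |p| := by
    rw [sq]; exact mul_le_mul_of_nonneg_right hps (abs_nonneg _)
  by_cases hA : 0 < s * p
  · have hDpos : 0 < D1 := by
      by_contra hcon
      push Not at hcon
      have : c ^ 2 * D1 ≤ 0 := mul_nonpos_of_nonneg_of_nonpos (by positivity) hcon
      linarith
    obtain ⟨e1, e2, e3⟩ := hdivle (t := c) (B := 2 * W ^ 2) hc hW2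
    have := frames_count hτ1 hτ hD1' hD2' (fun I _ => I) (DE := D1) (B := 2 * W ^ 2 / c) (σ := σ)
      e2 hσ0 (fun I0 J0 I J a h1 _ => h1) hσ' hZ1 (hZ2 _ e2 (by linarith)) hDpos 𝓕
      (fun P hP => by
        obtain ⟨f1, f2, f3, f4, f5⟩ := hF P hP
        exact ⟨f1, f2, f1.tI, f1.dI, hedge hc (f3 0 1), hedge hc (f3 1 0)⟩)
    have hsq : |(p : ℝ)| ≤ c * Real.sqrt (D1 : ℝ) := by
      have h1 : (c : ℝ) * Real.sqrt (D1 : ℝ) = Real.sqrt ((s * p : ℤ) : ℝ) := by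
        rw [← hD1]
        push_cast
        rw [Real.sqrt_mul (by positivity), Real.sqrt_sq hcr.le]
      rw [h1]
      apply Real.le_sqrt_of_sq_le
      have h2 : |p| ^ 2 ≤ s * p := by
        rw [← abs_of_pos hA, abs_mul]; exact habsp
      have h3 : ((|p| ^ 2 : ℤ) : ℝ) ≤ ((s * p : ℤ) : ℝ) := by exact_mod_cast h2
      push_cast at h3 ⊢
      exact h3
    have e3r : (c : ℝ) * ((2 * W ^ 2 / c : ℤ) : ℝ) ≤ 2 * (W : ℝ) ^ 2 := by
      have : ((c * (2 * W ^ 2 / c) : ℤ) : ℝ) ≤ ((2 * W ^ 2 : ℤ) : ℝ) := by exact_mod_cast e3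
      push_cast at this
      exact this
    calc (𝓕.card : ℝ) * |(p : ℝ)| ≤ 𝓕.card * (c * Real.sqrt (D1 : ℝ)) :=
          mul_le_mul_of_nonneg_left hsq (Nat.cast_nonneg _)
      _ = c * (𝓕.card * Real.sqrt (D1 : ℝ)) := by ring
      _ ≤ c * (τ * (τ * (240 * τ * σ * ((2 * W ^ 2 / c : ℤ) : ℝ)))) :=
          mul_le_mul_of_nonneg_left this hcr.le
      _ = 240 * τ ^ 3 * σ * (c * ((2 * W ^ 2 / c : ℤ) : ℝ)) := by ring
      _ ≤ 240 * τ ^ 3 * σ * (2 * (W : ℝ) ^ 2) := mul_le_mul_of_nonneg_left e3r (by positivity)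
      _ = 480 * τ ^ 3 * σ * (W : ℝ) ^ 2 := by ring
  by_cases hA' : 0 < s * p'
  · have hDpos : 0 < D2 := by
      by_contra hcon
      push Not at hcon
      have : c ^ 2 * D2 ≤ 0 := mul_nonpos_of_nonneg_of_nonpos (by positivity) hcon
      linarith
    obtain ⟨e1, e2, e3⟩ := hdivle (t := c) (B := 2 * W ^ 2) hc hW2
    have := frames_count hτ1 hτ hD1' hD2' (fun _ J => J) (DE := D2) (B := 2 * W ^ 2 / c) (σ := σ)
      e2 hσ0 (fun I0 J0 I J a _ h1 => h1) hσ' hZ1 (hZ2 _ e2 (by linarith)) hDpos 𝓕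
      (fun P hP => by
        obtain ⟨f1, f2, f3, f4, f5⟩ := hF P hP
        exact ⟨f1, f2, f1.tJ, f1.dJ, hedge hc (f4 0 1), hedge hc (f4 1 0)⟩)
    have hsq : |(p : ℝ)| ≤ c * Real.sqrt (D2 : ℝ) := by
      have h1 : (c : ℝ) * Real.sqrt (D2 : ℝ) = Real.sqrt ((s * p' : ℤ) : ℝ) := by
        rw [← hD2]
        push_cast
        rw [Real.sqrt_mul (by positivity), Real.sqrt_sq hcr.le]
      rw [h1]
      apply Real.le_sqrt_of_sq_le
      have h2 : |p| ^ 2 ≤ s * p' := by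
        rw [← abs_of_pos hA', abs_mul]
        exact habsp.trans (mul_le_mul_of_nonneg_left hpp (abs_nonneg _))
      have h3 : ((|p| ^ 2 : ℤ) : ℝ) ≤ ((s * p' : ℤ) : ℝ) := by exact_mod_cast h2
      push_cast at h3 ⊢
      exact h3
    have e3r : (c : ℝ) * ((2 * W ^ 2 / c : ℤ) : ℝ) ≤ 2 * (W : ℝ) ^ 2 := by
      have : ((c * (2 * W ^ 2 / c) : ℤ) : ℝ) ≤ ((2 * W ^ 2 : ℤ) : ℝ) := by exact_mod_cast e3
      push_cast at this
      exact this
    calc (𝓕.card : ℝ) * |(p : ℝ)| ≤ 𝓕.card * (c * Real.sqrt (D2 : ℝ)) :=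
          mul_le_mul_of_nonneg_left hsq (Nat.cast_nonneg _)
      _ = c * (𝓕.card * Real.sqrt (D2 : ℝ)) := by ring
      _ ≤ c * (τ * (τ * (240 * τ * σ * ((2 * W ^ 2 / c : ℤ) : ℝ)))) :=
          mul_le_mul_of_nonneg_left this hcr.le
      _ = 240 * τ ^ 3 * σ * (c * ((2 * W ^ 2 / c : ℤ) : ℝ)) := by ring
      _ ≤ 240 * τ ^ 3 * σ * (2 * (W : ℝ) ^ 2) := mul_le_mul_of_nonneg_left e3r (by positivity)
      _ = 480 * τ ^ 3 * σ * (W : ℝ) ^ 2 := by ring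
  -- now p p' > 0
  have hsp : s * p < 0 := lt_of_le_of_ne (not_lt.mp hA) (mul_ne_zero hs hp)
  have hsp' : s * p' < 0 := lt_of_le_of_ne (not_lt.mp hA') (mul_ne_zero hs hp')
  have hprod : 0 < (s * p) * (s * p') := mul_pos_of_neg_of_neg hsp hsp'
  have hprodD : c ^ 4 * (D1 * D2) = (s * p) * (s * p') := by rw [← hD1, ← hD2]; ring
  have hDpos : 0 < D1 * D2 := by
    by_contra hcon
    push Not at hcon
    have : c ^ 4 * (D1 * D2) ≤ 0 := mul_nonpos_of_nonneg_of_nonpos (by positivity) hcon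
    linarith
  have hc2' : 0 < c ^ 2 := by positivity
  have hB0 : 0 ≤ |s| * (2 * W ^ 2) := by positivity
  obtain ⟨e1, e2, e3⟩ := hdivle (t := c ^ 2) (B := |s| * (2 * W ^ 2)) hc2' hB0
  have hB4 : |s| * (2 * W ^ 2) ≤ 4 * W ^ 4 := by
    calc |s| * (2 * W ^ 2) ≤ (2 * W ^ 2) * (2 * W ^ 2) := mul_le_mul_of_nonneg_right hsW hW2
      _ = 4 * W ^ 4 := by ring
  have := frames_count hτ1 hτ hD1' hD2' (fun I J => I * J) (DE := D1 * D2)
    (B := |s| * (2 * W ^ 2) / c ^ 2) (σ := σ)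
    e2 hσ0 (fun I0 J0 I J a h1 h2 => by
      rw [← mul_assoc, h1, mul_assoc, h2, mul_assoc]) hσ' hZ1 (hZ2 _ e2 (by linarith)) hDpos 𝓕
    (fun P hP => by
      obtain ⟨f1, f2, f3, f4, f5⟩ := hF P hP
      refine ⟨f1, f2, f1.tIJ, ?_, hedge hc2' (f5 0 1), hedge hc2' (f5 1 0)⟩
      rw [Matrix.det_mul, f1.dI, f1.dJ])
  have hsr : (0 : ℝ) < |(s : ℝ)| := abs_pos.mpr (by exact_mod_cast hs)
  have hsq : |(s : ℝ)| * |(p : ℝ)| ≤ c ^ 2 * Real.sqrt ((D1 * D2 : ℤ) : ℝ) := by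
    have h1 : (c : ℝ) ^ 2 * Real.sqrt ((D1 * D2 : ℤ) : ℝ) =
        Real.sqrt (((s * p) * (s * p') : ℤ) : ℝ) := by
      have h0 : (((s * p) * (s * p') : ℤ) : ℝ) = ((c : ℝ) ^ 2) ^ 2 * ((D1 * D2 : ℤ) : ℝ) := by
        rw [← hprodD]; push_cast; ring
      rw [h0, Real.sqrt_mul (by positivity), Real.sqrt_sq (by positivity)]
    rw [h1]
    apply Real.le_sqrt_of_sq_le
    have h2 : (|s| * |p|) ^ 2 ≤ (s * p) * (s * p') := by
      rw [← abs_of_pos hprod, abs_mul, abs_mul, abs_mul]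
      calc (|s| * |p|) ^ 2 = (|s| * |p|) * (|s| * |p|) := by ring
        _ ≤ (|s| * |p|) * (|s| * |p'|) :=
          mul_le_mul_of_nonneg_left (mul_le_mul_of_nonneg_left hpp (abs_nonneg _)) (by positivity)
    have h3 : (((|s| * |p|) ^ 2 : ℤ) : ℝ) ≤ (((s * p) * (s * p') : ℤ) : ℝ) := by
      exact_mod_cast h2
    push_cast at h3 ⊢
    exact h3
  have e3r : (c : ℝ) ^ 2 * ((|s| * (2 * W ^ 2) / c ^ 2 : ℤ) : ℝ) ≤
      |(s : ℝ)| * (2 * (W : ℝ) ^ 2) := by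
    have : ((c ^ 2 * (|s| * (2 * W ^ 2) / c ^ 2) : ℤ) : ℝ) ≤ ((|s| * (2 * W ^ 2) : ℤ) : ℝ) := by
      exact_mod_cast e3
    push_cast at this
    exact this
  have hfin : |(s : ℝ)| * ((𝓕.card : ℝ) * |(p : ℝ)|) ≤
      |(s : ℝ)| * (480 * τ ^ 3 * σ * (W : ℝ) ^ 2) := by
    calc |(s : ℝ)| * ((𝓕.card : ℝ) * |(p : ℝ)|) = 𝓕.card * (|(s : ℝ)| * |(p : ℝ)|) := by ring
      _ ≤ 𝓕.card * (c ^ 2 * Real.sqrt ((D1 * D2 : ℤ) : ℝ)) :=
          mul_le_mul_of_nonneg_left hsq (Nat.cast_nonneg _)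
      _ = c ^ 2 * (𝓕.card * Real.sqrt ((D1 * D2 : ℤ) : ℝ)) := by ring
      _ ≤ c ^ 2 * (τ * (τ * (240 * τ * σ * ((|s| * (2 * W ^ 2) / c ^ 2 : ℤ) : ℝ)))) :=
          mul_le_mul_of_nonneg_left this (by positivity)
      _ = 240 * τ ^ 3 * σ * (c ^ 2 * ((|s| * (2 * W ^ 2) / c ^ 2 : ℤ) : ℝ)) := by ring
      _ ≤ 240 * τ ^ 3 * σ * (|(s : ℝ)| * (2 * (W : ℝ) ^ 2)) :=
          mul_le_mul_of_nonneg_left e3r (by positivity)
      _ = |(s : ℝ)| * (480 * τ ^ 3 * σ * (W : ℝ) ^ 2) := by ring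
  exact le_of_mul_le_mul_left hfin hsr

/-- Number of orthogonal triples with given norms. -/
theorem tri_count {τ Z : ℕ} (hτ1 : 1 ≤ τ)
    (hτ : ∀ n : ℕ, 0 < n → n ≤ Z → n.divisors.card ≤ τ)
    {s p p' W σ : ℤ} (hs : s ≠ 0) (hp : p ≠ 0) (hp' : p' ≠ 0) (hsum : s + p + p' = 4)
    (hpp : |p| ≤ |p'|) (hps : |p| ≤ |s|) (hW : 1 ≤ W)
    (hZ : 768 * W ^ 12 ≤ Z) (hσ0 : 0 ≤ σ) (hσ : ∀ d : ℤ, 0 ≤ d → d ^ 2 ∣ 4 * (s * p) → d ≤ σ)
    (𝓧 : Finset (M2 × M2 × M2)) (h𝓧 : ∀ X ∈ 𝓧, Tri s p p' W X) :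
    (𝓧.card : ℝ) * (|(s : ℝ)| * |(p : ℝ)|) ≤ 921600 * τ ^ 5 * σ * (W : ℝ) ^ 4 := by
  classical
  have hWr : (1 : ℝ) ≤ W := by exact_mod_cast hW
  have hσr : (0 : ℝ) ≤ σ := by exact_mod_cast hσ0
  rcases 𝓧.eq_empty_or_nonempty with rfl | ⟨X0, hX0⟩
  · simp only [Finset.card_empty, Nat.cast_zero, zero_mul]
    positivity
  have T0 := h𝓧 X0 hX0
  have hsW : |s| ≤ 2 * W ^ 2 := by rw [← T0.dx]; exact abs_det_le T0.bx
  have hpW : |p| ≤ 2 * W ^ 2 := by rw [← T0.dy]; exact abs_det_le T0.hby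
  have hp'W : |p'| ≤ 2 * W ^ 2 := by rw [← T0.dz]; exact abs_det_le T0.bz
  have hsp : s * p ≠ 0 := mul_ne_zero hs hp
  have hex : ∀ X ∈ 𝓧, ∃ (c : ℤ) (I' J' : M2), 0 < c ∧ X.2.1 * ad X.1 = c • I' ∧
      X.2.2 * ad X.1 = c • J' ∧ Unim2 I' J' := by
    intro X hX
    apply exists_content2
    intro h0
    have := (h𝓧 X hX).fr.dI
    rw [h0, Matrix.det_zero] at this
    exact hsp this.symm
  choose! c I' J' hc hI' hJ' hU using hex
  have hdet : ∀ X ∈ 𝓧, (c X) ^ 2 * (I' X).det = s * p ∧ (c X) ^ 2 * (J' X).det = s * p' := by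
    intro X hX
    have h1 := (h𝓧 X hX).fr.dI
    have h2 := (h𝓧 X hX).fr.dJ
    rw [hI' X hX, Matrix.det_smul, Fintype.card_fin] at h1
    rw [hJ' X hX, Matrix.det_smul, Fintype.card_fin] at h2
    exact ⟨h1, h2⟩
  have hspZ : (s * p).natAbs ≤ Z := by
    have h1 : |s * p| ≤ Z := by
      rw [abs_mul]
      have h2 : |s| * |p| ≤ (2 * W ^ 2) * (2 * W ^ 2) :=
        mul_le_mul hsW hpW (abs_nonneg _) (by positivity)
      have h3 : W ^ 4 ≤ W ^ 12 := pow_le_pow_right₀ hW (by norm_num)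
      have h4 : 0 ≤ W ^ 4 := by positivity
      nlinarith
    rw [Int.abs_eq_natAbs] at h1
    exact_mod_cast h1
  have hT : (((s * p).natAbs.divisors.card : ℕ) : ℝ) ≤ τ := by
    exact_mod_cast hτ _ (Int.natAbs_pos.mpr hsp) hspZ
  have hK : (0 : ℝ) ≤ 921600 * τ ^ 4 * σ * (W : ℝ) ^ 4 := by positivity
  have hfin : (𝓧.card : ℝ) * (|(s : ℝ)| * |(p : ℝ)|) ≤
      ((s * p).natAbs.divisors.card : ℕ) * (921600 * τ ^ 4 * σ * (W : ℝ) ^ 4) := by
    apply card_le_fiber_real 𝓧 (fun X => (c X).natAbs)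
    · intro X hX
      rw [Nat.mem_divisors]
      refine ⟨Int.natAbs_dvd_natAbs.mpr ?_, Int.natAbs_ne_zero.mpr hsp⟩
      refine ⟨c X * (I' X).det, ?_⟩
      rw [← (hdet X hX).1]; ring
    · intro c0 _
      set 𝓧c := 𝓧.filter (fun X => (c X).natAbs = c0) with h𝓧c
      rcases 𝓧c.eq_empty_or_nonempty with hemp | ⟨X1, hX1⟩
      · rw [hemp]
        simp only [Finset.card_empty, Nat.cast_zero, zero_mul]
        exact hK
      have hmem : ∀ X ∈ 𝓧c, X ∈ 𝓧 ∧ c X = (c0 : ℤ) := by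
        intro X hX
        have h1 := Finset.mem_filter.mp hX
        refine ⟨h1.1, ?_⟩
        have h2 := hc X h1.1
        have h3 := h1.2
        omega
      have hc0 : (0 : ℤ) < c0 := by
        rw [← (hmem X1 hX1).2]; exact hc X1 (hmem X1 hX1).1
      set D1 := (I' X1).det with hD1
      set D2 := (J' X1).det with hD2
      have hD : ∀ X ∈ 𝓧c, (I' X).det = D1 ∧ (J' X).det = D2 := by
        intro X hX
        obtain ⟨h1, h2⟩ := hdet X (hmem X hX).1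
        obtain ⟨h3, h4⟩ := hdet X1 (hmem X1 hX1).1
        rw [(hmem X hX).2] at h1 h2
        rw [(hmem X1 hX1).2] at h3 h4
        have hc2 : ((c0 : ℤ)) ^ 2 ≠ 0 := by positivity
        exact ⟨mul_left_cancel₀ hc2 (h1.trans h3.symm), mul_left_cancel₀ hc2 (h2.trans h4.symm)⟩
      set 𝓕 := 𝓧c.image (fun X => (I' X, J' X)) with h𝓕
      have hFB : (𝓕.card : ℝ) * |(p : ℝ)| ≤ 480 * τ ^ 3 * σ * (W : ℝ) ^ 2 := by
        have h3 := (hdet X1 (hmem X1 hX1).1).1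
        have h4 := (hdet X1 (hmem X1 hX1).1).2
        rw [(hmem X1 hX1).2] at h3 h4
        apply frames_bound hτ1 hτ (c := (c0 : ℤ)) hs hp hp' hpp hps hc0 hW hZ hσ0 hσ h3 h4
          hsW hpW hp'W
        intro P hP
        obtain ⟨X, hX, rfl⟩ := Finset.mem_image.mp hP
        have hX' := (hmem X hX).1
        have hcX := (hmem X hX).2
        have T := h𝓧 X hX'
        have fr := T.fr
        have eI := hI' X hX'
        have eJ := hJ' X hX'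
        rw [hcX] at eI eJ
        have eIe : ∀ i j, (X.2.1 * ad X.1) i j = c0 * (I' X) i j := by
          intro i j; rw [eI]; rfl
        have eJe : ∀ i j, (X.2.2 * ad X.1) i j = c0 * (J' X) i j := by
          intro i j; rw [eJ]; rfl
        refine ⟨⟨?_, ?_, ?_, (hD X hX).1, (hD X hX).2⟩, hU X hX', ?_, ?_, ?_⟩
        · have h := fr.tI
          rw [eIe, eIe, ← mul_add] at h
          exact (mul_eq_zero.mp h).resolve_left hc0.ne'
        · have h := fr.tJ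
          rw [eJe, eJe, ← mul_add] at h
          exact (mul_eq_zero.mp h).resolve_left hc0.ne'
        · have h := fr.tIJ
          rw [eI, eJ, smul_mul_smul_comm, Matrix.smul_apply, Matrix.smul_apply, ← smul_add,
            smul_eq_mul] at h
          exact (mul_eq_zero.mp h).resolve_left (mul_ne_zero hc0.ne' hc0.ne')
        · intro i j
          rw [← eIe]
          exact abs_mul_ad_le T.bx T.hby i j
        · intro i j
          rw [← eJe]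
          exact abs_mul_ad_le T.bx T.bz i j
        · intro i j
          have h5 := T.IJ
          rw [eI, eJ, smul_mul_smul_comm] at h5
          have h6 : (c0 : ℤ) ^ 2 * (I' X * J' X) i j = -(s * (X.2.1 * ad X.2.2) i j) := by
            have := congrFun (congrFun h5 i) j
            rw [Matrix.smul_apply, Matrix.neg_apply, Matrix.smul_apply, smul_eq_mul,
              smul_eq_mul] at this
            rw [← this]; ring
          change |(c0 : ℤ) ^ 2 * (I' X * J' X) i j| ≤ _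
          rw [h6, abs_neg, abs_mul]
          exact mul_le_mul_of_nonneg_left (abs_mul_ad_le T.bz T.hby i j) (abs_nonneg _)
      have hXC : (𝓧c.card : ℝ) * |(s : ℝ)| ≤ 𝓕.card * (1920 * τ * (W : ℝ) ^ 2) := by
        apply card_le_fiber_real 𝓧c (fun X => (I' X, J' X))
        · intro X hX
          exact Finset.mem_image_of_mem _ hX
        · intro P _
          apply x_count hτ1 hτ hs hsum _ _ (fun X hX => h𝓧 X
            (hmem X (Finset.mem_filter.mp hX).1).1) ((c0 : ℤ) • P.1) ((c0 : ℤ) • P.2)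
          · intro X hX
            have h1 := Finset.mem_filter.mp hX
            have h2 := hmem X h1.1
            have e1 := hI' X h2.1
            have e2 := hJ' X h2.1
            rw [h2.2] at e1 e2
            rw [e1, e2, ← h1.2]
            exact ⟨rfl, rfl⟩
          · have h3 : W ^ 2 ≤ W ^ 12 := pow_le_pow_right₀ hW (by norm_num)
            have h4 : 0 ≤ W ^ 12 := by positivity
            linarith
      calc (𝓧c.card : ℝ) * (|(s : ℝ)| * |(p : ℝ)|) = (𝓧c.card * |(s : ℝ)|) * |(p : ℝ)| := by ring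
        _ ≤ (𝓕.card * (1920 * τ * (W : ℝ) ^ 2)) * |(p : ℝ)| :=
          mul_le_mul_of_nonneg_right hXC (abs_nonneg _)
        _ = (𝓕.card * |(p : ℝ)|) * (1920 * τ * (W : ℝ) ^ 2) := by ring
        _ ≤ (480 * τ ^ 3 * σ * (W : ℝ) ^ 2) * (1920 * τ * (W : ℝ) ^ 2) :=
          mul_le_mul_of_nonneg_right hFB (by positivity)
        _ = 921600 * τ ^ 4 * σ * (W : ℝ) ^ 4 := by ring
  calc (𝓧.card : ℝ) * (|(s : ℝ)| * |(p : ℝ)|) ≤
      ((s * p).natAbs.divisors.card : ℕ) * (921600 * τ ^ 4 * σ * (W : ℝ) ^ 4) := hfin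
    _ ≤ τ * (921600 * τ ^ 4 * σ * (W : ℝ) ^ 4) := mul_le_mul_of_nonneg_right hT hK
    _ = 921600 * τ ^ 5 * σ * (W : ℝ) ^ 4 := by ring

end Pool.Agent.Helper89.SLE
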